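import Mathlib

/-!
Arithmetic of reduced nine-point classes `d ≥ m 0 + m 1 + m 2`, `3 d = ∑ m i + s`, and `N = ⌈μ / s⌉`.

PROOFS. `ar_tail`: `β = d - 3 a`, `b i = m i - a` (`a = m 8`), `3 β = ∑_{i < 8} b i + s`; `∑_{i < 8} b i ≤ 8 β / 3`, so `β ≤ 3 s`;
`s + N - 1 ≤ μ` because `s (N - 1) ≤ μ - 1` and `(s - 1) (N - 2) ≥ 0`; so `d = β + 3 a ≤ 3 s + 3 (N - 1) ≤ 3 μ`.
`ar_chi`: `2 χ = d² - ∑ (m i)² + s + 2 = β² - ∑ (b i)² + 2 a s + s + 2`, `8 (β² - ∑ (b i)²) ≤ 8 β² - (3 β - s)² ≤ 8 s²`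
(Cauchy - Schwarz for eight numbers), `2 a s ≤ 2 (N - 1) s ≤ 2 μ - 2`, so `2 χ ≤ s² + s + 2 μ ≤ μ² + μ`.
`ar_row`: `(m - N + 1).choose 2` etc. as integers (or by `2 * choose`).
-/

set_option autoImplicit false

namespace Pool.Agent.Lib.MP_6b2d39_agHal

/-- `N = ⌈μ / s⌉` -/
structure Ar (μ s N : ℕ) : Prop where
  hs : 1 ≤ s
  hsμ : s < μ
  low : μ ≤ N * s
  upp : N * s ≤ μ + s - 1
  two : 2 ≤ N
  le : s + N ≤ μ + 1

theorem exists_ar {μ s : ℕ} (hs : 1 ≤ s) (hsμ : s < μ) : ∃ N, Ar μ s N := by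
  obtain ⟨N, hN⟩ : ∃ N, N = (μ + s - 1) / s := ⟨_, rfl⟩
  have h1 : N * s ≤ μ + s - 1 := by
    rw [hN]
    exact Nat.div_mul_le_self _ _
  have h2 : μ + s - 1 < (N + 1) * s := by
    rw [hN]
    have h3 := Nat.lt_mul_div_succ (μ + s - 1) (show 0 < s by omega)
    rw [mul_comm]
    exact h3
  have h3 : μ ≤ N * s := by
    rw [add_mul, one_mul] at h2
    omega
  have h4 : 2 ≤ N := by
    by_contra hcon
    have h5 : N * s ≤ 1 * s := Nat.mul_le_mul_right s (by omega)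
    omega
  refine ⟨N, hs, hsμ, h3, h1, h4, ?_⟩
  obtain ⟨a, rfl⟩ : ∃ a, N = a + 2 := ⟨N - 2, by omega⟩
  obtain ⟨b, rfl⟩ : ∃ b, s = b + 1 := ⟨s - 1, by omega⟩
  have h6 : (a + 2) * (b + 1) = a * b + a + 2 * b + 2 := by ring
  rw [h6] at h1
  have h7 := Nat.zero_le (a * b)
  omega

private theorem ArA_choose (k : ℕ) : 2 * (k + 1).choose 2 = k * (k + 1) := by
  induction k with
  | zero => simp
  | succ k ih =>
    rw [Nat.choose_succ_succ, Nat.choose_one_right]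
    rw [mul_add, ih]
    ring

variable {μ s N d : ℕ} {m : Fin 9 → ℕ}

theorem ar_row (hm : ∀ i, N ≤ m i) (hd3 : 3 * N ≤ d) (hd : 3 * d = ∑ i, m i + s) :
    (d + 2).choose 2 + ∑ i, (m i - N + 1).choose 2 =
      (d - 3 * N + 2).choose 2 + ∑ i, (m i + 1).choose 2 + N * s := by
  obtain ⟨p, hp⟩ : ∃ p : Fin 9 → ℕ, ∀ i, m i = N + p i :=
    ⟨fun i => m i - N, fun i => (Nat.add_sub_of_le (hm i)).symm⟩
  obtain ⟨e, rfl⟩ : ∃ e, d = 3 * N + e := ⟨d - 3 * N, by omega⟩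
  have h1 : 3 * e = ∑ i, p i + s := by
    have h2 : ∑ i, m i = 9 * N + ∑ i, p i := by
      rw [Finset.sum_congr rfl fun i _ => hp i, Finset.sum_add_distrib, Finset.sum_const,
        Finset.card_univ, Fintype.card_fin, smul_eq_mul]
    omega
  have h3 : ∑ i, (m i - N + 1).choose 2 = ∑ i, (p i + 1).choose 2 := by
    refine Finset.sum_congr rfl fun i _ => ?_
    rw [hp, Nat.add_sub_cancel_left]
  have h4 : ∑ i, (m i + 1).choose 2 = ∑ i, (N + p i + 1).choose 2 := by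
    refine Finset.sum_congr rfl fun i _ => ?_
    rw [hp]
  have h5 : 3 * N + e - 3 * N + 2 = (e + 1) + 1 := by omega
  rw [h3, h4, h5]
  refine Nat.eq_of_mul_eq_mul_left (show 0 < 2 by norm_num) ?_
  rw [mul_add, mul_add, mul_add, Finset.mul_sum, Finset.mul_sum, ArA_choose (e + 1),
    show 3 * N + e + 2 = (3 * N + e + 1) + 1 by ring, ArA_choose,
    Finset.sum_congr rfl fun i _ => ArA_choose (p i),
    Finset.sum_congr rfl fun i _ => ArA_choose (N + p i)]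
  have h6 : ∑ i, (N + p i) * (N + p i + 1) =
      9 * (N * N) + 9 * N + 2 * N * ∑ i, p i + ∑ i, p i * (p i + 1) := by
    have h7 : ∀ i, (N + p i) * (N + p i + 1) =
        (N * N + N + 2 * N * p i) + p i * (p i + 1) := fun i => by ring
    rw [Finset.sum_congr rfl fun i _ => h7 i, Finset.sum_add_distrib, Finset.sum_add_distrib,
      Finset.sum_const, Finset.card_univ, Fintype.card_fin, smul_eq_mul, ← Finset.mul_sum]
    ring
  rw [h6]
  have h8 : 2 * N * (3 * e) = 2 * N * (∑ i, p i) + 2 * (N * s) := by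
    rw [h1]
    ring
  nlinarith

theorem ar_zero (hm : Antitone m) (hr : m 0 + m 1 + m 2 ≤ d) (hd : 3 * d = ∑ i, m i) :
    d = 3 * m 0 ∧ ∀ i, m i = m 0 := by
  have h : ∀ i j : Fin 9, i ≤ j → m j ≤ m i := fun i j hij => hm hij
  have h01 := h 0 1 (by decide)
  have h12 := h 1 2 (by decide)
  have h23 := h 2 3 (by decide)
  have h34 := h 3 4 (by decide)
  have h45 := h 4 5 (by decide)
  have h56 := h 5 6 (by decide)
  have h67 := h 6 7 (by decide)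
  have h78 := h 7 8 (by decide)
  have hs : ∑ i, m i = m 0 + m 1 + m 2 + m 3 + m 4 + m 5 + m 6 + m 7 + m 8 := by
    rw [Fin.sum_univ_succ, Fin.sum_univ_eight]
    simp only [add_assoc]
    rfl
  rw [hs] at hd
  have h80 : m 8 = m 0 := by omega
  refine ⟨by omega, fun i => ?_⟩
  have h1 := h 0 i (Fin.zero_le _)
  have h2 := h i 8 (Fin.le_last _)
  omega

end Pool.Agent.Lib.MP_6b2d39_agHal
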