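import Pool.Agent.Lib.MP_6b2d39_agHal.ArA

/-!
Arithmetic of reduced nine-point classes `d ≥ m 0 + m 1 + m 2`, `3 d = ∑ m i + s`, and `N = ⌈μ / s⌉`.

PROOFS. `ar_tail`: `β = d - 3 a`, `b i = m i - a` (`a = m 8`), `3 β = ∑_{i < 8} b i + s`; `∑_{i < 8} b i ≤ 8 β / 3`, so `β ≤ 3 s`;
`s + N - 1 ≤ μ` because `s (N - 1) ≤ μ - 1` and `(s - 1) (N - 2) ≥ 0`; so `d = β + 3 a ≤ 3 s + 3 (N - 1) ≤ 3 μ`.
`ar_chi`: `2 χ = d² - ∑ (m i)² + s + 2 = β² - ∑ (b i)² + 2 a s + s + 2`, `8 (β² - ∑ (b i)²) ≤ 8 β² - (3 β - s)² ≤ 8 s²`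
(Cauchy - Schwarz for eight numbers), `2 a s ≤ 2 (N - 1) s ≤ 2 μ - 2`, so `2 χ ≤ s² + s + 2 μ ≤ μ² + μ`.
`ar_row`: `(m - N + 1).choose 2` etc. as integers (or by `2 * choose`).
-/

set_option autoImplicit false

namespace Pool.Agent.Lib.MP_6b2d39_agHal

variable {μ s N d : ℕ} {m : Fin 9 → ℕ}

private theorem ArB_sum (f : Fin 9 → ℕ) :
    ∑ i, f i = f 0 + f 1 + f 2 + f 3 + f 4 + f 5 + f 6 + f 7 + f 8 := by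
  rw [Fin.sum_univ_succ, Fin.sum_univ_eight]
  simp only [add_assoc]
  rfl

theorem ar_tail (h : Ar μ s N) (hm : Antitone m) (hr : m 0 + m 1 + m 2 ≤ d)
    (hd : 3 * d = ∑ i, m i + s) (ha : m 8 < N) : d ≤ 3 * μ := by
  have h0 : ∀ i j : Fin 9, i ≤ j → m j ≤ m i := fun i j hij => hm hij
  have h01 := h0 0 1 (by decide)
  have h12 := h0 1 2 (by decide)
  have h23 := h0 2 3 (by decide)
  have h34 := h0 3 4 (by decide)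
  have h45 := h0 4 5 (by decide)
  have h56 := h0 5 6 (by decide)
  have h67 := h0 6 7 (by decide)
  have h78 := h0 7 8 (by decide)
  have hle := h.le
  rw [ArB_sum] at hd
  omega

private theorem ArB_cs (x0 x1 x2 x3 x4 x5 x6 x7 : ℤ) :
    (x0 + x1 + x2 + x3 + x4 + x5 + x6 + x7) ^ 2 ≤ 8 * (x0 ^ 2 + x1 ^ 2 + x2 ^ 2 + x3 ^ 2 +
      x4 ^ 2 + x5 ^ 2 + x6 ^ 2 + x7 ^ 2) := by
  have h1 : 8 * (x0 ^ 2 + x1 ^ 2 + x2 ^ 2 + x3 ^ 2 + x4 ^ 2 + x5 ^ 2 + x6 ^ 2 + x7 ^ 2) -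
      (x0 + x1 + x2 + x3 + x4 + x5 + x6 + x7) ^ 2 =
      ((x0 - x1) ^ 2 + (x0 - x2) ^ 2 + (x0 - x3) ^ 2 + (x0 - x4) ^ 2 + (x0 - x5) ^ 2 +
        (x0 - x6) ^ 2 + (x0 - x7) ^ 2) + ((x1 - x2) ^ 2 + (x1 - x3) ^ 2 + (x1 - x4) ^ 2 +
        (x1 - x5) ^ 2 + (x1 - x6) ^ 2 + (x1 - x7) ^ 2) + ((x2 - x3) ^ 2 + (x2 - x4) ^ 2 +
        (x2 - x5) ^ 2 + (x2 - x6) ^ 2 + (x2 - x7) ^ 2) + ((x3 - x4) ^ 2 + (x3 - x5) ^ 2 +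
        (x3 - x6) ^ 2 + (x3 - x7) ^ 2) + ((x4 - x5) ^ 2 + (x4 - x6) ^ 2 + (x4 - x7) ^ 2) +
        ((x5 - x6) ^ 2 + (x5 - x7) ^ 2) + (x6 - x7) ^ 2 := by
    ring
  have h2 : 0 ≤ ((x0 - x1) ^ 2 + (x0 - x2) ^ 2 + (x0 - x3) ^ 2 + (x0 - x4) ^ 2 + (x0 - x5) ^ 2 +
        (x0 - x6) ^ 2 + (x0 - x7) ^ 2) + ((x1 - x2) ^ 2 + (x1 - x3) ^ 2 + (x1 - x4) ^ 2 +
        (x1 - x5) ^ 2 + (x1 - x6) ^ 2 + (x1 - x7) ^ 2) + ((x2 - x3) ^ 2 + (x2 - x4) ^ 2 +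
        (x2 - x5) ^ 2 + (x2 - x6) ^ 2 + (x2 - x7) ^ 2) + ((x3 - x4) ^ 2 + (x3 - x5) ^ 2 +
        (x3 - x6) ^ 2 + (x3 - x7) ^ 2) + ((x4 - x5) ^ 2 + (x4 - x6) ^ 2 + (x4 - x7) ^ 2) +
        ((x5 - x6) ^ 2 + (x5 - x7) ^ 2) + (x6 - x7) ^ 2 := by
    positivity
  linarith

private theorem ArB_choose (k : ℕ) : 2 * (k + 1).choose 2 = k * (k + 1) := by
  induction k with
  | zero => simp
  | succ k ih =>
    rw [Nat.choose_succ_succ, Nat.choose_one_right]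
    rw [mul_add, ih]
    ring

theorem ar_chi (h : Ar μ s N) (hm : Antitone m) (hr : m 0 + m 1 + m 2 ≤ d)
    (hd : 3 * d = ∑ i, m i + s) (ha : m 8 < N) :
    (d + 2).choose 2 ≤ ∑ i, (m i + 1).choose 2 + μ ^ 2 := by
  have h0 : ∀ i j : Fin 9, i ≤ j → m j ≤ m i := fun i j hij => hm hij
  obtain ⟨a, ha'⟩ : ∃ a, a = m 8 := ⟨_, rfl⟩
  obtain ⟨b, hb⟩ : ∃ b : Fin 9 → ℕ, ∀ i, m i = a + b i :=
    ⟨fun i => m i - a, fun i => (Nat.add_sub_of_le (by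
      rw [ha']
      exact h0 i 8 (Fin.le_last _))).symm⟩
  have hb8 : b 8 = 0 := by
    have := hb 8
    omega
  rw [← ha'] at ha
  -- twice the claim
  have h1 : (d + 1) * (d + 2) ≤ ∑ i, m i * (m i + 1) + 2 * μ ^ 2 := by
    rw [ArB_sum] at hd ⊢
    simp only [hb, hb8] at hd ⊢
    have hs := h.hs
    have hsμ := h.hsμ
    have hupp := h.upp
    zify at hd ha hs hsμ ⊢
    have hupp' : (N : ℤ) * s ≤ μ + s - 1 := by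
      have h2 : N * s + 1 ≤ μ + s := by omega
      zify at h2
      linarith
    have hd' : (d : ℤ) = 3 * a + (d - 3 * a) := by ring
    set β : ℤ := (d : ℤ) - 3 * a with hβ
    rw [hd'] at hd ⊢
    have hsum : (b 0 : ℤ) + b 1 + b 2 + b 3 + b 4 + b 5 + b 6 + b 7 = 3 * β - s := by
      linarith
    have hcs : (3 * β - s) ^ 2 ≤ 8 * ((b 0 : ℤ) ^ 2 + b 1 ^ 2 + b 2 ^ 2 + b 3 ^ 2 + b 4 ^ 2 +
        b 5 ^ 2 + b 6 ^ 2 + b 7 ^ 2) := by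
      rw [← hsum]
      exact ArB_cs _ _ _ _ _ _ _ _
    have h3 : β ^ 2 - ((b 0 : ℤ) ^ 2 + b 1 ^ 2 + b 2 ^ 2 + b 3 ^ 2 + b 4 ^ 2 +
        b 5 ^ 2 + b 6 ^ 2 + b 7 ^ 2) ≤ (s : ℤ) ^ 2 := by
      have h31 := sq_nonneg (β - 3 * s)
      nlinarith
    have h4 : (a : ℤ) * s ≤ μ - 1 := by
      have h5 : (a : ℤ) * s ≤ (N - 1) * s :=
        mul_le_mul_of_nonneg_right (by linarith) (by linarith)
      linarith
    have h6 : (s : ℤ) ^ 2 + s ≤ μ ^ 2 - μ := by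
      have h7 : (s : ℤ) ≤ μ - 1 := by linarith
      nlinarith
    have h8 : (μ : ℤ) ≤ μ ^ 2 := by nlinarith
    have h9 : (a : ℤ) * ((b 0 : ℤ) + b 1 + b 2 + b 3 + b 4 + b 5 + b 6 + b 7) =
        a * (3 * β - s) := by rw [hsum]
    linarith
  have h2 : 2 * (d + 2).choose 2 ≤ 2 * (∑ i, (m i + 1).choose 2 + μ ^ 2) := by
    have h3 := ArB_choose (d + 1)
    rw [mul_add 2 (∑ i, (m i + 1).choose 2), Finset.mul_sum,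
      Finset.sum_congr rfl fun i _ => ArB_choose (m i)]
    exact h3.le.trans h1
  omega

end Pool.Agent.Lib.MP_6b2d39_agHal
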