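import Pool.Agent.Lib.MP_6b2d39_agHal.BranchC

/-!
The branch of a curve.
-/

open Polynomial

set_option autoImplicit false

namespace Pool.Agent.Lib.MP_6b2d39_agHal

open Pool.Agent.Lib.MP_6b2d39_ag


end Pool.Agent.Lib.MP_6b2d39_agHal
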