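import Pool.Agent.Lib.MP_6b2d39_agHal.Curve

/-!
The branch of a curve at a point with `f_y ≠ 0`, as a graph `y = φ (x - x₀)` modulo a power.

* `br x₀ φ F = F (x₀ + x, φ x)`; `loc x₀ φ F = F (x₀ + x, φ x + y)`.

PROOFS. `exists_branch`: induction on `L`: `φ + c X ^ L` with `c = - (coeff of X ^ L in br φ f) / f_y` (for `L ≥ 1`:
`br (φ + c X ^ L) f = br φ f + c X ^ L br φ (dy f)` modulo `X ^ (L + 1)`).
`br_dd`: `d/dx (br F) = br (dx F) + φ' br (dy F)` and the same for `f`, where the left side is divisible by `X ^ L`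
(if `X ^ (L + 1) ∣ br f`): `br (dy f) * d/dx (br F) - br (dd f F) = φ' … = br (dy F) * d/dx (br f)`.
`ord_branch`: `w i = br ((dd f)^[i] F)`; `w (i + 1) = ε (w i)' ` modulo `X ^ L` with `ε (0) ≠ 0` (`br_dd`). If `w 0` has order
`k < L` then `w i` has order `k - i` for `i ≤ k`, so `k` is the first `i` with `w i (0) = ev ((dd f)^[i] F) ≠ 0`, `k = a`; if `X ^ L ∣ w 0`
then `X ^ (L - i) ∣ w i` for `i ≤ L`, contradiction with `w a (0) ≠ 0`, `a < L`.
-/

open Polynomial

set_option autoImplicit false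

namespace Pool.Agent.Lib.MP_6b2d39_agHal

open Pool.Agent.Lib.MP_6b2d39_ag

/-- restriction to the graph -/
noncomputable def br (x₀ : ℂ) (φ : ℂ[X]) : ℂ[X][X] →ₐ[ℂ] ℂ[X] := aevalAeval φ (X + C x₀)

/-- local coordinates -/
noncomputable def loc (x₀ : ℂ) (φ : ℂ[X]) : ℂ[X][X] →ₐ[ℂ] ℂ[X][X] :=
  aevalAeval (C X + φ.map C) (X + C (C x₀))

private theorem ext_alg {A : Type*} [CommRing A] [Algebra ℂ A] {g h : ℂ[X][X] →ₐ[ℂ] A}
    (h1 : g (C X) = h (C X)) (h2 : g X = h X) : g = h := by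
  have hC : ∀ q : ℂ[X], g (C q) = h (C q) := by
    intro q
    have e : ∀ k : ℂ[X][X] →ₐ[ℂ] A, k (C q) = aeval (k (C X)) q := by
      intro k
      have e2 : (k.comp (IsScalarTower.toAlgHom ℂ ℂ[X] ℂ[X][X])) = aeval (k (C X)) := by
        refine Polynomial.algHom_ext ?_
        rw [AlgHom.comp_apply, aeval_X]
        rfl
      rw [← e2, AlgHom.comp_apply]
      rfl
    rw [e g, e h, h1]
  refine AlgHom.ext fun F => ?_
  induction F using Polynomial.induction_on' with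
  | add p q hp hq => rw [map_add, map_add, hp, hq]
  | monomial n a => rw [← C_mul_X_pow_eq_monomial, map_mul, map_mul, map_pow, map_pow, hC, h2]

private theorem loc_CX (x₀ : ℂ) (φ : ℂ[X]) : loc x₀ φ (C X) = C X + φ.map C := by
  unfold loc
  exact aevalAeval_X _ _

private theorem loc_X (x₀ : ℂ) (φ : ℂ[X]) : loc x₀ φ X = X + C (C x₀) := by
  unfold loc
  exact aevalAeval_Y _ _

private theorem br_CX (x₀ : ℂ) (φ : ℂ[X]) : br x₀ φ (C X) = φ := by
  unfold br
  exact aevalAeval_X _ _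

private theorem br_X (x₀ : ℂ) (φ : ℂ[X]) : br x₀ φ X = X + C x₀ := by
  unfold br
  exact aevalAeval_Y _ _

private theorem ev_CX (p : ℂ × ℂ) : ev p (C X) = p.2 := by
  unfold ev
  exact aevalAeval_X _ _

private theorem ev_X (p : ℂ × ℂ) : ev p X = p.1 := by
  unfold ev
  exact aevalAeval_Y _ _

theorem coeff_loc (x₀ : ℂ) (φ : ℂ[X]) (F : ℂ[X][X]) (i : ℕ) :
    ((loc x₀ φ F).coeff i).coeff 0 = (br x₀ φ F).coeff i := by
  have key : (mapAlgHom (aeval (0 : ℂ))).comp (loc x₀ φ) = br x₀ φ := by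
    refine ext_alg ?_ ?_
    · rw [AlgHom.comp_apply, loc_CX, br_CX, map_add, coe_mapAlgHom, map_C, Polynomial.map_map]
      have e1 : ((aeval (0 : ℂ) : ℂ[X] →ₐ[ℂ] ℂ) : ℂ[X] →+* ℂ).comp C = RingHom.id ℂ := by
        ext a <;> simp
      rw [e1, Polynomial.map_id]
      simp
    · rw [AlgHom.comp_apply, loc_X, br_X, map_add, coe_mapAlgHom, map_C, map_X]
      simp
  rw [← key, AlgHom.comp_apply, coe_mapAlgHom, coeff_map, coeff_zero_eq_aeval_zero]
  rfl

private theorem dy_C (q : ℂ[X]) : dy (C q) = C (derivative q) := by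
  have e : ∀ p : ℂ[X], aeval (C X : ℂ[X][X]) p = C p := by
    intro p
    have e2 : (aeval (C X : ℂ[X][X]) : ℂ[X] →ₐ[ℂ] ℂ[X][X]) =
        IsScalarTower.toAlgHom ℂ ℂ[X] ℂ[X][X] := by
      refine Polynomial.algHom_ext ?_
      rw [aeval_X]
      rfl
    rw [e2]
    rfl
  rw [← e q, dy.map_aeval, dy_CX, e, smul_eq_mul, mul_one]

private theorem loc_zero (x₀ : ℂ) (φ : ℂ[X]) (F : ℂ[X][X]) :
    (loc x₀ φ F).coeff 0 = aevalAeval (X + C (φ.eval 0)) (C x₀) F := by
  have key : ((aeval (0 : ℂ[X]) : ℂ[X][X] →ₐ[ℂ[X]] ℂ[X]).restrictScalars ℂ).comp (loc x₀ φ) =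
      aevalAeval (X + C (φ.eval 0)) (C x₀) := by
    refine ext_alg ?_ ?_
    · rw [AlgHom.comp_apply, loc_CX, aevalAeval_X, map_add]
      have e1 : ∀ G : ℂ[X][X], ((aeval (0 : ℂ[X]) : ℂ[X][X] →ₐ[ℂ[X]] ℂ[X]).restrictScalars ℂ) G =
          G.coeff 0 := by
        intro G
        rw [AlgHom.restrictScalars_apply, coeff_zero_eq_aeval_zero]
      rw [e1, e1, coeff_C_zero, coeff_map, coeff_zero_eq_eval_zero]
    · rw [AlgHom.comp_apply, loc_X, aevalAeval_Y, map_add]
      simp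
  rw [← key, AlgHom.comp_apply, AlgHom.restrictScalars_apply, coeff_zero_eq_aeval_zero]

theorem coeff_loc_one (x₀ : ℂ) (φ : ℂ[X]) (F : ℂ[X][X]) :
    ((loc x₀ φ F).coeff 0).coeff 1 = ev (x₀, φ.eval 0) (dy F) := by
  rw [loc_zero]
  have key : ∀ G : ℂ[X][X], (derivative (aevalAeval (X + C (φ.eval 0)) (C x₀) G)).eval 0 =
      ev (x₀, φ.eval 0) (dy G) := by
    intro G
    induction G using Polynomial.induction_on' with
    | add p q hp hq => rw [map_add, map_add, eval_add, hp, hq, map_add, map_add]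
    | monomial n a =>
      have hev : ∀ q : ℂ[X], ev (x₀, φ.eval 0) (C q) = q.eval (φ.eval 0) := by
        intro q
        unfold ev
        rw [aevalAeval_C, coe_aeval_eq_eval]
      have e1 : aeval (X + C (φ.eval 0)) a = a.comp (X + C (φ.eval 0)) := rfl
      have e2 : dy (C a * X ^ n) = C (derivative a) * X ^ n := by
        rw [dy.leibniz, dy_C, dy.leibniz_pow, dy_X, smul_zero, smul_zero, smul_zero, zero_add,
          smul_eq_mul, mul_comm]
      have e3 : ev (x₀, φ.eval 0) (C (derivative a) * X ^ n) =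
          (derivative a).eval (φ.eval 0) * x₀ ^ n := by
        rw [map_mul, map_pow, hev, ev_X]
      rw [← C_mul_X_pow_eq_monomial, e2, e3, map_mul, map_pow, aevalAeval_C, aevalAeval_Y, e1,
        ← C_pow, derivative_mul, derivative_C, mul_zero, add_zero, derivative_comp]
      simp
  have e4 : ∀ q : ℂ[X], q.coeff 1 = (derivative q).eval 0 := by
    intro q
    rw [← coeff_zero_eq_eval_zero, coeff_derivative]
    simp
  rw [← key, e4]

theorem br_eval (x₀ : ℂ) (φ : ℂ[X]) (F : ℂ[X][X]) :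
    (br x₀ φ F).eval 0 = ev (x₀, φ.eval 0) F := by
  have key : (aeval (0 : ℂ) : ℂ[X] →ₐ[ℂ] ℂ).comp (br x₀ φ) = ev (x₀, φ.eval 0) := by
    refine ext_alg ?_ ?_
    · rw [AlgHom.comp_apply, br_CX, ev_CX]
      simp [aeval_def, eval]
    · rw [AlgHom.comp_apply, br_X, ev_X]
      simp
  rw [← key, AlgHom.comp_apply]
  simp [aeval_def, eval]

end Pool.Agent.Lib.MP_6b2d39_agHal
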