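import Pool.Agent.Lib.MP_6b2d39_agHal.BranchA

/-!
The branch of a curve at a point with `f_y ≠ 0`, as a graph `y = φ (x - x₀)` modulo a power.

* `br x₀ φ F = F (x₀ + x, φ x)`; `loc x₀ φ F = F (x₀ + x, φ x + y)`.

PROOFS. `exists_branch`: induction on `L`: `φ + c X ^ L` with `c = - (coeff of X ^ L in br φ f) / f_y` (for `L ≥ 1`:
`br (φ + c X ^ L) f = br φ f + c X ^ L br φ (dy f)` modulo `X ^ (L + 1)`).
`br_dd`: `d/dx (br F) = br (dx F) + φ' br (dy F)` and the same for `f`, where the left side is divisible by `X ^ L`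
(if `X ^ (L + 1) ∣ br f`): `br (dy f) * d/dx (br F) - br (dd f F) = φ' … = br (dy F) * d/dx (br f)`.
`ord_branch`: `w i = br ((dd f)^[i] F)`; `w (i + 1) = ε (w i)' ` modulo `X ^ L` with `ε (0) ≠ 0` (`br_dd`). If `w 0` has order
`k < L` then `w i` has order `k - i` for `i ≤ k`, so `k` is the first `i` with `w i (0) = ev ((dd f)^[i] F) ≠ 0`, `k = a`; if `X ^ L ∣ w 0`
then `X ^ (L - i) ∣ w i` for `i ≤ L`, contradiction with `w a (0) ≠ 0`, `a < L`.
-/

open Polynomial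

set_option autoImplicit false

namespace Pool.Agent.Lib.MP_6b2d39_agHal

open Pool.Agent.Lib.MP_6b2d39_ag

private theorem bb_ind {P : ℂ[X][X] → Prop} (hc : ∀ c : ℂ, P (C (C c))) (hy : P (C X)) (hx : P X)
    (hadd : ∀ F G, P F → P G → P (F + G)) (hmul : ∀ F G, P F → P G → P (F * G)) :
    ∀ F, P F := by
  have h1 : ∀ q : ℂ[X], P (C q) := by
    intro q
    induction q using Polynomial.induction_on with
    | C c => exact hc c
    | add p q hp hq =>
      rw [C_add]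
      exact hadd _ _ hp hq
    | monomial n c h =>
      rw [pow_succ, ← mul_assoc, C_mul]
      exact hmul _ _ h hy
  intro F
  induction F using Polynomial.induction_on with
  | C q => exact h1 q
  | add p q hp hq => exact hadd _ _ hp hq
  | monomial n q h =>
    rw [pow_succ, ← mul_assoc]
    exact hmul _ _ h hx

private theorem bb_br_X (x₀ : ℂ) (φ : ℂ[X]) : br x₀ φ X = X + C x₀ := by
  simp [br]

private theorem bb_br_CX (x₀ : ℂ) (φ : ℂ[X]) : br x₀ φ (C X) = φ := by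
  simp [br]

private theorem bb_br_CC (x₀ : ℂ) (φ : ℂ[X]) (c : ℂ) : br x₀ φ (C (C c)) = C c := by
  have h : (C (C c) : ℂ[X][X]) = algebraMap ℂ ℂ[X][X] c := rfl
  rw [h, AlgHom.commutes]
  rfl

private theorem bb_dy_CC (c : ℂ) : dy (C (C c)) = 0 := by
  have h : (C (C c) : ℂ[X][X]) = algebraMap ℂ ℂ[X][X] c := rfl
  rw [h, Derivation.map_algebraMap]

private theorem bb_taylor (x₀ : ℂ) (φ δ : ℂ[X]) (F : ℂ[X][X]) :
    δ ^ 2 ∣ br x₀ (φ + δ) F - br x₀ φ F - δ * br x₀ φ (dy F) := by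
  refine bb_ind (P := fun F => δ ^ 2 ∣ br x₀ (φ + δ) F - br x₀ φ F - δ * br x₀ φ (dy F))
    ?_ ?_ ?_ ?_ ?_ F
  · intro c
    rw [bb_br_CC, bb_br_CC, bb_dy_CC, map_zero, mul_zero, sub_self, sub_zero]
    exact dvd_zero _
  · rw [bb_br_CX, bb_br_CX, dy_CX, map_one, mul_one, add_sub_cancel_left, sub_self]
    exact dvd_zero _
  · rw [bb_br_X, bb_br_X, dy_X, map_zero, mul_zero, sub_self, sub_zero]
    exact dvd_zero _
  · intro F G hF hG
    rw [map_add, map_add, map_add, map_add]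
    have h : br x₀ (φ + δ) F + br x₀ (φ + δ) G - (br x₀ φ F + br x₀ φ G) -
        δ * (br x₀ φ (dy F) + br x₀ φ (dy G)) =
        (br x₀ (φ + δ) F - br x₀ φ F - δ * br x₀ φ (dy F)) +
          (br x₀ (φ + δ) G - br x₀ φ G - δ * br x₀ φ (dy G)) := by ring
    rw [h]
    exact dvd_add hF hG
  · intro F G hF hG
    obtain ⟨a, ha⟩ := hF
    obtain ⟨b, hb⟩ := hG
    have h1 : br x₀ (φ + δ) F = br x₀ φ F + δ * br x₀ φ (dy F) + δ ^ 2 * a := by
      rw [← ha]
      ring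
    have h2 : br x₀ (φ + δ) G = br x₀ φ G + δ * br x₀ φ (dy G) + δ ^ 2 * b := by
      rw [← hb]
      ring
    rw [map_mul, map_mul, h1, h2, Derivation.leibniz, smul_eq_mul, smul_eq_mul, map_add, map_mul,
      map_mul]
    refine ⟨br x₀ φ F * b + br x₀ φ (dy F) * br x₀ φ (dy G) + δ * br x₀ φ (dy F) * b +
      a * (br x₀ φ G + δ * br x₀ φ (dy G) + δ ^ 2 * b), ?_⟩
    ring

private theorem bb_der (x₀ : ℂ) (φ : ℂ[X]) (F : ℂ[X][X]) :
    derivative (br x₀ φ F) = br x₀ φ (dx F) + derivative φ * br x₀ φ (dy F) := by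
  refine bb_ind (P := fun F => derivative (br x₀ φ F) =
    br x₀ φ (dx F) + derivative φ * br x₀ φ (dy F)) ?_ ?_ ?_ ?_ ?_ F
  · intro c
    rw [bb_br_CC, bb_dy_CC, dx_C, map_zero, mul_zero, add_zero, derivative_C]
  · rw [bb_br_CX, dy_CX, dx_C, map_zero, map_one, mul_one, zero_add]
  · rw [bb_br_X, dy_X, dx_X, map_zero, map_one, mul_zero, add_zero, derivative_add, derivative_X,
      derivative_C, add_zero]
  · intro F G hF hG
    rw [map_add (br x₀ φ), derivative_add, hF, hG, map_add dx, map_add dy, map_add (br x₀ φ),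
      map_add (br x₀ φ)]
    ring
  · intro F G hF hG
    rw [map_mul, derivative_mul, hF, hG, Derivation.leibniz, Derivation.leibniz, smul_eq_mul,
      smul_eq_mul, smul_eq_mul, smul_eq_mul, map_add, map_mul, map_mul, map_add, map_mul, map_mul]
    ring

theorem exists_branch {f : ℂ[X][X]} {x₀ y₀ : ℂ} (h0 : ev (x₀, y₀) f = 0)
    (hy : ev (x₀, y₀) (dy f) ≠ 0) (L : ℕ) : ∃ φ : ℂ[X], φ.eval 0 = y₀ ∧ X ^ L ∣ br x₀ φ f := by
  have h1 : ∀ L : ℕ, ∃ φ : ℂ[X], φ.eval 0 = y₀ ∧ X ^ (L + 1) ∣ br x₀ φ f := by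
    intro L
    induction L with
    | zero =>
      refine ⟨C y₀, eval_C, ?_⟩
      rw [zero_add, pow_one, X_dvd_iff, coeff_zero_eq_eval_zero, br_eval, eval_C]
      exact h0
    | succ L ih =>
      obtain ⟨φ, hφ, h⟩ := ih
      obtain ⟨q, hq⟩ := h
      obtain ⟨u, hu⟩ : ∃ u, u = ev (x₀, y₀) (dy f) := ⟨_, rfl⟩
      have hu0 : u ≠ 0 := by
        rw [hu]
        exact hy
      refine ⟨φ + C (-(q.eval 0 / u)) * X ^ (L + 1), ?_, ?_⟩
      · rw [eval_add, hφ, eval_mul, eval_pow, eval_X, zero_pow (Nat.succ_ne_zero L), mul_zero,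
          add_zero]
      · obtain ⟨r, hr⟩ := bb_taylor x₀ φ (C (-(q.eval 0 / u)) * X ^ (L + 1)) f
        have h2 : br x₀ (φ + C (-(q.eval 0 / u)) * X ^ (L + 1)) f =
            X ^ (L + 1) * (q + C (-(q.eval 0 / u)) * br x₀ φ (dy f)) +
            X ^ (L + 1 + 1) * (X ^ L * (C (-(q.eval 0 / u)) ^ 2 * r)) := by
          have h3 : br x₀ (φ + C (-(q.eval 0 / u)) * X ^ (L + 1)) f = br x₀ φ f +
              (C (-(q.eval 0 / u)) * X ^ (L + 1)) * br x₀ φ (dy f) +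
              (C (-(q.eval 0 / u)) * X ^ (L + 1)) ^ 2 * r := by
            rw [← hr]
            ring
          rw [h3, hq]
          ring
        have h3 : X ∣ q + C (-(q.eval 0 / u)) * br x₀ φ (dy f) := by
          rw [X_dvd_iff, coeff_zero_eq_eval_zero, eval_add, eval_mul, eval_C, br_eval, hφ, ← hu]
          field_simp
          ring
        rw [h2]
        refine dvd_add ?_ (Dvd.intro _ rfl)
        rw [pow_succ]
        exact mul_dvd_mul_left _ h3
  obtain ⟨φ, h2, h3⟩ := h1 L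
  exact ⟨φ, h2, (pow_dvd_pow X (Nat.le_succ L)).trans h3⟩

theorem br_dd {f : ℂ[X][X]} {x₀ : ℂ} {φ : ℂ[X]} {L : ℕ} (h : X ^ (L + 1) ∣ br x₀ φ f)
    (F : ℂ[X][X]) : X ^ L ∣ br x₀ φ (dy f) * derivative (br x₀ φ F) - br x₀ φ (dd f F) := by
  have h1 : X ^ L ∣ derivative (br x₀ φ f) := by
    obtain ⟨q, hq⟩ := h
    rw [hq, derivative_mul, derivative_X_pow, Nat.add_sub_cancel]
    exact ⟨C ((L + 1 : ℕ) : ℂ) * q + X * derivative q, by ring⟩
  have h2 : br x₀ φ (dy f) * derivative (br x₀ φ F) - br x₀ φ (dd f F) =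
      br x₀ φ (dy F) * derivative (br x₀ φ f) := by
    rw [bb_der, bb_der, dd_apply, map_sub, map_mul, map_mul]
    ring
  rw [h2]
  exact Dvd.dvd.mul_left h1 _

end Pool.Agent.Lib.MP_6b2d39_agHal
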