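import Pool.Agent.Lib.MP_6b2d39_agHal.BranchB

/-!
The branch of a curve at a point with `f_y ≠ 0`, as a graph `y = φ (x - x₀)` modulo a power.

* `br x₀ φ F = F (x₀ + x, φ x)`; `loc x₀ φ F = F (x₀ + x, φ x + y)`.

PROOFS. `exists_branch`: induction on `L`: `φ + c X ^ L` with `c = - (coeff of X ^ L in br φ f) / f_y` (for `L ≥ 1`:
`br (φ + c X ^ L) f = br φ f + c X ^ L br φ (dy f)` modulo `X ^ (L + 1)`).
`br_dd`: `d/dx (br F) = br (dx F) + φ' br (dy F)` and the same for `f`, where the left side is divisible by `X ^ L`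
(if `X ^ (L + 1) ∣ br f`): `br (dy f) * d/dx (br F) - br (dd f F) = φ' … = br (dy F) * d/dx (br f)`.
`ord_branch`: `w i = br ((dd f)^[i] F)`; `w (i + 1) = ε (w i)' ` modulo `X ^ L` with `ε (0) ≠ 0` (`br_dd`). If `w 0` has order
`k < L` then `w i` has order `k - i` for `i ≤ k`, so `k` is the first `i` with `w i (0) = ev ((dd f)^[i] F) ≠ 0`, `k = a`; if `X ^ L ∣ w 0`
then `X ^ (L - i) ∣ w i` for `i ≤ L`, contradiction with `w a (0) ≠ 0`, `a < L`.
-/

open Polynomial

set_option autoImplicit false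

namespace Pool.Agent.Lib.MP_6b2d39_agHal

open Pool.Agent.Lib.MP_6b2d39_ag

theorem ord_branch {f : ℂ[X][X]} {x₀ y₀ : ℂ} {φ : ℂ[X]} {L a : ℕ} (hφ : φ.eval 0 = y₀)
    (h : X ^ (L + 1) ∣ br x₀ φ f) (hy : ev (x₀, y₀) (dy f) ≠ 0) (ha : a < L) {F : ℂ[X][X]}
    (h1 : ∀ i < a, ev (x₀, y₀) ((dd f)^[i] F) = 0) (h2 : ev (x₀, y₀) ((dd f)^[a] F) ≠ 0) :
    (∀ i < a, (br x₀ φ F).coeff i = 0) ∧ (br x₀ φ F).coeff a ≠ 0 := by
  have hv : ∀ G : ℂ[X][X], (br x₀ φ G).coeff 0 = ev (x₀, y₀) G := fun G => by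
    rw [coeff_zero_eq_eval_zero, br_eval, hφ]
  induction a generalizing F with
  | zero => exact ⟨fun i hi => absurd hi (Nat.not_lt_zero i), by rw [hv]; exact h2⟩
  | succ a ih =>
    obtain ⟨i1, i2⟩ := ih (F := dd f F) (by omega)
      (fun i hi => by rw [← Function.iterate_succ_apply]; exact h1 (i + 1) (by omega))
      (by rw [← Function.iterate_succ_apply]; exact h2)
    have hd := br_dd h F
    have he : ¬ (X : ℂ[X]) ∣ br x₀ φ (dy f) := fun hx => hy (by
      rw [← hv]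
      exact X_dvd_iff.1 hx)
    have hG : (X : ℂ[X]) ^ a ∣ br x₀ φ (dd f F) := X_pow_dvd_iff.2 i1
    have hm : (X : ℂ[X]) ^ a ∣ br x₀ φ (dy f) * derivative (br x₀ φ F) := by
      have := dvd_add ((pow_dvd_pow X (by omega : a ≤ L)).trans hd) hG
      rwa [sub_add_cancel] at this
    obtain ⟨E, hE⟩ := prime_X.pow_dvd_of_dvd_mul_left a he hm
    have hc : (br x₀ φ (dy f) * derivative (br x₀ φ F) - br x₀ φ (dd f F)).coeff a = 0 :=
      X_pow_dvd_iff.1 hd a (by omega)
    have hE0 : E.coeff 0 ≠ 0 := by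
      intro h0
      rw [coeff_sub, hE, mul_left_comm, coeff_X_pow_mul', if_pos le_rfl, Nat.sub_self,
        mul_coeff_zero, h0, mul_zero, zero_sub, neg_eq_zero] at hc
      exact i2 hc
    have hD : ∀ i, (derivative (br x₀ φ F)).coeff i = (br x₀ φ F).coeff (i + 1) * (i + 1) :=
      fun i => coeff_derivative _ _
    refine ⟨fun i hi => ?_, fun h0 => hE0 ?_⟩
    · rcases i with _ | i
      · rw [hv]
        exact h1 0 (by omega)
      · have := hD i
        rw [hE, coeff_X_pow_mul', if_neg (by omega)] at this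
        rcases mul_eq_zero.1 this.symm with h3 | h3
        · exact h3
        · exact absurd h3 (Nat.cast_add_one_ne_zero i)
    · have := hD a
      rwa [hE, coeff_X_pow_mul', if_pos le_rfl, Nat.sub_self, h0, zero_mul] at this

end Pool.Agent.Lib.MP_6b2d39_agHal
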