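import Mathlib

/-!
Enumeration of nine elements in the order of decreasing multiplicities (`Tuple.sort`).
-/

open Polynomial

set_option autoImplicit false

namespace Pool.Agent.Lib.MP_6b2d39_agHal

/-- enumeration in the order of decreasing multiplicities (`Tuple.sort`) -/
theorem exists_enum {h : ℕ} (m : Fin h → ℕ) {S : Finset (Fin h)} (hS : S.card = 9) :
    ∃ τ : Fin 9 ↪ Fin h, Antitone (fun i => m (τ i)) ∧ Finset.univ.map τ = S := by
  obtain ⟨e⟩ : Nonempty (Fin 9 ≃ S) := ⟨(S.equivFinOfCardEq hS).symm⟩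
  obtain ⟨f, hf⟩ : ∃ f : Fin 9 → ℕᵒᵈ, f = fun i => OrderDual.toDual (m (e i)) := ⟨_, rfl⟩
  refine ⟨((Tuple.sort f).trans e).toEmbedding.trans (Function.Embedding.subtype _), ?_, ?_⟩
  · intro i j hij
    have h1 := Tuple.monotone_sort f hij
    rw [hf] at h1
    have h2 : m (e (Tuple.sort f j)) ≤ m (e (Tuple.sort f i)) := by
      rw [hf]
      exact h1
    exact h2
  · ext l
    rw [Finset.mem_map]
    constructor
    · rintro ⟨i, -, rfl⟩
      exact (((Tuple.sort f).trans e) i).2
    · intro hl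
      refine ⟨((Tuple.sort f).trans e).symm ⟨l, hl⟩, Finset.mem_univ _, ?_⟩
      change ((((Tuple.sort f).trans e) (((Tuple.sort f).trans e).symm ⟨l, hl⟩)) : Fin h) = l
      rw [Equiv.apply_symm_apply]

end Pool.Agent.Lib.MP_6b2d39_agHal
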