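import Pool.Agent.Lib.MP_6b2d39_agHal.Defs
import Pool.Agent.Lib.MP_6b2d39_agNw.Config

/-!
From the affine chart to `curves`; enumeration of the nine largest multiplicities.

PROOF of `exists_configT`: as `exists_configS` in `Nw/Config.lean`.
-/

open Polynomial

set_option autoImplicit false

namespace Pool.Agent.Lib.MP_6b2d39_agHal

open Pool.Agent.Lib.MP_6b2d39_ag Pool.Agent.Lib.MP_6b2d39_agWin Pool.Agent.Lib.MP_6b2d39_agNw
  Pool.Agent.Lib.MP_6b2d39_agCr

open Pool.Agent.Lib.MP_6b2d39_ag.Rel Pool.Agent.Lib.MP_6b2d39_agArr in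
theorem exists_configT {h d u : ℕ} {m : Fin h → ℕ} (τ : Fin 9 ↪ Fin h) (p : Fin 9 → ℂ × ℂ)
    (x y : Fin h ⊕ Fin u → ℂ)
    (hE : ∀ F ∈ Sp (d + 1) p (fun i => m (τ i)),
      (∀ i ∈ Finset.univ.filter (fun i : Fin h ⊕ Fin u => ∀ l, i ≠ Sum.inl (τ l)),
        Cond (Finset.Icc 1 ((Sum.elim m (fun _ => 1) : Fin h ⊕ Fin u → ℕ) i)) (x i) (y i) F) →
      F = 0) :
    ∃ P₀ : Fin h → Fin 3 → ℂ, Module.finrank ℂ (curves d m P₀) ≤ u := by
  classical
  obtain ⟨x', hx'⟩ : ∃ x' : Fin h → ℂ,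
    x' = Function.extend τ (fun i => (p i).1) (fun l => x (Sum.inl l)) := ⟨_, rfl⟩
  obtain ⟨y', hy'⟩ : ∃ y' : Fin h → ℂ,
    y' = Function.extend τ (fun i => (p i).2) (fun l => y (Sum.inl l)) := ⟨_, rfl⟩
  have hon : ∀ i, x' (τ i) = (p i).1 ∧ y' (τ i) = (p i).2 := fun i => by
    rw [hx', hy', τ.injective.extend_apply, τ.injective.extend_apply]
    exact ⟨rfl, rfl⟩
  have hoff : ∀ l, (∀ i, τ i ≠ l) → x' l = x (Sum.inl l) ∧ y' l = y (Sum.inl l) := fun l hl => by
    have hl' : ¬∃ i, τ i = l := fun ⟨i, hi⟩ => hl i hi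
    rw [hx', hy', Function.extend_apply' _ _ _ hl', Function.extend_apply' _ _ _ hl']
    exact ⟨rfl, rfl⟩
  refine ⟨fun l => ![x' l, y' l, 1], ?_⟩
  let f : curves d m (fun l => ![x' l, y' l, 1]) →ₗ[ℂ] (Fin u → ℂ) :=
    { toFun := fun F k => MvPolynomial.eval ![x (Sum.inr k), y (Sum.inr k), 1] F.1
      map_add' := by intro F G; ext k; simp
      map_smul' := by intro c F; ext k; simp [MvPolynomial.smul_eval] }
  have hf : Function.Injective f := by
    rw [← LinearMap.ker_eq_bot, LinearMap.ker_eq_bot']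
    rintro ⟨F, hF⟩ h0
    obtain ⟨hF1, hF2⟩ := mem_curves.1 hF
    have h1 : dehX F = 0 := by
      apply hE
      · refine ⟨inV_dehX hF1, fun i => ?_⟩
        have h := cond_dehX (hF2 (τ i))
        rw [(hon i).1, (hon i).2] at h
        exact h
      · intro i hi
        rw [Finset.mem_filter] at hi
        rcases i with l | k
        · have hl : ∀ i, τ i ≠ l := fun i h => hi.2 i (congrArg Sum.inl h.symm)
          have h := cond_dehX (hF2 l)
          rw [(hoff l hl).1, (hoff l hl).2] at h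
          exact h
        · have h2 : MvPolynomial.eval ![x (Sum.inr k), y (Sum.inr k), 1] F = 0 := congrFun h0 k
          exact cond_dehX (van_one_iff.2 h2)
    exact Subtype.ext (dehX_eq_zero hF1 h1)
  have h3 := LinearMap.finrank_le_finrank_of_injective hf
  simpa using h3

end Pool.Agent.Lib.MP_6b2d39_agHal
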