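import Pool.Agent.Lib.MP_6b2d39_agHal.Mul

/-!
Light points off a given curve `G = 0`.

PROOF of `kill_off`: `EmpP` gives positions `(x i, y i)`; `G ≠ 0`, so there is a vector `(u, v)` with `G (x i + u, y i + v) ≠ 0`
for every `i` (the product over the finite type `ι` of the translated polynomials is not zero: `tr_injective`, `tr` is an algebra
homomorphism; a nonzero polynomial has a point where it does not vanish). Translate: if `F` has the multiplicities at
`(x i + u, y i + v)` then `tr (u, v) F` has them at `(x i, y i)` (`mult_comp`), `tr` keeps the total degree (`coeff_tr`, or `InV` of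
Taylor expansions), `tr_injective`.
PROOF of `kill_simple`: induction on `U` (or on `finrank V`): if `V ≠ 0` take `F ∈ V`, `F ≠ 0`, and a point with `F * G ≠ 0` there;
`V ⊓ ker` has smaller dimension.
-/

open Polynomial

set_option autoImplicit false

namespace Pool.Agent.Lib.MP_6b2d39_agHal

open Pool.Agent.Lib.MP_6b2d39_ag

private theorem killB_ev (p : ℂ × ℂ) (F : ℂ[X][X]) :
    ev p F = (F.map (evalRingHom p.2)).eval p.1 := by
  have h1 : (ev p).toRingHom = (evalRingHom p.1).comp (mapRingHom (evalRingHom p.2)) := by
    have e1 : ∀ c, ev p (C (C c)) = c := fun c => (ev p).commutes c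
    have e2 : ev p (C X) = p.2 := aevalAeval_X _ _
    have e3 : ev p X = p.1 := aevalAeval_Y _ _
    apply Polynomial.ringHom_ext'
    · apply Polynomial.ringHom_ext'
      · refine RingHom.ext fun c => ?_
        change ev p (C (C c)) = _
        rw [e1]
        simp
      · change ev p (C X) = _
        rw [e2]
        simp
    · change ev p X = _
      rw [e3]
      simp
  exact congrArg (fun f : ℂ[X][X] →+* ℂ => f F) h1

private theorem killB_exists {F : ℂ[X]} (h : F ≠ 0) : ∃ z : ℂ, F.eval z ≠ 0 := by
  by_contra hcon
  push Not at hcon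
  exact h (Polynomial.funext fun z => by rw [hcon z, eval_zero])

private theorem killB_point {F : ℂ[X][X]} (h : F ≠ 0) : ∃ p : ℂ × ℂ, ev p F ≠ 0 := by
  have hF : ∃ i, F.coeff i ≠ 0 := by
    by_contra hcon
    push Not at hcon
    exact h (Polynomial.ext fun i => by rw [hcon i, coeff_zero])
  obtain ⟨i, hi⟩ := hF
  obtain ⟨y, hy⟩ := killB_exists hi
  have h1 : F.map (evalRingHom y) ≠ 0 := by
    intro h0
    apply hy
    have := congrArg (fun g => g.coeff i) h0
    simpa [coeff_map] using this
  obtain ⟨x, hx⟩ := killB_exists h1
  exact ⟨(x, y), by rw [killB_ev]; exact hx⟩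

theorem kill_simple {ι : Type} [Fintype ι] [DecidableEq ι] {V : Submodule ℂ ℂ[X][X]}
    [FiniteDimensional ℂ V] {U : Finset ι} {G : ℂ[X][X]} (hG : G ≠ 0)
    (h : Module.finrank ℂ V ≤ U.card) :
    ∃ x y : ι → ℂ, (∀ i, ev (x i, y i) G ≠ 0) ∧
      ∀ F ∈ V, (∀ i ∈ U, ev (x i, y i) F = 0) → F = 0 := by
  have key : ∀ (U : Finset ι) (V : Submodule ℂ ℂ[X][X]), FiniteDimensional ℂ V →
      Module.finrank ℂ V ≤ U.card → ∃ x y : ι → ℂ, (∀ i, ev (x i, y i) G ≠ 0) ∧
      ∀ F ∈ V, (∀ i ∈ U, ev (x i, y i) F = 0) → F = 0 := by
    intro U
    induction U using Finset.induction_on with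
    | empty =>
      intro V hfd hV
      obtain ⟨p, hp⟩ := killB_point hG
      refine ⟨fun _ => p.1, fun _ => p.2, fun _ => hp, fun F hF _ => ?_⟩
      have h0 : V = ⊥ := Submodule.finrank_eq_zero.1 (by simpa using hV)
      rw [h0] at hF
      exact (Submodule.mem_bot ℂ).1 hF
    | insert i0 U hi0 ih =>
      intro V hfd hV
      by_cases h0 : V = ⊥
      · obtain ⟨p, hp⟩ := killB_point hG
        refine ⟨fun _ => p.1, fun _ => p.2, fun _ => hp, fun F hF _ => ?_⟩
        rw [h0] at hF
        exact (Submodule.mem_bot ℂ).1 hF
      · obtain ⟨F0, hF0, hF0'⟩ := Submodule.exists_mem_ne_zero_of_ne_bot h0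
        obtain ⟨p, hp⟩ := killB_point (mul_ne_zero hF0' hG)
        rw [map_mul] at hp
        have hp1 := left_ne_zero_of_mul hp
        have hp2 := right_ne_zero_of_mul hp
        have hlt : V ⊓ LinearMap.ker (ev p).toLinearMap < V := by
          refine lt_of_le_of_ne inf_le_left fun he => hp1 ?_
          have : F0 ∈ V ⊓ LinearMap.ker (ev p).toLinearMap := by rw [he]; exact hF0
          exact this.2
        have hfin := Submodule.finrank_lt_finrank_of_lt hlt
        rw [Finset.card_insert_of_notMem hi0] at hV
        obtain ⟨x, y, hxy, H⟩ := ih (V ⊓ LinearMap.ker (ev p).toLinearMap)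
          (Submodule.finiteDimensional_inf_left _ _) (by omega)
        refine ⟨Function.update x i0 p.1, Function.update y i0 p.2, ?_, ?_⟩
        · intro i
          by_cases hi : i = i0
          · subst hi
            rw [Function.update_self, Function.update_self]
            exact hp2
          · rw [Function.update_of_ne hi, Function.update_of_ne hi]
            exact hxy i
        · intro F hF hc
          apply H F
          · refine ⟨hF, ?_⟩
            have := hc i0 (Finset.mem_insert_self _ _)
            rw [Function.update_self, Function.update_self] at this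
            exact this
          · intro i hi
            have hne : i ≠ i0 := by rintro rfl; exact hi0 hi
            have := hc i (Finset.mem_insert_of_mem hi)
            rw [Function.update_of_ne hne, Function.update_of_ne hne] at this
            exact this
  exact key U V inferInstance h

end Pool.Agent.Lib.MP_6b2d39_agHal
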