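import Pool.Agent.Lib.MP_6b2d39_agNw.Fill

/-!
Filling of a rectangle and of a triangle (`young_neg`, `young_pos` of stage 1).

PROOFS. Rectangle: `Young μ s (H - 1) H (H - 1) (fun b => if b < H then s else 0)`. Triangle:
`Young μ (n + 1) 0 (n + 1) n (fun b => n + 1 - b)`; `∑_{b < n + 1} (n + 1 - b) = (n + 2).choose 2`.
-/

open Polynomial

set_option autoImplicit false

namespace Pool.Agent.Lib.MP_6b2d39_agHal

open Pool.Agent.Lib.MP_6b2d39_ag Pool.Agent.Lib.MP_6b2d39_agWin Pool.Agent.Lib.MP_6b2d39_agNw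

variable {ι : Type} [Fintype ι] [DecidableEq ι] {m : ι → ℕ} {J U : Finset ι} {μ s H n : ℕ}

omit [Fintype ι] [DecidableEq ι] in
private theorem rect_empty (H : ℕ) (m : ι → ℕ) (K : Finset ι) :
    EmpP (dgm (fun _ => 0) H) m K := by
  refine ⟨fun _ => 1, fun _ => 1, fun _ => one_ne_zero, fun _ => one_ne_zero, fun f hf _ => ?_⟩
  ext a b
  rw [coeff_zero, coeff_zero]
  refine hf a b fun h1 => ?_
  rw [mem_dgm] at h1
  exact absurd h1.2 (Nat.not_lt_zero _)

private theorem rect_young (hs : μ ≤ s) (hs0 : 1 ≤ s) (hH : μ + 1 ≤ H) :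
    Young μ s (H - 1) H (H - 1) (fun b => if b < H then s else 0) where
  hs := hs
  first b hb := if_pos (by omega)
  dec b h1 h2 := by omega
  pos b hb := by simp only [hb, if_true]; exact hs0
  zero b hb := if_neg (by omega)
  slope b h1 h2 := by
    have h3 : b < H := by omega
    simp only [h3, if_true]
    omega
  ht1 := by omega
  htt := le_rfl
  htH := by omega

private theorem rect_dgm : dgm (fun _ => s) H = dgm (fun b => if b < H then s else 0) H := by
  ext p
  rw [mem_dgm, mem_dgm]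
  constructor
  · rintro ⟨h1, h2⟩
    exact ⟨h1, by simp only [h1, if_true]; exact h2⟩
  · rintro ⟨h1, h2⟩
    simp only [h1, if_true] at h2
    exact ⟨h1, h2⟩

private theorem rect_sum : ∑ b ∈ Finset.range H, (if b < H then s else 0) = s * H := by
  rw [Finset.sum_congr rfl fun b hb => if_pos (Finset.mem_range.1 hb), Finset.sum_const,
    Finset.card_range, smul_eq_mul, mul_comm]

private theorem tri_young (hn : μ ≤ n) :
    Young μ (n + 1) 0 (n + 1) n (fun b => n + 1 - b) where
  hs := by omega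
  first b hb := by
    have : b = 0 := by omega
    subst this
    rfl
  dec b h1 h2 := by omega
  pos b hb := by omega
  zero b hb := by omega
  slope b h1 h2 := by omega
  ht1 := by omega
  htt := by omega
  htH := by omega

private theorem tri_sum (n : ℕ) : ∑ b ∈ Finset.range (n + 1), (n + 1 - b) = (n + 2).choose 2 := by
  induction n with
  | zero => rfl
  | succ n ih =>
    rw [Finset.sum_range_succ', show n + 1 + 2 = (n + 2) + 1 by ring, Nat.choose_succ_succ' (n + 2) 1,
      Nat.choose_one_right, ← ih]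
    have h1 : ∑ b ∈ Finset.range (n + 1), (n + 1 + 1 - (b + 1)) =
        ∑ b ∈ Finset.range (n + 1), (n + 1 - b) := Finset.sum_congr rfl fun b _ => by omega
    rw [h1, Nat.sub_zero]
    ring

theorem rect_neg (hs : μ ≤ s) (hH : μ + 1 ≤ H) (hJ : ∀ j ∈ J, m j ≤ μ)
    (hmass : s * H + 3 * μ ^ 2 ≤ mass m J) : EmpP (dgm (fun _ => s) H) m J := by
  rcases Nat.eq_zero_or_pos s with h0 | h0
  · subst h0
    exact rect_empty H m J
  · rw [rect_dgm]
    refine young_neg (rect_young hs h0 hH).diag hJ ?_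
    rw [rect_sum]
    exact hmass

theorem rect_pos (hs : μ ≤ s) (hH : μ + 1 ≤ H) (hJU : Disjoint J U) (hJ : ∀ j ∈ J, m j ≤ μ)
    (hU : ∀ j ∈ U, m j = 1) (hmass : mass m J + 6 * μ ^ 2 ≤ s * H)
    (htot : s * H ≤ mass m J + U.card) : EmpP (dgm (fun _ => s) H) m (J ∪ U) := by
  rcases Nat.eq_zero_or_pos s with h0 | h0
  · subst h0
    exact rect_empty H m (J ∪ U)
  · rw [rect_dgm]
    refine young_pos (rect_young hs h0 hH).diag hJU hJ hU ?_ ?_
    · rw [rect_sum]
      exact hmass
    · rw [rect_sum]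
      exact htot

theorem tri_neg (hn : μ ≤ n) (hJ : ∀ j ∈ J, m j ≤ μ)
    (hmass : (n + 2).choose 2 + 3 * μ ^ 2 ≤ mass m J) :
    EmpP (dgm (fun b => n + 1 - b) (n + 1)) m J := by
  refine young_neg (tri_young hn).diag hJ ?_
  rw [tri_sum]
  exact hmass

end Pool.Agent.Lib.MP_6b2d39_agHal
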