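import Pool.Agent.Lib.MP_6b2d39_agHal.Dia

/-!
Two groups of light points: `K` (off the curve `f = 0`) kills `quo f n W`, `J` kills the diagram.

PROOF. `W₂ = {F ∈ W | F has the multiplicities at (x i, y i), i ∈ K}`. If `f ^ n * H ∈ W₂` then `H ∈ quo f n W` and
`H` has the multiplicities too (`f ^ n` does not vanish at the points: `mult_cancel` with `a = 0`, `mult_one_iff`), so
`H = 0`. `diagram2` gives positions of `J` for `W₂`; use them on `J` and the old ones on `K`.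
-/

open Polynomial

set_option autoImplicit false

namespace Pool.Agent.Lib.MP_6b2d39_agHal

open Pool.Agent.Lib.MP_6b2d39_ag Pool.Agent.Lib.MP_6b2d39_agWin Pool.Agent.Lib.MP_6b2d39_agNw

theorem two_step {ι : Type} [Fintype ι] [DecidableEq ι] {f : ℂ[X][X]} (hf : Irreducible f)
    (h1 : f.natDegree ≠ 0) (h2 : ∃ i, (f.coeff i).natDegree ≠ 0) {W : Submodule ℂ ℂ[X][X]}
    [FiniteDimensional ℂ W] {n : ℕ} {r : ℕ → ℕ}
    (hr : ∀ b < n, Module.finrank ℂ (quo f b W) ≤ r b + Module.finrank ℂ (quo f (b + 1) W))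
    {m : ι → ℕ} {J K : Finset ι} (hJK : Disjoint J K) (hE : EmpP (dgm r n) m J) {x y : ι → ℂ}
    (hx : ∀ i ∈ K, ev (x i, y i) f ≠ 0)
    (hK : ∀ H ∈ quo f n W, (∀ i ∈ K, Cond (Finset.Icc 1 (m i)) (x i) (y i) H) → H = 0) :
    ∃ x y : ι → ℂ, ∀ F ∈ W, (∀ i ∈ J ∪ K, Cond (Finset.Icc 1 (m i)) (x i) (y i) F) → F = 0 := by
  classical
  let W₂ : Submodule ℂ ℂ[X][X] :=
    { carrier := {F | F ∈ W ∧ ∀ i ∈ K, Mult (m i) (x i, y i) F}
      zero_mem' := ⟨W.zero_mem, fun i _ => by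
        rw [mult_iff, map_zero, map_zero]
        exact dvd_zero _⟩
      add_mem' := fun {F G} hF hG =>
        ⟨W.add_mem hF.1 hG.1, fun i hi => mult_add (hF.2 i hi) (hG.2 i hi)⟩
      smul_mem' := fun c F hF => ⟨W.smul_mem c hF.1, fun i hi => mult_smul c (hF.2 i hi)⟩ }
  have hmem : ∀ F, F ∈ W₂ ↔ F ∈ W ∧ ∀ i ∈ K, Mult (m i) (x i, y i) F := fun _ => Iff.rfl
  have h0 : ∀ H, f ^ n * H ∈ W₂ → H = 0 := by
    intro H hH
    rw [hmem] at hH
    refine hK H (mem_quo.2 hH.1) fun i hi => ?_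
    have h3 : ¬ Mult (0 + 1) (x i, y i) f := by
      rw [zero_add, mult_one_iff]
      exact hx i hi
    have h4 : ¬ Mult (0 + 1) (x i, y i) (f ^ n) := by
      have := not_mult_pow h3 n
      rwa [mul_zero] at this
    have h5 : Mult (0 + m i) (x i, y i) (f ^ n * H) := by
      rw [zero_add]
      exact hH.2 i hi
    have h6 : Mult (m i) (x i, y i) H :=
      mult_cancel (a := 0) (b := m i) (p := (x i, y i)) (F := f ^ n) (G := H) h4 h5
    exact h6
  obtain ⟨x', y', h6⟩ := diagram2 hf h1 h2 (W := W) (W₂ := W₂) (fun F hF => ((hmem F).1 hF).1) hr h0 hE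
  refine ⟨fun i => if i ∈ K then x i else x' i, fun i => if i ∈ K then y i else y' i,
    fun F hF h7 => h6 F ((hmem F).2 ⟨hF, fun i hi => ?_⟩) fun i hi => ?_⟩
  · have h8 := h7 i (Finset.mem_union_right J hi)
    simp only [if_pos hi] at h8
    exact h8
  · have h9 : i ∉ K := fun h => (Finset.disjoint_left.1 hJK) hi h
    have h8 := h7 i (Finset.mem_union_left K hi)
    simp only [if_neg h9] at h8
    exact h8

end Pool.Agent.Lib.MP_6b2d39_agHal
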