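import Pool.Agent.Lib.MP_6b2d39_agHal.Halrow
import Pool.Agent.Lib.MP_6b2d39_agHal.Step
import Pool.Agent.Lib.MP_6b2d39_agHal.Kill
import Pool.Agent.Lib.MP_6b2d39_agHal.Rect
import Pool.Agent.Lib.MP_6b2d39_agWin.Split

/-!
Negative virtual dimension.

PROOF of `core_long` (`q` rows, `q ≥ μ + 1`): `split_neg` with `A = N s q + 3 μ²`, `B = (3 μ + 2).choose 2 + 3 μ²`: `J = G₁ ∪ G₂`;
`rect_neg` for `G₁`, `tri_neg` with `n = 3 μ` and `kill_off` for `G₂`; `two_step` with `K = G₂`: `quo G q W = Sp (D' + 1) …` has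
`InV (3 μ + 1)` by `ar_tail` for `D' = d - q (3 N)`, `m i - q N` (`m 8 - q N < N`).
PROOF of `core_neg`: multiplication by `cub ^ (μ N)` maps `Sp (d + 1) m` into `Sp (d + 3 μ N + 1) (m i + μ N)`; `core_long` for
`d + 3 μ N`, `m i + μ N`, `q = m 8 / N + μ`; the mass: `(d + 2).choose 2 ≥ ∑ (m i + 1).choose 2 + N s (m 8 / N)` (`Hal.row`
telescoped, `Hal.finrank_quo`, or `ar_row`), `N s μ ≤ 2 μ² - 2 μ`, `2 (3 μ + 2).choose 2 = 9 μ² + 9 μ + 2`.
-/

open Polynomial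

set_option autoImplicit false

namespace Pool.Agent.Lib.MP_6b2d39_agHal

open Pool.Agent.Lib.MP_6b2d39_ag Pool.Agent.Lib.MP_6b2d39_agWin Pool.Agent.Lib.MP_6b2d39_agNw

variable {ι : Type} [Fintype ι] [DecidableEq ι] {μ s N d q : ℕ} {m : Fin 9 → ℕ} {l : ι → ℕ}
  {J : Finset ι} {t : Fin 9 → ℂ} {G : ℂ[X][X]}

theorem core_long (hG : Hal N t G) (h : Ar μ s N) (hm : Antitone m) (hr : m 0 + m 1 + m 2 ≤ d)
    (hd : 3 * d = ∑ i, m i + s) (hq : μ + 1 ≤ q) (h1 : q * N ≤ m 8) (h2 : m 8 < (q + 1) * N)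
    (hJ : ∀ j ∈ J, l j ≤ μ)
    (hmass : N * s * q + (3 * μ + 2).choose 2 + 7 * μ ^ 2 ≤ mass l J) :
    ∃ x y : ι → ℂ, ∀ F ∈ Sp (d + 1) (fun i => gam (t i)) m,
      (∀ i ∈ J, Cond (Finset.Icc 1 (l i)) (x i) (y i) F) → F = 0 := by
  have h8 : ∀ i, m 8 ≤ m i := fun i => hm (Fin.le_last i)
  have hqi : ∀ i, q * N ≤ m i := fun i => h1.trans (h8 i)
  have hqd : q * (3 * N) ≤ d := by
    have e : q * (3 * N) = q * N + q * N + q * N := by ring
    rw [e]
    exact (Nat.add_le_add (Nat.add_le_add (hqi 0) (hqi 1)) (hqi 2)).trans hr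
  have hA : (N * s * q + 3 * μ ^ 2) + ((3 * μ + 2).choose 2 + 3 * μ ^ 2) + μ ^ 2 ≤ mass l J :=
    le_of_eq_of_le (by ring) hmass
  obtain ⟨G₁, hG₁, hm1, hm2⟩ := split_neg hJ hA
  have hE1 : EmpP (dgm (fun _ => N * s) q) l G₁ :=
    rect_neg h.low hq (fun j hj => hJ j (hG₁ hj)) hm1
  have hE2 : EmpP (dgm (fun b => 3 * μ + 1 - b) (3 * μ + 1)) l (J \ G₁) :=
    tri_neg (by omega) (fun j hj => hJ j (Finset.sdiff_subset hj)) hm2
  obtain ⟨x, y, hxy, hk⟩ := kill_off hG.ne_zero hE2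
  have htail : d - q * (3 * N) ≤ 3 * μ := by
    refine ar_tail (m := fun i => m i - q * N) h (fun i j hij => ?_) ?_ ?_ ?_
    · exact Nat.sub_le_sub_right (hm hij) _
    · have e : q * (3 * N) = q * N + q * N + q * N := by ring
      have h0 := hqi 0
      have h1' := hqi 1
      have h2' := hqi 2
      change m 0 - q * N + (m 1 - q * N) + (m 2 - q * N) ≤ d - q * (3 * N)
      omega
    · have e1 : ∑ i, m i = ∑ i, (m i - q * N) + 9 * (q * N) := by
        have e2 : ∑ i, m i = ∑ i : Fin 9, ((m i - q * N) + q * N) :=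
          Finset.sum_congr rfl fun i _ => (Nat.sub_add_cancel (hqi i)).symm
        rw [e2, Finset.sum_add_distrib, Finset.sum_const, Finset.card_univ, Fintype.card_fin,
          smul_eq_mul]
      have e : q * (3 * N) = q * N + q * N + q * N := by ring
      change 3 * (d - q * (3 * N)) = ∑ i, (m i - q * N) + s
      omega
    · have e : (q + 1) * N = q * N + N := by ring
      change m 8 - q * N < N
      omega
  obtain ⟨x', y', hx'⟩ := two_step (f := G) hG.irr hG.natDegree hG.dep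
    (W := Sp (d + 1) (fun i => gam (t i)) m) (n := q) (r := fun _ => N * s)
    (fun b hb => (hG.row hm hr h.hs hd
      ((Nat.mul_le_mul_right N (Nat.succ_le_of_lt hb)).trans h1)).le)
    (J := G₁) (K := J \ G₁) Finset.disjoint_sdiff hE1 (fun i _ => hxy i) (fun H hH hc => by
      rw [hG.quo_sp hqi (hqd.trans (Nat.le_succ d))] at hH
      exact hk H (inV_mono (by omega) (mem_Sp.1 hH).1) hc)
  refine ⟨x', y', fun F hF hc => hx' F hF fun i hi => hc i ?_⟩
  rw [Finset.union_sdiff_of_subset hG₁] at hi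
  exact hi

end Pool.Agent.Lib.MP_6b2d39_agHal
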