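import Pool.Agent.Lib.MP_6b2d39_agHal.CoreL
import Pool.Agent.Lib.MP_6b2d39_agHal.Res

/-!
Negative virtual dimension.

PROOF of `core_long` (`q` rows, `q ≥ μ + 1`): `split_neg` with `A = N s q + 3 μ²`, `B = (3 μ + 2).choose 2 + 3 μ²`: `J = G₁ ∪ G₂`;
`rect_neg` for `G₁`, `tri_neg` with `n = 3 μ` and `kill_off` for `G₂`; `two_step` with `K = G₂`: `quo G q W = Sp (D' + 1) …` has
`InV (3 μ + 1)` by `ar_tail` for `D' = d - q (3 N)`, `m i - q N` (`m 8 - q N < N`).
PROOF of `core_neg`: multiplication by `cub ^ (μ N)` maps `Sp (d + 1) m` into `Sp (d + 3 μ N + 1) (m i + μ N)`; `core_long` for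
`d + 3 μ N`, `m i + μ N`, `q = m 8 / N + μ`; the mass: `(d + 2).choose 2 ≥ ∑ (m i + 1).choose 2 + N s (m 8 / N)` (`Hal.row`
telescoped, `Hal.finrank_quo`, or `ar_row`), `N s μ ≤ 2 μ² - 2 μ`, `2 (3 μ + 2).choose 2 = 9 μ² + 9 μ + 2`.
-/

open Polynomial

set_option autoImplicit false

namespace Pool.Agent.Lib.MP_6b2d39_agHal

open Pool.Agent.Lib.MP_6b2d39_ag Pool.Agent.Lib.MP_6b2d39_agWin Pool.Agent.Lib.MP_6b2d39_agNw

variable {ι : Type} [Fintype ι] [DecidableEq ι] {μ s N d q : ℕ} {m : Fin 9 → ℕ} {l : ι → ℕ}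
  {J : Finset ι} {t : Fin 9 → ℂ} {G : ℂ[X][X]}

/-- lower bound for the expected dimension -/
theorem chi_low (h : Ar μ s N) (hm : Antitone m) (hr : m 0 + m 1 + m 2 ≤ d)
    (hd : 3 * d = ∑ i, m i + s) (h1 : q * N ≤ m 8) :
    ∑ i, (m i + 1).choose 2 + N * s * q ≤ (d + 2).choose 2 := by
  obtain ⟨t, G, hG⟩ := exists_hal N (by have := h.two; omega)
  have key : ∀ k : ℕ, k * N ≤ m 8 →
      Module.finrank ℂ (quo G 0 (Sp (d + 1) (fun i => gam (t i)) m)) =
        N * s * k + Module.finrank ℂ (quo G k (Sp (d + 1) (fun i => gam (t i)) m)) := by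
    intro k
    induction k with
    | zero =>
      intro _
      rw [mul_zero, zero_add]
    | succ k ih =>
      intro hk
      rw [ih ((Nat.mul_le_mul_right N (Nat.le_succ k)).trans hk), hG.row hm hr h.hs hd hk]
      ring
  have h2 := hG.finrank_quo hm hr h.hs hd (k := 0) (by rw [zero_mul]; exact Nat.zero_le _)
  rw [key q h1] at h2
  simp only [zero_mul, tsub_zero] at h2
  omega

theorem core_neg (hs : 1 ≤ s) (hsμ : s < μ) (hm : Antitone m) (hr : m 0 + m 1 + m 2 ≤ d)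
    (hd : 3 * d = ∑ i, m i + s) (h8 : μ < m 8) (hJ : ∀ j ∈ J, l j ≤ μ)
    (hmass : (d + 2).choose 2 + 15 * μ ^ 2 ≤ ∑ i, (m i + 1).choose 2 + mass l J) :
    ∃ (p : Fin 9 → ℂ × ℂ) (x y : ι → ℂ), ∀ F ∈ Sp (d + 1) p m,
      (∀ i ∈ J, Cond (Finset.Icc 1 (l i)) (x i) (y i) F) → F = 0 := by
  obtain ⟨N, hN⟩ := exists_ar hs hsμ
  have hN2 := hN.two
  have hNμ : N ≤ μ := by
    have := hN.le
    omega
  obtain ⟨t, G, hG⟩ := exists_hal N (by omega)
  obtain ⟨k, hk⟩ : ∃ k, k = μ * N := ⟨_, rfl⟩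
  obtain ⟨q, hq⟩ : ∃ q, q = m 8 / N := ⟨_, rfl⟩
  have hN0 : 0 < N := by omega
  have hq1 : 1 ≤ q := by
    rw [hq, Nat.le_div_iff_mul_le hN0]
    omega
  have hq2 : q * N ≤ m 8 := by
    rw [hq]
    exact Nat.div_mul_le_self _ _
  have hq3 : m 8 < (q + 1) * N := by
    rw [hq]
    exact Nat.lt_mul_of_div_lt (Nat.lt_succ_self _) hN0
  have hχ := chi_low hN hm hr hd hq2
  have hNs : N * s * μ ≤ 2 * μ ^ 2 - 2 * μ := by
    have h1 := hN.upp
    have h2 : N * s ≤ 2 * μ - 2 := by omega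
    have h3 := Nat.mul_le_mul_right μ h2
    refine h3.trans (le_of_eq ?_)
    rw [Nat.sub_mul]
    ring_nf
  have hch : 2 * (3 * μ + 2).choose 2 = 9 * μ ^ 2 + 9 * μ + 2 := by
    rw [Nat.choose_two_right, Nat.mul_div_cancel']
    · have h2 : 3 * μ + 2 - 1 = 3 * μ + 1 := by omega
      rw [h2]
      ring
    · rw [mul_comm]
      have h2 := Nat.even_mul_pred_self (3 * μ + 2)
      rw [mul_comm] at h2
      exact h2.two_dvd
  have hsq : 5 * μ + 2 ≤ 3 * μ ^ 2 := by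
    have h2 : 2 ≤ μ := by omega
    nlinarith
  have hle : 2 * μ ≤ 2 * μ ^ 2 := by
    rw [pow_two]
    exact Nat.mul_le_mul_left 2 (Nat.le_mul_self μ)
  have hmass' : N * s * (q + μ) + (3 * μ + 2).choose 2 + 7 * μ ^ 2 ≤ mass l J := by
    rw [mul_add]
    omega
  obtain ⟨x, y, hxy⟩ := core_long (d := d + 3 * k) (m := fun i => m i + k) (q := q + μ) hG hN
    (fun i j hij => Nat.add_le_add_right (hm hij) k) (by omega)
    (by
      rw [Finset.sum_add_distrib, Finset.sum_const, Finset.card_univ, Fintype.card_fin,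
        smul_eq_mul]
      omega)
    (by omega) (by
      rw [add_mul, hk]
      omega)
    (by
      rw [hk, show (q + μ + 1) * N = (q + 1) * N + μ * N by ring]
      omega) hJ hmass'
  refine ⟨fun i => gam (t i), x, y, fun F hF hJF => ?_⟩
  rw [mem_Sp] at hF
  have hz : cub ^ k * F = 0 := by
    refine hxy (cub ^ k * F) ?_ fun i hi => ?_
    · rw [mem_Sp]
      refine ⟨?_, fun i => ?_⟩
      · have h1 := inV_mul (inV_pow inV_cub k) hF.1
        refine inV_mono ?_ h1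
        omega
      · have h1 := mult_mul (mult_pow (mult_cub (t i)) k) (hF.2 i)
        refine mult_anti ?_ h1
        omega
    · exact mult_mul_left (p := (x i, y i)) (hJF i hi) (cub ^ k)
  exact (mul_eq_zero.1 hz).resolve_left (pow_ne_zero k cub_ne_zero)

end Pool.Agent.Lib.MP_6b2d39_agHal
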