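import Pool.Agent.Lib.MP_6b2d39_agHal.Halrow
import Pool.Agent.Lib.MP_6b2d39_agHal.Step
import Pool.Agent.Lib.MP_6b2d39_agHal.Kill
import Pool.Agent.Lib.MP_6b2d39_agHal.Rect

/-!
Positive virtual dimension.

PROOF. `q = m 8 / N`, `W = Sp (d + 1) m`, `finrank W = (d + 2).choose 2 - ∑ … = N s q + c'` (`Hal.row` telescoped), where
`c' = finrank (quo G q W) ≤ μ²` (`Hal.finrank_quo`, `ar_chi` for `d - q (3 N)`, `m i - q N`). So `mass l J + 6 μ² ≤ N s q`, and
`N s ≤ 2 μ - 2` gives `q ≥ 3 μ ≥ μ + 1`. `U₁ ⊆ U` with `U₁.card = N s q - mass l J`, `U₂ = U \ U₁` with `U₂.card ≥ c'`. `rect_pos` for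
`J ∪ U₁`; `kill_simple` for `U₂` and `quo G q W`; `two_step` (`mult_one_iff`).
-/

open Polynomial

set_option autoImplicit false

namespace Pool.Agent.Lib.MP_6b2d39_agHal

open Pool.Agent.Lib.MP_6b2d39_ag Pool.Agent.Lib.MP_6b2d39_agWin Pool.Agent.Lib.MP_6b2d39_agNw

variable {ι : Type} [Fintype ι] [DecidableEq ι] {μ s d : ℕ} {m : Fin 9 → ℕ} {l : ι → ℕ}
  {J U : Finset ι}

theorem core_pos (hs : 1 ≤ s) (hsμ : s < μ) (hm : Antitone m) (hr : m 0 + m 1 + m 2 ≤ d)
    (hd : 3 * d = ∑ i, m i + s) (h8 : μ < m 8) (hJU : Disjoint J U) (hJ : ∀ j ∈ J, l j ≤ μ)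
    (hU : ∀ j ∈ U, l j = 1)
    (hmass : mass l J + ∑ i, (m i + 1).choose 2 + 7 * μ ^ 2 ≤ (d + 2).choose 2)
    (htot : (d + 2).choose 2 ≤ ∑ i, (m i + 1).choose 2 + mass l J + U.card) :
    ∃ (p : Fin 9 → ℂ × ℂ) (x y : ι → ℂ), ∀ F ∈ Sp (d + 1) p m,
      (∀ i ∈ J ∪ U, Cond (Finset.Icc 1 (l i)) (x i) (y i) F) → F = 0 := by
  obtain ⟨N, hN⟩ := exists_ar hs hsμ
  have hN2 := hN.two
  obtain ⟨t, G, hG⟩ := exists_hal N (by omega)
  obtain ⟨q, hq⟩ : ∃ q, q = m 8 / N := ⟨_, rfl⟩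
  have hN0 : 0 < N := by omega
  have hq2 : q * N ≤ m 8 := by
    rw [hq]
    exact Nat.div_mul_le_self _ _
  have hq3 : m 8 < (q + 1) * N := by
    rw [hq]
    exact Nat.lt_mul_of_div_lt (Nat.lt_succ_self _) hN0
  have hqi : ∀ i, q * N ≤ m i := fun i => hq2.trans (hm (Fin.le_last i))
  have e3 : q * (3 * N) = q * N + q * N + q * N := by ring
  have hqd : q * (3 * N) ≤ d := by
    rw [e3]
    exact (Nat.add_le_add (Nat.add_le_add (hqi 0) (hqi 1)) (hqi 2)).trans hr
  -- the telescope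
  have key : ∀ k : ℕ, k * N ≤ m 8 →
      Module.finrank ℂ (quo G 0 (Sp (d + 1) (fun i => gam (t i)) m)) =
        N * s * k + Module.finrank ℂ (quo G k (Sp (d + 1) (fun i => gam (t i)) m)) := by
    intro k
    induction k with
    | zero =>
      intro _
      rw [mul_zero, zero_add]
    | succ k ih =>
      intro hk
      rw [ih ((Nat.mul_le_mul_right N (Nat.le_succ k)).trans hk), hG.row hm hr hN.hs hd hk]
      ring
  have h2 := hG.finrank_quo hm hr hN.hs hd (k := 0) (by rw [zero_mul]; exact Nat.zero_le _)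
  rw [key q hq2] at h2
  simp only [zero_mul, tsub_zero] at h2
  have h3 := hG.finrank_quo hm hr hN.hs hd (k := q) hq2
  have h4 : (d - q * (3 * N) + 2).choose 2 ≤ ∑ i, (m i - q * N + 1).choose 2 + μ ^ 2 := by
    refine ar_chi (m := fun i => m i - q * N) hN (fun i j hij => ?_) ?_ ?_ ?_
    · exact Nat.sub_le_sub_right (hm hij) _
    · have h0 := hqi 0
      have h1' := hqi 1
      have h2' := hqi 2
      change m 0 - q * N + (m 1 - q * N) + (m 2 - q * N) ≤ d - q * (3 * N)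
      omega
    · have e1 : ∑ i, m i = ∑ i, (m i - q * N) + 9 * (q * N) := by
        have e2 : ∑ i, m i = ∑ i : Fin 9, ((m i - q * N) + q * N) :=
          Finset.sum_congr rfl fun i _ => (Nat.sub_add_cancel (hqi i)).symm
        rw [e2, Finset.sum_add_distrib, Finset.sum_const, Finset.card_univ, Fintype.card_fin,
          smul_eq_mul]
      change 3 * (d - q * (3 * N)) = ∑ i, (m i - q * N) + s
      omega
    · have e : (q + 1) * N = q * N + N := by ring
      change m 8 - q * N < N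
      omega
  obtain ⟨c, hc⟩ : ∃ c, c = Module.finrank ℂ (quo G q (Sp (d + 1) (fun i => gam (t i)) m)) :=
    ⟨_, rfl⟩
  rw [← hc] at h2 h3
  have hc2 : c ≤ μ ^ 2 := by omega
  have hm6 : mass l J + 6 * μ ^ 2 ≤ N * s * q := by omega
  have hq4 : μ + 1 ≤ q := by
    have h5 : N * s ≤ 2 * μ := by
      have := hN.upp
      omega
    have h6 : N * s * q ≤ 2 * μ * q := Nat.mul_le_mul_right q h5
    by_contra hcon
    have h7 : q ≤ μ := by omega
    have h8 : 2 * μ * q ≤ 2 * μ * μ := Nat.mul_le_mul_left _ h7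
    have h9 : 2 * μ * μ = 2 * μ ^ 2 := by ring
    have h10 : 1 ≤ μ ^ 2 := Nat.one_le_pow _ _ (by omega)
    omega
  have hcard : N * s * q - mass l J ≤ U.card := by omega
  obtain ⟨U₁, hU₁, hcU⟩ := Finset.exists_subset_card_eq hcard
  have hcU2 : (U \ U₁).card = U.card - U₁.card := Finset.card_sdiff_of_subset hU₁
  have hE : EmpP (dgm (fun _ => N * s) q) l (J ∪ U₁) :=
    rect_pos hN.low hq4 (Finset.disjoint_of_subset_right hU₁ hJU) hJ
      (fun j hj => hU j (hU₁ hj)) hm6 (by omega)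
  have hfin : FiniteDimensional ℂ (quo G q (Sp (d + 1) (fun i => gam (t i)) m)) :=
    quo_finite hG.ne_zero q _
  obtain ⟨x, y, hxy, hk⟩ := kill_simple (ι := ι) (U := U \ U₁)
    (V := quo G q (Sp (d + 1) (fun i => gam (t i)) m)) (G := G) hG.ne_zero (by omega)
  have hdis : Disjoint (J ∪ U₁) (U \ U₁) := by
    rw [Finset.disjoint_union_left]
    exact ⟨Finset.disjoint_of_subset_right Finset.sdiff_subset hJU, Finset.disjoint_sdiff⟩
  obtain ⟨x', y', hx'⟩ := two_step (f := G) hG.irr hG.natDegree hG.dep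
    (W := Sp (d + 1) (fun i => gam (t i)) m) (n := q) (r := fun _ => N * s)
    (fun b hb => (hG.row hm hr hN.hs hd
      ((Nat.mul_le_mul_right N (Nat.succ_le_of_lt hb)).trans hq2)).le)
    (J := J ∪ U₁) (K := U \ U₁) hdis hE (x := x) (y := y) (fun i _ => hxy i)
    (fun H hH hc => hk H hH fun i hi => by
      have h5 := hc i hi
      rw [hU i (Finset.sdiff_subset hi)] at h5
      exact mult_one_iff.1 h5)
  refine ⟨fun i => gam (t i), x', y', fun F hF hc => hx' F hF fun i hi => hc i ?_⟩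
  rw [Finset.union_assoc, Finset.union_sdiff_of_subset hU₁] at hi
  exact hi

end Pool.Agent.Lib.MP_6b2d39_agHal
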