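import Pool.Agent.Lib.MP_6b2d39_agHal.Pencil
import Pool.Agent.Lib.MP_6b2d39_agHal.Kill
import Pool.Agent.Lib.MP_6b2d39_agHal.Arith

/-!
The class `(3 a; a, …, a)`.

PROOF. `ar_zero`; `exists_tor` with `N = m 0 + 1`; `sp_small` with `M = m 0`; one light point with `1 ≤ l j` off the curve (`kill_simple`
with `V = Sp …`, `U = {j}`, `G = 1`).
-/

open Polynomial

set_option autoImplicit false

namespace Pool.Agent.Lib.MP_6b2d39_agHal

open Pool.Agent.Lib.MP_6b2d39_ag Pool.Agent.Lib.MP_6b2d39_agWin Pool.Agent.Lib.MP_6b2d39_agNw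

theorem core_zero {ι : Type} [Fintype ι] [DecidableEq ι] {d : ℕ} {m : Fin 9 → ℕ} {l : ι → ℕ}
    {J : Finset ι} (hm : Antitone m) (hr : m 0 + m 1 + m 2 ≤ d) (hd : 3 * d = ∑ i, m i)
    (hJ : ∃ j ∈ J, 1 ≤ l j) :
    ∃ (p : Fin 9 → ℂ × ℂ) (x y : ι → ℂ), ∀ F ∈ Sp (d + 1) p m,
      (∀ i ∈ J, Cond (Finset.Icc 1 (l i)) (x i) (y i) F) → F = 0 := by
  obtain ⟨hd1, hm1⟩ := ar_zero hm hr hd
  obtain ⟨j, hjJ, hj⟩ := hJ
  obtain ⟨t, ht⟩ := exists_tor (N := m 0 + 1) (Nat.succ_pos _)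
  obtain ⟨x, y, -, h⟩ := kill_simple (ι := ι) (U := {j})
    (V := Sp (3 * m 0 + 1) (fun i => gam (t i)) (fun _ => m 0)) (G := 1) one_ne_zero
    (by
      rw [Finset.card_singleton]
      exact sp_small ht (Nat.lt_succ_self _))
  refine ⟨fun i => gam (t i), x, y, fun F hF hc => h F ?_ ?_⟩
  · rw [hd1, mem_Sp] at hF
    rw [mem_Sp]
    refine ⟨hF.1, fun i => ?_⟩
    have h1 := hF.2 i
    rwa [hm1 i] at h1
  · intro i hi
    rw [Finset.mem_singleton] at hi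
    subst hi
    exact mult_one_iff.1 (mult_anti hj (hc _ hjJ))

end Pool.Agent.Lib.MP_6b2d39_agHal
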