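import Pool.Agent.Lib.MP_6b2d39_agHal.Wron1

/-!
The constants of the function field of a plane curve: if `R` is a domain over the algebraically
closed field `K` of characteristic `0` which is algebraic over `K[z]` (`z` the image of `X`), and
`D z ≠ 0`, then `b D a = a D b` implies `a = l b` with `l` in `K`.
-/

set_option autoImplicit false

open Polynomial

namespace Pool.Agent.Lib.MP_6b2d39_agHal

variable {K R : Type*} [Field K] [IsAlgClosed K] [CharZero K] [CommRing R] [IsDomain R]
  [Algebra K R]

/-- homogeneous relation of degree `n` between `a` and `b` with coefficients in `K[z]` -/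
def Rl (z a b : R) (n : ℕ) (q : ℕ → K[X]) : Prop :=
  ∑ j ∈ Finset.range (n + 1), aeval z (q j) * (a ^ j * b ^ (n - j)) = 0

omit [IsAlgClosed K] [CharZero K] [IsDomain R] in
private theorem cst_pow {D : Derivation K R R} {a b : R} (hab : b * D a = a * D b) (j : ℕ) :
    b * D (a ^ j) = j * (a ^ j * D b) := by
  induction j with
  | zero => simp
  | succ j ih =>
    have h1 : D (a ^ (j + 1)) = a ^ j * D a + a * D (a ^ j) := by
      rw [pow_succ, D.leibniz, smul_eq_mul, smul_eq_mul]
    have h2 : b * D (a ^ (j + 1)) = a ^ j * (b * D a) + a * (b * D (a ^ j)) := by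
      rw [h1]
      ring
    rw [h2, ih, hab]
    push_cast
    ring

omit [IsAlgClosed K] [CharZero K] [IsDomain R] in
private theorem cst_mon {D : Derivation K R R} {a b : R} (hab : b * D a = a * D b) (j k : ℕ) :
    b * D (a ^ j * b ^ k) = ((j + k : ℕ) : R) * (a ^ j * b ^ k * D b) := by
  have h1 : b * D (a ^ j * b ^ k) = a ^ j * (b * D (b ^ k)) + b ^ k * (b * D (a ^ j)) := by
    rw [D.leibniz, smul_eq_mul, smul_eq_mul]
    ring
  rw [h1, cst_pow hab, cst_pow (a := b) (b := b) rfl]
  push_cast
  ring

theorem rl_deriv {D : Derivation K R R} {z a b : R} (hz : D z ≠ 0) (hb : b ≠ 0)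
    (hab : b * D a = a * D b) {n : ℕ} {q : ℕ → K[X]} (h : Rl z a b n q) :
    Rl z a b n fun j => derivative (q j) := by
  unfold Rl at h ⊢
  have h1 : b * D (∑ j ∈ Finset.range (n + 1), aeval z (q j) * (a ^ j * b ^ (n - j))) = 0 := by
    rw [h, map_zero, mul_zero]
  have h2 : ∀ j ∈ Finset.range (n + 1), b * D (aeval z (q j) * (a ^ j * b ^ (n - j))) =
      (n : R) * D b * (aeval z (q j) * (a ^ j * b ^ (n - j))) +
        b * D z * (aeval z (derivative (q j)) * (a ^ j * b ^ (n - j))) := by
    intro j hj
    have hjn : j + (n - j) = n := by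
      have := Finset.mem_range.1 hj
      omega
    have h3 := cst_mon hab j (n - j)
    rw [hjn] at h3
    have h4 : b * D (aeval z (q j) * (a ^ j * b ^ (n - j))) =
        aeval z (q j) * (b * D (a ^ j * b ^ (n - j))) +
          b * (a ^ j * b ^ (n - j)) * D (aeval z (q j)) := by
      rw [D.leibniz, smul_eq_mul, smul_eq_mul]
      ring
    rw [h4, h3, D.map_aeval, smul_eq_mul]
    ring
  rw [map_sum, Finset.mul_sum, Finset.sum_congr rfl h2, Finset.sum_add_distrib, ← Finset.mul_sum,
    ← Finset.mul_sum, h, mul_zero, zero_add] at h1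
  exact (mul_eq_zero.1 h1).resolve_left (mul_ne_zero hb hz)

/-- a relation with constant coefficients -/
theorem rl_const {z a b : R} (hb : b ≠ 0) {n : ℕ} {q : ℕ → K[X]} (h : Rl z a b n q)
    (hq : ∃ j ≤ n, q j ≠ 0) (hc : ∀ j ≤ n, derivative (q j) = 0) :
    ∃ c : K, a = algebraMap K R c * b := by
  have hqC : ∀ j ≤ n, q j = C ((q j).coeff 0) := fun j hj =>
    eq_C_of_natDegree_eq_zero ((derivative_eq_zero.1 (hc j hj)))
  let F := FractionRing R
  have hinj : Function.Injective (algebraMap R F) := IsFractionRing.injective R F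
  have hb' : algebraMap R F b ≠ 0 := fun h0 => hb (hinj (by rw [h0, map_zero]))
  let x : F := algebraMap R F a / algebraMap R F b
  have hxb : x * algebraMap R F b = algebraMap R F a := div_mul_cancel₀ _ hb'
  let p : K[X] := ∑ j ∈ Finset.range (n + 1), monomial j ((q j).coeff 0)
  have hp0 : p ≠ 0 := by
    obtain ⟨j, hj, hqj⟩ := hq
    intro hp
    apply hqj
    have h1 : p.coeff j = (q j).coeff 0 := by
      simp only [p, finsetSum_coeff, coeff_monomial]
      rw [Finset.sum_ite_eq' (Finset.range (n + 1)) j, if_pos (Finset.mem_range.2 (by omega))]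
    rw [hqC j hj, ← h1, hp, coeff_zero, map_zero]
  have hpx : aeval x p = 0 := by
    have h1 : algebraMap R F b ^ n * aeval x p = 0 := by
      have h2 : algebraMap R F (∑ j ∈ Finset.range (n + 1),
          aeval z (q j) * (a ^ j * b ^ (n - j))) = 0 := by
        rw [h, map_zero]
      rw [← h2]
      simp only [p]
      rw [map_sum, map_sum, Finset.mul_sum]
      refine Finset.sum_congr rfl fun j hj => ?_
      have hjn : j ≤ n := by
        have := Finset.mem_range.1 hj
        omega
      have h3 : aeval z (q j) = algebraMap K R ((q j).coeff 0) := by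
        conv_lhs => rw [hqC j hjn]
        rw [aeval_C]
      have h4 : algebraMap R F b ^ n = algebraMap R F b ^ j * algebraMap R F b ^ (n - j) := by
        rw [← pow_add]
        congr 1
        omega
      rw [aeval_monomial, h3, map_mul, map_mul, map_pow, map_pow, h4, ← hxb, mul_pow,
        ← IsScalarTower.algebraMap_apply K R F]
      ring
    exact (mul_eq_zero.1 h1).resolve_left (pow_ne_zero n hb')
  have halg : IsAlgebraic K x := ⟨p, hp0, hpx⟩
  have hint : IsIntegral K x := halg.isIntegral
  obtain ⟨c, hcx⟩ := minpoly.mem_range_of_degree_eq_one K x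
    (IsAlgClosed.degree_eq_one_of_irreducible K (minpoly.irreducible hint))
  refine ⟨c, hinj ?_⟩
  rw [map_mul, ← IsScalarTower.algebraMap_apply K R F, hcx, hxb]

theorem cst_of_rl {D : Derivation K R R} {z : R} (hz : D z ≠ 0)
    (h : ∀ a b : R, b ≠ 0 → ∃ (n : ℕ) (q : ℕ → K[X]), Rl z a b n q ∧ ∃ j ≤ n, q j ≠ 0) :
    Cst D := by
  intro a b hb hab
  obtain ⟨n, q, hr, hq⟩ := h a b hb
  have key : ∀ (N n : ℕ) (q : ℕ → K[X]), Rl z a b n q → (∃ j ≤ n, q j ≠ 0) →
      ∑ j ∈ Finset.range (n + 1), (q j).natDegree ≤ N → ∃ c : K, a = algebraMap K R c * b := by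
    intro N
    induction N with
    | zero =>
      intro n q hr hq hN
      refine rl_const hb hr hq fun j hj => ?_
      have h1 := Finset.sum_eq_zero_iff.1 (Nat.le_zero.1 hN) j (Finset.mem_range.2 (by omega))
      rw [eq_C_of_natDegree_eq_zero h1, derivative_C]
    | succ N ih =>
      intro n q hr hq hN
      by_cases hc : ∀ j ≤ n, derivative (q j) = 0
      · exact rl_const hb hr hq hc
      · push Not at hc
        obtain ⟨j, hj, hdj⟩ := hc
        refine ih n (fun j => derivative (q j)) (rl_deriv hz hb hab hr) ⟨j, hj, hdj⟩ ?_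
        have h1 : ∑ j ∈ Finset.range (n + 1), (derivative (q j)).natDegree <
            ∑ j ∈ Finset.range (n + 1), (q j).natDegree := by
          refine Finset.sum_lt_sum (fun i _ => ?_) ⟨j, Finset.mem_range.2 (by omega), ?_⟩
          · exact (natDegree_derivative_le _).trans (Nat.sub_le _ _)
          · refine natDegree_derivative_lt fun h0 => hdj ?_
            rw [eq_C_of_natDegree_eq_zero h0, derivative_C]
        omega
  exact key _ n q hr hq le_rfl

end Pool.Agent.Lib.MP_6b2d39_agHal
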