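import Pool.Agent.Lib.MP_6b2d39_agHal.Defs

/-!
The derivation `f_y ∂_x - f_x ∂_y`.
-/

open Polynomial

set_option autoImplicit false

namespace Pool.Agent.Lib.MP_6b2d39_agHal

open Pool.Agent.Lib.MP_6b2d39_ag

/-- partial derivative with respect to the inner variable `y` -/
noncomputable def dy : Derivation ℂ ℂ[X][X] ℂ[X][X] where
  toFun := fun F => (Polynomial.Bivariate.equivMvPolynomial ℂ).symm
    (MvPolynomial.pderiv 0 (Polynomial.Bivariate.equivMvPolynomial ℂ F))
  map_add' := fun a b => by simp
  map_smul' := fun c a => by simp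
  map_one_eq_zero' := by simp
  leibniz' := fun a b => by simp

/-- partial derivative with respect to the outer variable `x` -/
noncomputable def dx : Derivation ℂ ℂ[X][X] ℂ[X][X] where
  toFun := fun F => derivative F
  map_add' := fun a b => by simp
  map_smul' := fun c a => by simp
  map_one_eq_zero' := by simp
  leibniz' := fun a b => by simp [mul_comm, add_comm]

theorem dx_apply (F : ℂ[X][X]) : dx F = derivative F := rfl

theorem dx_X : dx X = 1 := by
  rw [dx_apply, derivative_X]

theorem dx_C (q : ℂ[X]) : dx (C q) = 0 := by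
  rw [dx_apply, derivative_C]

theorem dy_X : dy X = 0 := by
  simp [dy]

theorem dy_CX : dy (C X) = 1 := by
  simp [dy]

/-- the Hamiltonian derivation of `f` -/
noncomputable def dd (f : ℂ[X][X]) : Derivation ℂ ℂ[X][X] ℂ[X][X] := (dy f) • dx - (dx f) • dy

theorem dd_apply (f F : ℂ[X][X]) : dd f F = dy f * dx F - dx f * dy F := by
  simp [dd]

theorem dd_self (f : ℂ[X][X]) : dd f f = 0 := by
  rw [dd_apply]
  ring

theorem dd_mul_self (f g : ℂ[X][X]) : dd f (f * g) = f * dd f g := by
  rw [(dd f).leibniz, dd_self, smul_zero, add_zero, smul_eq_mul]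

end Pool.Agent.Lib.MP_6b2d39_agHal
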