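import Pool.Agent.Lib.MP_6b2d39_agWin.Emp
import Pool.Agent.Lib.MP_6b2d39_agWin.Lin
import Pool.Agent.Lib.MP_6b2d39_ag.Deform
import Pool.Agent.Lib.MP_6b2d39_ag.ThickStep

/-!
Polynomials in `x` (outer variable) and `y` (inner variable): multiplicity at a point, total degree,
systems with nine points, the restriction to the nodal cubic `y ^ 2 = x ^ 3 + x ^ 2`.
-/

open Polynomial

set_option autoImplicit false

namespace Pool.Agent.Lib.MP_6b2d39_agHal

open Pool.Agent.Lib.MP_6b2d39_ag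

/-- `F` has multiplicity at least `n` at `p` -/
def Mult (n : ℕ) (p : ℂ × ℂ) (F : ℂ[X][X]) : Prop := Cond (Finset.Icc 1 n) p.1 p.2 F

/-- value at a point -/
noncomputable def ev (p : ℂ × ℂ) : ℂ[X][X] →ₐ[ℂ] ℂ := aevalAeval p.2 p.1

/-- the expansion in homogeneous parts: `x ↦ x T`, `y ↦ y T` (`T` is the outermost variable) -/
noncomputable def tau : ℂ[X][X] →ₐ[ℂ] ℂ[X][X][X] :=
  aevalAeval (A := ℂ[X][X][X]) (C (C X) * X) (C X * X)

/-- translation of the point `p` to the origin -/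
noncomputable def tr (p : ℂ × ℂ) : ℂ[X][X] →ₐ[ℂ] ℂ[X][X] :=
  aevalAeval (C (X + C p.2)) (X + C (C p.1))

/-- the nodal cubic -/
noncomputable def cub : ℂ[X][X] := X ^ 3 + X ^ 2 - C (X ^ 2)

/-- parametrisation of the nodal cubic -/
def gam (t : ℂ) : ℂ × ℂ := (t ^ 2 - 1, t ^ 3 - t)

/-- restriction to the nodal cubic -/
noncomputable def res : ℂ[X][X] →ₐ[ℂ] ℂ[X] := aevalAeval (X ^ 3 - X) (X ^ 2 - 1)

theorem smul_eq (c : ℂ) (F : ℂ[X][X]) : c • F = C (C c) * F := by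
  ext a b
  rw [coeff_smul, coeff_smul, coeff_C_mul, coeff_C_mul, smul_eq_mul]

/-- Polynomials of total degree less than `n` with multiplicity at least `m i` at `p i`. -/
def Sp {ι : Type} (n : ℕ) (p : ι → ℂ × ℂ) (m : ι → ℕ) : Submodule ℂ ℂ[X][X] where
  carrier := {F | InV n F ∧ ∀ i, Mult (m i) (p i) F}
  zero_mem' := by
    refine ⟨fun a b _ => by simp, fun i a => ?_⟩
    simp
  add_mem' := by
    rintro F G ⟨hF, hF'⟩ ⟨hG, hG'⟩
    refine ⟨fun a b h => ?_, fun i a => ?_⟩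
    · rw [coeff_add, coeff_add, hF a b h, hG a b h, add_zero]
    · rw [map_add, coeff_add]
      exact dvd_add (hF' i a) (hG' i a)
  smul_mem' := by
    rintro c F ⟨hF, hF'⟩
    rw [smul_eq]
    exact ⟨hF.C_mul c, fun i => (hF' i).C_mul c⟩

theorem mem_Sp {ι : Type} {n : ℕ} {p : ι → ℂ × ℂ} {m : ι → ℕ} {F : ℂ[X][X]} :
    F ∈ Sp n p m ↔ InV n F ∧ ∀ i, Mult (m i) (p i) F := Iff.rfl

end Pool.Agent.Lib.MP_6b2d39_agHal
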