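import Pool.Agent.Lib.MP_6b2d39_agHal.Germ
import Pool.Agent.Lib.MP_6b2d39_agNw.Core
import Pool.Agent.Lib.MP_6b2d39_agNw.Defs

/-!
The diagram lemma for an irreducible curve.

PROOF of `diagram`. `V b = quo f b W`; `V b ⊓ mulF f` is the image of `V (b + 1)` under multiplication by `f`, so
`ρ b = finrank (V b) - finrank (V (b + 1)) ≤ r b` elements `h (b, a)`, `a < ρ b`, of `exists_germ`. Take `K` larger than all
`finrank (V b)`, `L = K + 1`. `G (a, b) = loc (f ^ b * h (b, a))` has the initial monomial `x ^ a y ^ b` for the weights `(1, K)`: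
`loc f = c y + (weight > K)`, `loc h = c' x ^ a + (weight > a)` (`coeff_loc`). `core_points` for `A = dgm ρ n ⊆ dgm r n` (EmpP is
monotone: a polynomial supported on `A` is supported on the larger set) gives `(x i, y i)`; use the points
`(x i + x₀, y i + φ (x i))` (`mult_comp`). The `f ^ b * h (b, a)` are linearly independent (different initial monomials) and
their number is `∑_{b < n} ρ b = finrank W` (`V 0 = W`, `V n = 0`), so they span `W`.
PROOF of `diagram2`: `quo f b W₂ / f quo f (b + 1) W₂` is contained in `quo f b W / f quo f (b + 1) W`, so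
`finrank (quo f b W₂) + finrank (quo f (b + 1) W) ≤ finrank (quo f b W) + finrank (quo f (b + 1) W₂)`
(`Submodule.finrank_sup_add_finrank_inf_eq` for `quo f b W₂` and `V (b + 1)` embedded by `f`); `diagram` for `W₂`.
-/

open Polynomial

set_option autoImplicit false

namespace Pool.Agent.Lib.MP_6b2d39_agHal

open Pool.Agent.Lib.MP_6b2d39_ag Pool.Agent.Lib.MP_6b2d39_agWin Pool.Agent.Lib.MP_6b2d39_agNw

/-- the polynomials `H` with `f ^ b * H ∈ W` -/
noncomputable def quo (f : ℂ[X][X]) (b : ℕ) (W : Submodule ℂ ℂ[X][X]) : Submodule ℂ ℂ[X][X] :=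
  W.comap (LinearMap.mulLeft ℂ (f ^ b))

theorem mem_quo {f : ℂ[X][X]} {b : ℕ} {W : Submodule ℂ ℂ[X][X]} {H : ℂ[X][X]} :
    H ∈ quo f b W ↔ f ^ b * H ∈ W := Iff.rfl

theorem quo_finite {f : ℂ[X][X]} (hf : f ≠ 0) (b : ℕ) (W : Submodule ℂ ℂ[X][X])
    [FiniteDimensional ℂ W] : FiniteDimensional ℂ (quo f b W) := by
  have hinj : Function.Injective (LinearMap.mulLeft ℂ (f ^ b)) :=
    fun H G h => mul_left_cancel₀ (pow_ne_zero b hf) h
  have h1 : (quo f b W).map (LinearMap.mulLeft ℂ (f ^ b)) ≤ W := by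
    rintro _ ⟨H, hH, rfl⟩
    exact hH
  have : FiniteDimensional ℂ ((quo f b W).map (LinearMap.mulLeft ℂ (f ^ b))) :=
    Submodule.finiteDimensional_of_le h1
  exact Module.Finite.equiv (Submodule.equivMapOfInjective _ hinj (quo f b W)).symm

/-- `quo f b W ⊓ mulF f` is `quo f (b + 1) W` times `f` -/
theorem finrank_quo_mulF {f : ℂ[X][X]} (hf : f ≠ 0) (b : ℕ) (W : Submodule ℂ ℂ[X][X])
    [FiniteDimensional ℂ W] :
    Module.finrank ℂ ↥(quo f b W ⊓ mulF f) = Module.finrank ℂ (quo f (b + 1) W) := by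
  have hinj : Function.Injective (LinearMap.mulLeft ℂ f) := fun H G h => mul_left_cancel₀ hf h
  have h1 : quo f b W ⊓ mulF f = (quo f (b + 1) W).map (LinearMap.mulLeft ℂ f) := by
    ext H
    rw [Submodule.mem_inf, Submodule.mem_map, mem_mulF]
    constructor
    · rintro ⟨hH, G, rfl⟩
      refine ⟨G, ?_, rfl⟩
      rw [mem_quo] at hH ⊢
      rw [pow_succ, mul_assoc]
      exact hH
    · rintro ⟨G, hG, rfl⟩
      refine ⟨?_, ⟨G, rfl⟩⟩
      rw [mem_quo] at hG ⊢
      rw [pow_succ, mul_assoc] at hG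
      exact hG
  rw [h1]
  exact (LinearEquiv.finrank_eq (Submodule.equivMapOfInjective _ hinj (quo f (b + 1) W))).symm

end Pool.Agent.Lib.MP_6b2d39_agHal
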