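import Pool.Agent.Lib.MP_6b2d39_agHal.DiaA

/-!
The diagram lemma for an irreducible curve.

PROOF of `diagram`. `V b = quo f b W`; `V b ⊓ mulF f` is the image of `V (b + 1)` under multiplication by `f`, so
`ρ b = finrank (V b) - finrank (V (b + 1)) ≤ r b` elements `h (b, a)`, `a < ρ b`, of `exists_germ`. Take `K` larger than all
`finrank (V b)`, `L = K + 1`. `G (a, b) = loc (f ^ b * h (b, a))` has the initial monomial `x ^ a y ^ b` for the weights `(1, K)`:
`loc f = c y + (weight > K)`, `loc h = c' x ^ a + (weight > a)` (`coeff_loc`). `core_points` for `A = dgm ρ n ⊆ dgm r n` (EmpP is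
monotone: a polynomial supported on `A` is supported on the larger set) gives `(x i, y i)`; use the points
`(x i + x₀, y i + φ (x i))` (`mult_comp`). The `f ^ b * h (b, a)` are linearly independent (different initial monomials) and
their number is `∑_{b < n} ρ b = finrank W` (`V 0 = W`, `V n = 0`), so they span `W`.
PROOF of `diagram2`: `quo f b W₂ / f quo f (b + 1) W₂` is contained in `quo f b W / f quo f (b + 1) W`, so
`finrank (quo f b W₂) + finrank (quo f (b + 1) W) ≤ finrank (quo f b W) + finrank (quo f (b + 1) W₂)`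
(`Submodule.finrank_sup_add_finrank_inf_eq` for `quo f b W₂` and `V (b + 1)` embedded by `f`); `diagram` for `W₂`.
-/

open Polynomial

set_option autoImplicit false

namespace Pool.Agent.Lib.MP_6b2d39_agHal

open Pool.Agent.Lib.MP_6b2d39_ag Pool.Agent.Lib.MP_6b2d39_agWin Pool.Agent.Lib.MP_6b2d39_agNw

/-- `x ^ p.1 * y ^ p.2` is the initial monomial of `G` for the weights `(1, K)` -/
private def DiaBIni (K : ℕ) (p : ℕ × ℕ) (G : ℂ[X][X]) : Prop :=
  (G.coeff p.1).coeff p.2 ≠ 0 ∧
    ∀ i j, (G.coeff i).coeff j ≠ 0 → (i, j) ≠ p → p.1 + K * p.2 < i + K * j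

private theorem diaB_coeff (G H : ℂ[X][X]) (i j : ℕ) :
    ((G * H).coeff i).coeff j = ∑ u ∈ Finset.HasAntidiagonal.antidiagonal i, ∑ v ∈ Finset.HasAntidiagonal.antidiagonal j,
      (G.coeff u.1).coeff v.1 * (H.coeff u.2).coeff v.2 := by
  rw [coeff_mul, finsetSum_coeff]
  exact Finset.sum_congr rfl fun u _ => coeff_mul _ _ _

private theorem diaB_mul {K : ℕ} {p q : ℕ × ℕ} {G H : ℂ[X][X]} (hG : DiaBIni K p G)
    (hH : DiaBIni K q H) : DiaBIni K (p + q) (G * H) := by
  have hterm : ∀ i j, i + K * j ≤ (p + q).1 + K * (p + q).2 → ∀ u ∈ Finset.HasAntidiagonal.antidiagonal i,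
      ∀ v ∈ Finset.HasAntidiagonal.antidiagonal j, (G.coeff u.1).coeff v.1 * (H.coeff u.2).coeff v.2 ≠ 0 →
        (u.1, v.1) = p ∧ (u.2, v.2) = q := by
    intro i j hij u hu v hv hne
    rw [Finset.HasAntidiagonal.mem_antidiagonal] at hu hv
    have e1 : i + K * j = (u.1 + K * v.1) + (u.2 + K * v.2) := by
      rw [← hu, ← hv]
      ring
    have e2 : (p + q).1 + K * (p + q).2 = (p.1 + K * p.2) + (q.1 + K * q.2) := by
      rw [Prod.fst_add, Prod.snd_add]
      ring
    have e3 := hG.2 u.1 v.1 (left_ne_zero_of_mul hne)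
    have e4 := hH.2 u.2 v.2 (right_ne_zero_of_mul hne)
    have e5 : (u.1, v.1) = p → u.1 + K * v.1 = p.1 + K * p.2 := fun h => by rw [← h]
    have e6 : (u.2, v.2) = q → u.2 + K * v.2 = q.1 + K * q.2 := fun h => by rw [← h]
    by_cases c1 : (u.1, v.1) = p
    · by_cases c2 : (u.2, v.2) = q
      · exact ⟨c1, c2⟩
      · have := e4 c2
        have := e5 c1
        omega
    · have := e3 c1
      by_cases c2 : (u.2, v.2) = q
      · have := e6 c2
        omega
      · have := e4 c2
        omega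
  constructor
  · rw [diaB_coeff, Finset.sum_eq_single (p.1, q.1), Finset.sum_eq_single (p.2, q.2)]
    · exact mul_ne_zero hG.1 hH.1
    · intro v hv hne
      by_contra hcon
      obtain ⟨h3, h4⟩ := hterm _ _ le_rfl (p.1, q.1)
        (Finset.HasAntidiagonal.mem_antidiagonal.2 rfl) v hv hcon
      exact hne (Prod.ext (Prod.ext_iff.1 h3).2 (Prod.ext_iff.1 h4).2)
    · intro hcon
      exact absurd (Finset.HasAntidiagonal.mem_antidiagonal.2
        (rfl : (p.2, q.2).1 + (p.2, q.2).2 = (p + q).2)) hcon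
    · intro u hu hne
      refine Finset.sum_eq_zero fun v hv => ?_
      by_contra hcon
      obtain ⟨h3, h4⟩ := hterm _ _ le_rfl u hu v hv hcon
      exact hne (Prod.ext (Prod.ext_iff.1 h3).1 (Prod.ext_iff.1 h4).1)
    · intro hcon
      exact absurd (Finset.HasAntidiagonal.mem_antidiagonal.2
        (rfl : (p.1, q.1).1 + (p.1, q.1).2 = (p + q).1)) hcon
  · intro i j hne hpq
    by_contra hcon
    rw [not_lt] at hcon
    rw [diaB_coeff] at hne
    obtain ⟨u, hu, hu'⟩ := Finset.exists_ne_zero_of_sum_ne_zero hne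
    obtain ⟨v, hv, hv'⟩ := Finset.exists_ne_zero_of_sum_ne_zero hu'
    obtain ⟨h3, h4⟩ := hterm i j hcon u hu v hv hv'
    rw [Finset.HasAntidiagonal.mem_antidiagonal] at hu hv
    apply hpq
    rw [← hu, ← hv, ← h3, ← h4]
    rfl

private theorem diaB_one (K : ℕ) : DiaBIni K (0, 0) 1 := by
  constructor
  · rw [coeff_one_zero, coeff_one_zero]
    exact one_ne_zero
  · intro i j hne hij
    exfalso
    rcases Nat.eq_zero_or_pos i with hi | hi
    · subst hi
      rw [coeff_one_zero, coeff_one] at hne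
      rcases Nat.eq_zero_or_pos j with hj | hj
      · exact hij (by rw [hj])
      · rw [if_neg (by omega)] at hne
        exact hne rfl
    · rw [coeff_one, if_neg (by omega), coeff_zero] at hne
      exact hne rfl

private theorem diaB_pow {K : ℕ} {G : ℂ[X][X]} (hG : DiaBIni K (0, 1) G) (b : ℕ) :
    DiaBIni K (0, b) (G ^ b) := by
  induction b with
  | zero => rw [pow_zero]; exact diaB_one K
  | succ b ih => rw [pow_succ]; exact diaB_mul ih hG

private theorem diaB_mono {ι : Type} {P P' : Finset (ℕ × ℕ)} (h : P' ⊆ P) {m : ι → ℕ}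
    {J : Finset ι} (hE : EmpP P m J) : EmpP P' m J := by
  obtain ⟨x, y, hx, hy, H⟩ := hE
  exact ⟨x, y, hx, hy, fun f hf => H f fun i j hij => hf i j fun h' => hij (h h')⟩

private theorem diaB_zero (S : Finset ℕ) (x y : ℂ) : Cond S x y (0 : ℂ[X][X]) := by
  intro a
  rw [map_zero, coeff_zero]
  exact dvd_zero _

private theorem diaB_span {W : Submodule ℂ ℂ[X][X]} [FiniteDimensional ℂ W] {A : Finset (ℕ × ℕ)}
    {G : ℕ × ℕ → ℂ[X][X]} (hG : ∀ p ∈ A, G p ∈ W) (hcard : A.card = Module.finrank ℂ W)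
    (hl : ∀ c : ℕ × ℕ → ℂ, ∑ p ∈ A, C (C (c p)) * G p = 0 → ∀ p ∈ A, c p = 0) {F : ℂ[X][X]}
    (hF : F ∈ W) : ∃ c : ℕ × ℕ → ℂ, F = ∑ p ∈ A, C (C (c p)) * G p := by
  classical
  let v : A → W := fun p => ⟨G p.1, hG p.1 p.2⟩
  have hv : ∀ c : A → ℂ, ((∑ p, c p • v p : W) : ℂ[X][X]) =
      ∑ p ∈ A, C (C (if hp : p ∈ A then c ⟨p, hp⟩ else 0)) * G p := by
    intro c
    rw [← Finset.sum_coe_sort A (fun p => C (C (if hp : p ∈ A then c ⟨p, hp⟩ else 0)) * G p),
      Submodule.coe_sum]
    refine Finset.sum_congr rfl fun p _ => ?_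
    rw [dif_pos p.2, Submodule.coe_smul, smul_eq]
  have hlin : LinearIndependent ℂ v := by
    refine (Fintype.linearIndependent_iff (R := ℂ) (M := W) (v := v)).2 fun g hg p => ?_
    have h3 := hv g
    rw [hg, Submodule.coe_zero] at h3
    have h5 := hl (fun p => if hp : p ∈ A then g ⟨p, hp⟩ else 0) h3.symm p.1 p.2
    rw [dif_pos p.2] at h5
    exact h5
  have hc : Fintype.card A = Module.finrank ℂ W := by
    rw [Fintype.card_coe]
    exact hcard
  have hspan := LinearIndependent.span_eq_top_of_card_eq_finrank' (K := ℂ) (V := W) hlin hc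
  have hmem : (⟨F, hF⟩ : W) ∈ Submodule.span ℂ (Set.range v) := by
    rw [hspan]
    exact Submodule.mem_top
  obtain ⟨c, hc⟩ := (Submodule.mem_span_range_iff_exists_fun ℂ).1 hmem
  refine ⟨fun p => if hp : p ∈ A then c ⟨p, hp⟩ else 0, ?_⟩
  rw [← hv c, hc]

theorem diagram {ι : Type} [Fintype ι] [DecidableEq ι] {f : ℂ[X][X]} (hf : Irreducible f)
    (h1 : f.natDegree ≠ 0) (h2 : ∃ i, (f.coeff i).natDegree ≠ 0) {W : Submodule ℂ ℂ[X][X]}
    [FiniteDimensional ℂ W] {n : ℕ} {r : ℕ → ℕ}
    (hr : ∀ b < n, Module.finrank ℂ (quo f b W) ≤ r b + Module.finrank ℂ (quo f (b + 1) W))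
    (h0 : ∀ H, f ^ n * H ∈ W → H = 0) {m : ι → ℕ} {J : Finset ι} (hE : EmpP (dgm r n) m J) :
    ∃ x y : ι → ℂ, ∀ F ∈ W, (∀ i ∈ J, Cond (Finset.Icc 1 (m i)) (x i) (y i) F) → F = 0 := by
  classical
  have hf0 : f ≠ 0 := hf.ne_zero
  have hfin : ∀ b, FiniteDimensional ℂ (quo f b W) := fun b => quo_finite hf0 b W
  let V : ℕ → Submodule ℂ ℂ[X][X] := fun b => quo f b W
  have hfin' : ∀ b, FiniteDimensional ℂ (V b) := hfin
  have hVf : ∀ b, Module.finrank ℂ ↥(V b ⊓ mulF f) = Module.finrank ℂ (V (b + 1)) :=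
    fun b => finrank_quo_mulF hf0 b W
  let ρ : ℕ → ℕ := fun b => Module.finrank ℂ (V b) - Module.finrank ℂ (V (b + 1))
  have hle : ∀ b, Module.finrank ℂ (V (b + 1)) ≤ Module.finrank ℂ (V b) := by
    intro b
    rw [← hVf b]
    exact Submodule.finrank_mono inf_le_left
  let K : ℕ := 1 + ∑ b ∈ Finset.range n, Module.finrank ℂ (V b)
  have hK : ∀ b < n, Module.finrank ℂ (V b) < K := by
    intro b hb
    have h3 := Finset.single_le_sum (f := fun b => Module.finrank ℂ (V b))
      (fun _ _ => Nat.zero_le _) (Finset.mem_range.2 hb)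
    show Module.finrank ℂ (V b) < 1 + ∑ b ∈ Finset.range n, Module.finrank ℂ (V b)
    have h4 : Module.finrank ℂ (V b) ≤ ∑ b ∈ Finset.range n, Module.finrank ℂ (V b) := h3
    omega
  obtain ⟨x₀, φ, hφ1, hφ2, hφ3⟩ := exists_germ hf h1 h2 n V (K + 1)
    (fun b hb => (hK b hb).le.trans (Nat.le_succ _))
  have hex : ∀ b a, ∃ h : ℂ[X][X], b < n → a < ρ b → h ∈ V b ∧
      (∀ i < a, (br x₀ φ h).coeff i = 0) ∧ (br x₀ φ h).coeff a ≠ 0 := by
    intro b a
    by_cases hb : b < n
    · by_cases ha : a < ρ b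
      · obtain ⟨h, hh⟩ := hφ3 b hb a (by
          rw [hVf b]
          have h3 : a < Module.finrank ℂ (V b) - Module.finrank ℂ (V (b + 1)) := ha
          omega)
        exact ⟨h, fun _ _ => hh⟩
      · exact ⟨0, fun _ h => absurd h ha⟩
    · exact ⟨0, fun h => absurd h hb⟩
  choose h hh using hex
  let G : ℕ × ℕ → ℂ[X][X] := fun p => f ^ p.2 * h p.2 p.1
  have hKf : DiaBIni K (0, 1) (loc x₀ φ f) := by
    refine ⟨hφ2, fun i j hne hij => ?_⟩
    show 0 + K * 1 < i + K * j
    have hK1 : 1 ≤ K := Nat.le_add_right 1 _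
    rcases Nat.lt_or_ge j 1 with hj | hj
    · have hj0 : j = 0 := by omega
      subst hj0
      rw [coeff_loc] at hne
      by_contra hcon
      exact hne ((X_pow_dvd_iff.1 hφ1) i (by omega))
    · rcases Nat.eq_or_lt_of_le hj with hj1 | hj1
      · subst hj1
        have : i ≠ 0 := fun h => hij (by rw [h])
        omega
      · have h8 : K * 2 ≤ K * j := Nat.mul_le_mul_left K hj1
        omega
  have hini : ∀ p ∈ dgm ρ n, DiaBIni K p (loc x₀ φ (G p)) := by
    intro p hp
    rw [mem_dgm] at hp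
    obtain ⟨-, h3, h4⟩ := hh p.2 p.1 hp.1 hp.2
    have h5 : DiaBIni K (p.1, 0) (loc x₀ φ (h p.2 p.1)) := by
      constructor
      · show ((loc x₀ φ (h p.2 p.1)).coeff p.1).coeff 0 ≠ 0
        rw [coeff_loc]
        exact h4
      · intro i j hne hij
        show p.1 + K * 0 < i + K * j
        rcases Nat.eq_zero_or_pos j with hj | hj
        · subst hj
          rw [coeff_loc] at hne
          have h6 : p.1 ≤ i := by
            by_contra hcon
            exact hne (h3 i (by omega))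
          have h7 : p.1 ≠ i := by
            intro h8
            exact hij (by rw [h8])
          omega
        · have h6 : K * 1 ≤ K * j := Nat.mul_le_mul_left K hj
          have h7 := hK p.2 hp.1
          have h8 : p.1 < Module.finrank ℂ (V p.2) - Module.finrank ℂ (V (p.2 + 1)) := hp.2
          omega
    have h6 := diaB_mul (diaB_pow hKf p.2) h5
    have h7 : ((0, p.2) + (p.1, 0) : ℕ × ℕ) = p := by
      refine Prod.ext ?_ ?_
      · show 0 + p.1 = p.1
        omega
      · show p.2 + 0 = p.2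
        omega
    rw [h7] at h6
    show DiaBIni K p (loc x₀ φ (f ^ p.2 * h p.2 p.1))
    rw [map_mul, map_pow]
    exact h6
  have hsub : dgm ρ n ⊆ dgm r n := by
    intro p hp
    rw [mem_dgm] at hp ⊢
    refine ⟨hp.1, ?_⟩
    have h3 : p.1 < Module.finrank ℂ (V p.2) - Module.finrank ℂ (V (p.2 + 1)) := hp.2
    have h4 : Module.finrank ℂ (V p.2) ≤ r p.2 + Module.finrank ℂ (V (p.2 + 1)) := hr p.2 hp.1
    omega
  obtain ⟨x, y, hxy⟩ := core_points (A := dgm ρ n) (K := K) (fun p => loc x₀ φ (G p))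
    (fun p hp => (hini p hp).1) (fun p hp => (hini p hp).2) (diaB_mono hsub hE)
  have hG : ∀ p ∈ dgm ρ n, G p ∈ W := by
    intro p hp
    rw [mem_dgm] at hp
    exact (hh p.2 p.1 hp.1 hp.2).1
  have hloc : ∀ c : ℕ × ℕ → ℂ, loc x₀ φ (∑ p ∈ dgm ρ n, C (C (c p)) * G p) =
      ∑ p ∈ dgm ρ n, C (C (c p)) * loc x₀ φ (G p) := by
    intro c
    rw [map_sum]
    refine Finset.sum_congr rfl fun p _ => ?_
    rw [map_mul]
    exact congrArg (fun u => u * loc x₀ φ (G p)) ((loc x₀ φ).commutes (c p))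
  have hcard : (dgm ρ n).card = Module.finrank ℂ W := by
    rw [card_dgm]
    have h3 : ∀ k, ∑ b ∈ Finset.range k, ρ b + Module.finrank ℂ (V k) =
        Module.finrank ℂ (V 0) := by
      intro k
      induction k with
      | zero => rw [Finset.sum_range_zero, zero_add]
      | succ k ih =>
        rw [Finset.sum_range_succ, ← ih]
        have h4 : ρ k = Module.finrank ℂ (V k) - Module.finrank ℂ (V (k + 1)) := rfl
        have := hle k
        omega
    have h5 : Module.finrank ℂ (V n) = 0 := by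
      have h6 : V n = ⊥ := by
        rw [Submodule.eq_bot_iff]
        intro H hH
        exact h0 H hH
      rw [h6, finrank_bot]
    have h7 : V 0 = W := by
      ext H
      show f ^ 0 * H ∈ W ↔ H ∈ W
      rw [pow_zero, one_mul]
    have h8 := h3 n
    rw [h5, add_zero, h7] at h8
    exact h8
  refine ⟨fun i => x i + x₀, fun i => y i + φ.eval (x i), fun F hF hcond => ?_⟩
  obtain ⟨c, hc⟩ := diaB_span hG hcard (fun c hc => hxy c fun i _ => by
    rw [← hloc, hc, map_zero]
    exact diaB_zero _ _ _) hF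
  have h4 := hxy c (fun i hi => by
    rw [← hloc, ← hc]
    have h5 : Mult (m i) (x i, y i) (aevalAeval (C X + φ.map C) (X + C (C x₀)) F) := by
      refine mult_comp (q := (x i + x₀, y i + φ.eval (x i))) _ _ ?_ ?_ (hcond i hi)
      · show ev (x i, y i) (C X + φ.map C) = y i + φ.eval (x i)
        have h6 : ev (x i, y i) (φ.map C) = φ.eval (x i) := by
          unfold ev
          rw [coe_aevalAeval_eq_evalEval]
          simp [evalEval]
        rw [map_add, h6]
        have h7 : ev (x i, y i) (C X) = y i := by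
          unfold ev
          rw [aevalAeval_X]
        rw [h7]
      · show ev (x i, y i) (X + C (C x₀)) = x i + x₀
        unfold ev
        rw [coe_aevalAeval_eq_evalEval]
        simp [evalEval]
    exact h5)
  rw [hc]
  refine Finset.sum_eq_zero fun p hp => ?_
  rw [h4 p hp, C_0, C_0, zero_mul]

end Pool.Agent.Lib.MP_6b2d39_agHal
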