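import Pool.Agent.Lib.MP_6b2d39_agHal.DiaB

/-!
The diagram lemma for an irreducible curve.

PROOF of `diagram`. `V b = quo f b W`; `V b ⊓ mulF f` is the image of `V (b + 1)` under multiplication by `f`, so
`ρ b = finrank (V b) - finrank (V (b + 1)) ≤ r b` elements `h (b, a)`, `a < ρ b`, of `exists_germ`. Take `K` larger than all
`finrank (V b)`, `L = K + 1`. `G (a, b) = loc (f ^ b * h (b, a))` has the initial monomial `x ^ a y ^ b` for the weights `(1, K)`:
`loc f = c y + (weight > K)`, `loc h = c' x ^ a + (weight > a)` (`coeff_loc`). `core_points` for `A = dgm ρ n ⊆ dgm r n` (EmpP is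
monotone: a polynomial supported on `A` is supported on the larger set) gives `(x i, y i)`; use the points
`(x i + x₀, y i + φ (x i))` (`mult_comp`). The `f ^ b * h (b, a)` are linearly independent (different initial monomials) and
their number is `∑_{b < n} ρ b = finrank W` (`V 0 = W`, `V n = 0`), so they span `W`.
PROOF of `diagram2`: `quo f b W₂ / f quo f (b + 1) W₂` is contained in `quo f b W / f quo f (b + 1) W`, so
`finrank (quo f b W₂) + finrank (quo f (b + 1) W) ≤ finrank (quo f b W) + finrank (quo f (b + 1) W₂)`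
(`Submodule.finrank_sup_add_finrank_inf_eq` for `quo f b W₂` and `V (b + 1)` embedded by `f`); `diagram` for `W₂`.
-/

open Polynomial

set_option autoImplicit false

namespace Pool.Agent.Lib.MP_6b2d39_agHal

open Pool.Agent.Lib.MP_6b2d39_ag Pool.Agent.Lib.MP_6b2d39_agWin Pool.Agent.Lib.MP_6b2d39_agNw

theorem diagram2 {ι : Type} [Fintype ι] [DecidableEq ι] {f : ℂ[X][X]} (hf : Irreducible f)
    (h1 : f.natDegree ≠ 0) (h2 : ∃ i, (f.coeff i).natDegree ≠ 0) {W W₂ : Submodule ℂ ℂ[X][X]}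
    [FiniteDimensional ℂ W] (hW : W₂ ≤ W) {n : ℕ} {r : ℕ → ℕ}
    (hr : ∀ b < n, Module.finrank ℂ (quo f b W) ≤ r b + Module.finrank ℂ (quo f (b + 1) W))
    (h0 : ∀ H, f ^ n * H ∈ W₂ → H = 0) {m : ι → ℕ} {J : Finset ι} (hE : EmpP (dgm r n) m J) :
    ∃ x y : ι → ℂ, ∀ F ∈ W₂, (∀ i ∈ J, Cond (Finset.Icc 1 (m i)) (x i) (y i) F) → F = 0 := by
  classical
  have hf0 : f ≠ 0 := hf.ne_zero
  have hWf : FiniteDimensional ℂ W₂ := Submodule.finiteDimensional_of_le hW
  refine diagram hf h1 h2 (W := W₂) (fun b hb => ?_) h0 hE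
  have i1 : FiniteDimensional ℂ (quo f b W) := quo_finite hf0 b W
  have i2 : FiniteDimensional ℂ (quo f b W₂) := quo_finite hf0 b W₂
  have hle : quo f b W₂ ≤ quo f b W := fun H hH => hW hH
  have i3 : FiniteDimensional ℂ ↥(quo f b W ⊓ mulF f) :=
    Submodule.finiteDimensional_of_le inf_le_left
  have h3 := Submodule.finrank_sup_add_finrank_inf_eq (quo f b W₂) (quo f b W ⊓ mulF f)
  have h4 : quo f b W₂ ⊓ (quo f b W ⊓ mulF f) = quo f b W₂ ⊓ mulF f := by
    rw [← inf_assoc, inf_eq_left.2 hle]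
  rw [h4, finrank_quo_mulF hf0, finrank_quo_mulF hf0] at h3
  have h5 : Module.finrank ℂ ↥(quo f b W₂ ⊔ (quo f b W ⊓ mulF f)) ≤
      Module.finrank ℂ (quo f b W) := Submodule.finrank_mono (sup_le hle inf_le_left)
  have h6 := hr b hb
  omega

end Pool.Agent.Lib.MP_6b2d39_agHal
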