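import Pool.Agent.Lib.MP_6b2d39_agHal.Cst
import Pool.Agent.Lib.MP_6b2d39_agHal.Curve

/-!
The coordinate ring of an irreducible plane curve.

PROOFS. `exists_dq`: `dd f (f * g) = f * dd f g` (`dd_mul_self`), so `dd f` maps the ideal `(f)` to itself and descends to
`AdjoinRoot f = ℂ[X][X] / (f)`.
`exists_rl`: `R = AdjoinRoot f` is a domain (`AdjoinRoot.isDomain_of_prime`), algebraic over `ℂ[X]` (the ring of `y`):
`AdjoinRoot.isAlgebraic_root`, `AdjoinRoot.adjoinRoot_eq_top`, `Subalgebra.algebraicClosure`; the element `a / b` of the fraction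
field is a root of a nonzero polynomial `∑ (q j) T ^ j` over `ℂ[X]`; multiply by `b ^ n`; `aeval z (q j)` with
`z = mk f (C X)` is the image of `C (q j)`.
`cst_dq`: `cst_of_rl` with `z = mk f (C X)`: `D z = mk f (- dx f)`, not zero since `dx f ≠ 0` has smaller degree in `x`.
`wron`: `wronskian_ne_zero` for `u j = mk f (w j)`; `D^[i] (mk f F) = mk f ((dd f)^[i] F)`, determinant and ring homomorphism.
-/

open Polynomial

set_option autoImplicit false

namespace Pool.Agent.Lib.MP_6b2d39_agHal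

open Pool.Agent.Lib.MP_6b2d39_ag

private theorem mk_dd {f F G : ℂ[X][X]} (h : AdjoinRoot.mk f F = AdjoinRoot.mk f G) :
    AdjoinRoot.mk f (dd f F) = AdjoinRoot.mk f (dd f G) := by
  obtain ⟨g, hg⟩ := AdjoinRoot.mk_eq_mk.1 h
  rw [AdjoinRoot.mk_eq_mk, ← map_sub, hg, dd_mul_self]
  exact dvd_mul_right _ _

private theorem sm_mk (f : ℂ[X][X]) (c : ℂ) (F : ℂ[X][X]) :
    c • AdjoinRoot.mk f F = AdjoinRoot.mk f (c • F) := by
  rw [AdjoinRoot.smul_mk]

theorem exists_dq (f : ℂ[X][X]) : ∃ D : Derivation ℂ (AdjoinRoot f) (AdjoinRoot f),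
    ∀ F, D (AdjoinRoot.mk f F) = AdjoinRoot.mk f (dd f F) := by
  obtain ⟨s, hs⟩ := (AdjoinRoot.mk_surjective (g := f)).hasRightInverse
  have key : ∀ F, AdjoinRoot.mk f (dd f (s (AdjoinRoot.mk f F))) = AdjoinRoot.mk f (dd f F) :=
    fun F => mk_dd (hs _)
  let L : AdjoinRoot f →ₗ[ℂ] AdjoinRoot f :=
    { toFun := fun a => AdjoinRoot.mk f (dd f (s a))
      map_add' := by
        intro a b
        obtain ⟨F, rfl⟩ := AdjoinRoot.mk_surjective a
        obtain ⟨G, rfl⟩ := AdjoinRoot.mk_surjective b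
        rw [← map_add, key, key, key, map_add, map_add]
      map_smul' := by
        intro c a
        obtain ⟨F, rfl⟩ := AdjoinRoot.mk_surjective a
        rw [sm_mk, key, key, RingHom.id_apply, sm_mk, (dd f).map_smul] }
  refine ⟨Derivation.mk' L fun a b => ?_, fun F => key F⟩
  obtain ⟨F, rfl⟩ := AdjoinRoot.mk_surjective a
  obtain ⟨G, rfl⟩ := AdjoinRoot.mk_surjective b
  change AdjoinRoot.mk f (dd f (s _)) = AdjoinRoot.mk f F • AdjoinRoot.mk f (dd f (s _)) +
    AdjoinRoot.mk f G • AdjoinRoot.mk f (dd f (s _))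
  rw [← map_mul, key, key, key, (dd f).leibniz, map_add, smul_eq_mul, smul_eq_mul, smul_eq_mul,
    smul_eq_mul, map_mul, map_mul]

private theorem alg_all {f : ℂ[X][X]} (hf : f ≠ 0) (a : AdjoinRoot f) :
    IsAlgebraic ℂ[X] a := by
  have h1 : (⊤ : Subalgebra ℂ[X] (AdjoinRoot f)) ≤
      Subalgebra.algebraicClosure ℂ[X] (AdjoinRoot f) := by
    rw [← AdjoinRoot.adjoinRoot_eq_top, Algebra.adjoin_le_iff]
    rintro _ rfl
    exact AdjoinRoot.isAlgebraic_root hf
  exact h1 (show a ∈ (⊤ : Subalgebra ℂ[X] (AdjoinRoot f)) from trivial)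

private theorem aeval_z (f : ℂ[X][X]) (q : ℂ[X]) :
    aeval (AdjoinRoot.mk f (C X)) q = algebraMap ℂ[X] (AdjoinRoot f) q := by
  have h1 : (aeval (AdjoinRoot.mk f (C X)) : ℂ[X] →ₐ[ℂ] AdjoinRoot f) =
      IsScalarTower.toAlgHom ℂ ℂ[X] (AdjoinRoot f) := by
    apply Polynomial.algHom_ext
    rw [aeval_X]
    rfl
  exact DFunLike.congr_fun h1 q

theorem exists_rl {f : ℂ[X][X]} (hf : Irreducible f) (h1 : f.natDegree ≠ 0)
    (a b : AdjoinRoot f) (hb : b ≠ 0) : ∃ (n : ℕ) (q : ℕ → ℂ[X]),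
      Rl (AdjoinRoot.mk f (C X)) a b n q ∧ ∃ j ≤ n, q j ≠ 0 := by
  have : IsDomain (AdjoinRoot f) := AdjoinRoot.isDomain_of_prime hf.prime
  let F := FractionRing (AdjoinRoot f)
  have hinj : Function.Injective (algebraMap (AdjoinRoot f) F) := IsFractionRing.injective _ F
  have hb' : algebraMap (AdjoinRoot f) F b ≠ 0 := fun h0 => hb (hinj (by rw [h0, map_zero]))
  have hA : IsAlgebraic ℂ[X] (algebraMap (AdjoinRoot f) F a) := (alg_all hf.ne_zero a).algebraMap
  have hB : IsAlgebraic ℂ[X] (algebraMap (AdjoinRoot f) F b) := (alg_all hf.ne_zero b).algebraMap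
  obtain ⟨p, hp0, hp⟩ := hA.mul hB.inv
  set x : F := algebraMap (AdjoinRoot f) F a * (algebraMap (AdjoinRoot f) F b)⁻¹ with hx
  have hxb : x * algebraMap (AdjoinRoot f) F b = algebraMap (AdjoinRoot f) F a := by
    rw [hx, mul_assoc, inv_mul_cancel₀ hb', mul_one]
  refine ⟨p.natDegree, p.coeff, hinj ?_, p.natDegree, le_rfl, ?_⟩
  · rw [map_sum, map_zero, ← mul_zero (algebraMap (AdjoinRoot f) F b ^ p.natDegree), ← hp,
      aeval_eq_sum_range, Finset.mul_sum]
    refine Finset.sum_congr rfl fun j hj => ?_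
    have hjn : j ≤ p.natDegree := by
      have := Finset.mem_range.1 hj
      omega
    have h4 : algebraMap (AdjoinRoot f) F b ^ p.natDegree =
        algebraMap (AdjoinRoot f) F b ^ j * algebraMap (AdjoinRoot f) F b ^ (p.natDegree - j) := by
      rw [← pow_add]
      congr 1
      omega
    rw [aeval_z, map_mul, map_mul, map_pow, map_pow, h4, ← hxb, mul_pow,
      ← IsScalarTower.algebraMap_apply ℂ[X] (AdjoinRoot f) F, Algebra.smul_def]
    ring
  · rw [coeff_natDegree]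
    exact leadingCoeff_ne_zero.2 hp0

end Pool.Agent.Lib.MP_6b2d39_agHal
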