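import Pool.Agent.Lib.MP_6b2d39_agHal.FunA

/-!
The coordinate ring of an irreducible plane curve.

PROOFS. `exists_dq`: `dd f (f * g) = f * dd f g` (`dd_mul_self`), so `dd f` maps the ideal `(f)` to itself and descends to
`AdjoinRoot f = ℂ[X][X] / (f)`.
`exists_rl`: `R = AdjoinRoot f` is a domain (`AdjoinRoot.isDomain_of_prime`), algebraic over `ℂ[X]` (the ring of `y`):
`AdjoinRoot.isAlgebraic_root`, `AdjoinRoot.adjoinRoot_eq_top`, `Subalgebra.algebraicClosure`; the element `a / b` of the fraction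
field is a root of a nonzero polynomial `∑ (q j) T ^ j` over `ℂ[X]`; multiply by `b ^ n`; `aeval z (q j)` with
`z = mk f (C X)` is the image of `C (q j)`.
`cst_dq`: `cst_of_rl` with `z = mk f (C X)`: `D z = mk f (- dx f)`, not zero since `dx f ≠ 0` has smaller degree in `x`.
`wron`: `wronskian_ne_zero` for `u j = mk f (w j)`; `D^[i] (mk f F) = mk f ((dd f)^[i] F)`, determinant and ring homomorphism.
-/

open Polynomial

set_option autoImplicit false

namespace Pool.Agent.Lib.MP_6b2d39_agHal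

open Pool.Agent.Lib.MP_6b2d39_ag

theorem cst_dq {f : ℂ[X][X]} (hf : Irreducible f) (h1 : f.natDegree ≠ 0)
    (D : Derivation ℂ (AdjoinRoot f) (AdjoinRoot f))
    (hD : ∀ F, D (AdjoinRoot.mk f F) = AdjoinRoot.mk f (dd f F)) : Cst D := by
  have : IsDomain (AdjoinRoot f) := AdjoinRoot.isDomain_of_prime hf.prime
  refine cst_of_rl (z := AdjoinRoot.mk f (C X)) ?_ fun a b hb => exists_rl hf h1 a b hb
  rw [hD, dd_apply, dx_C, dy_CX, mul_zero, mul_one, zero_sub, Ne, AdjoinRoot.mk_eq_zero, dvd_neg,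
    dx_apply]
  intro h
  have h2 := Polynomial.eq_zero_of_dvd_of_natDegree_lt h (natDegree_derivative_lt h1)
  exact h1 (derivative_eq_zero.1 h2)

/-- The Wronskian of polynomials which are linearly independent modulo `f`. -/
theorem wron {f : ℂ[X][X]} (hf : Irreducible f) (h1 : f.natDegree ≠ 0) {r : ℕ}
    (w : Fin r → ℂ[X][X]) (hw : ∀ c : Fin r → ℂ, f ∣ ∑ j, c j • w j → c = 0) :
    ¬ f ∣ (Matrix.of fun i j : Fin r => (dd f)^[(i : ℕ)] (w j)).det := by
  have : IsDomain (AdjoinRoot f) := AdjoinRoot.isDomain_of_prime hf.prime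
  obtain ⟨D, hD⟩ := exists_dq f
  have hit : ∀ (i : ℕ) (F : ℂ[X][X]), D^[i] (AdjoinRoot.mk f F) = AdjoinRoot.mk f ((dd f)^[i] F) := by
    intro i
    induction i with
    | zero => intro F; rfl
    | succ i ih =>
      intro F
      rw [Function.iterate_succ_apply, Function.iterate_succ_apply, hD, ih]
  have hu : LinearIndependent ℂ fun j => AdjoinRoot.mk f (w j) := by
    rw [Fintype.linearIndependent_iff]
    intro c hc
    have h2 : AdjoinRoot.mk f (∑ j, c j • w j) = 0 := by
      rw [map_sum, ← hc]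
      refine Finset.sum_congr rfl fun j _ => ?_
      rw [AdjoinRoot.smul_mk]
    exact congrFun (hw c (AdjoinRoot.mk_eq_zero.1 h2))
  have h3 := wronskian_ne_zero (cst_dq hf h1 D hD) hu
  intro h
  apply h3
  have h4 := AdjoinRoot.mk_eq_zero.2 h
  rw [RingHom.map_det] at h4
  rw [← h4]
  congr 1
  ext i j
  rw [Matrix.of_apply, RingHom.mapMatrix_apply, Matrix.map_apply, Matrix.of_apply, hit]

end Pool.Agent.Lib.MP_6b2d39_agHal
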