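import Pool.Agent.Lib.MP_6b2d39_agHal.Fun
import Pool.Agent.Lib.MP_6b2d39_agHal.Branch
import Pool.Agent.Lib.MP_6b2d39_agHal.Mul

/-!
A general point of the curve: the orders of finitely many spaces of functions are `0, 1, …`.

PROOF of `exists_point`: Nullstellensatz: `f ∤ P`, `f` irreducible: `P` is not in the radical ideal `(f)`; in `MvPolynomial (Fin 2) ℂ`
(`Bivariate.equivMvPolynomial`): `MvPolynomial.vanishingIdeal_zeroLocus_eq_radical`.
PROOF of `exists_germ`: for `b < n` let `r = finrank (V b) - finrank (V b ⊓ mulF f)` and `w 0, …, w (r - 1) ∈ V b` linearly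
independent modulo `mulF f`; `P b` = the determinant of `wron`. `P = dy f * ∏ P b` is not divisible by `f` (`f` prime; `dy f` is
not: it is not zero and has smaller degree in `y` – swap the variables, or compare total degrees with `inV_cancel`). Point
`(x₀, y₀)` of `exists_point`, branch with `L + 1`. At the point the matrix `ev ((dd f)^[i] (w j))` is invertible, so some combination
`h` of the `w j` has `ev ((dd f)^[i] h) = 0` for `i < a`, `= 1` for `i = a`; `ord_branch`.
-/

open Polynomial

set_option autoImplicit false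

namespace Pool.Agent.Lib.MP_6b2d39_agHal

open Pool.Agent.Lib.MP_6b2d39_ag

/-- the multiples of `f` -/
noncomputable def mulF (f : ℂ[X][X]) : Submodule ℂ ℂ[X][X] :=
  (Ideal.span {f}).restrictScalars ℂ

theorem mem_mulF {f F : ℂ[X][X]} : F ∈ mulF f ↔ f ∣ F := by
  unfold mulF
  rw [Submodule.restrictScalars_mem, Ideal.mem_span_singleton]

private theorem germA_ind {P : ℂ[X][X] → Prop} (h0 : ∀ F G, P F → P G → P (F + G))
    (h1 : ∀ (a b : ℕ) (c : ℂ), P (C (C c) * C X ^ b * X ^ a)) (F : ℂ[X][X]) : P F := by
  induction F using Polynomial.induction_on' with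
  | add F G hF hG => exact h0 F G hF hG
  | monomial a g =>
    induction g using Polynomial.induction_on' with
    | add f g hf hg =>
      rw [(monomial a).map_add]
      exact h0 _ _ hf hg
    | monomial b c =>
      have := h1 a b c
      rw [← C_pow, ← C_mul, C_mul_X_pow_eq_monomial, C_mul_X_pow_eq_monomial] at this
      exact this

private theorem germA_ev (q : Fin 2 → ℂ) (F : ℂ[X][X]) :
    MvPolynomial.aeval q (Polynomial.Bivariate.equivMvPolynomial ℂ F) = ev (q 1, q 0) F := by
  induction F using germA_ind with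
  | h0 F G hF hG => rw [map_add, map_add, map_add, hF, hG]
  | h1 a b c =>
    have e1 : ev (q 1, q 0) (C (C c)) = c := (ev (q 1, q 0)).commutes c
    have e2 : ev (q 1, q 0) (C X) = q 0 := aevalAeval_X _ _
    have e3 : ev (q 1, q 0) X = q 1 := aevalAeval_Y _ _
    rw [map_mul, map_mul, map_pow, map_pow, map_mul, map_mul, map_pow, map_pow, map_mul, map_mul,
      map_pow, map_pow, Polynomial.Bivariate.equivMvPolynomial_C_C,
      Polynomial.Bivariate.equivMvPolynomial_C_X, Polynomial.Bivariate.equivMvPolynomial_X,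
      MvPolynomial.aeval_C, MvPolynomial.aeval_X, MvPolynomial.aeval_X, e1, e2, e3]
    rfl

theorem exists_point {f P : ℂ[X][X]} (hf : Irreducible f) (hP : ¬ f ∣ P) :
    ∃ p : ℂ × ℂ, ev p f = 0 ∧ ev p P ≠ 0 := by
  by_contra hcon
  push Not at hcon
  let e := Polynomial.Bivariate.equivMvPolynomial ℂ
  have h1 : e P ∈ MvPolynomial.vanishingIdeal ℂ (MvPolynomial.zeroLocus ℂ (Ideal.span {e f})) := by
    rw [MvPolynomial.mem_vanishingIdeal_iff]
    intro q hq
    rw [MvPolynomial.mem_zeroLocus_iff] at hq
    have h2 := hq (e f) (Ideal.mem_span_singleton_self _)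
    rw [germA_ev] at h2 ⊢
    exact hcon _ h2
  rw [MvPolynomial.vanishingIdeal_zeroLocus_eq_radical] at h1
  have hp : Prime (e f) := (MulEquiv.prime_iff e.toMulEquiv).2 hf.prime
  rw [((Ideal.span_singleton_prime hp.ne_zero).2 hp).isRadical.radical,
    Ideal.mem_span_singleton] at h1
  exact hP ((map_dvd_iff e).1 h1)

private theorem germA_swap (F : ℂ[X][X]) :
    Polynomial.Bivariate.swap (dy F) = derivative (Polynomial.Bivariate.swap F) := by
  induction F using germA_ind with
  | h0 F G hF hG => rw [map_add, map_add, map_add, map_add, hF, hG]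
  | h1 a b c =>
    have e1 : dy (C (C c)) = 0 := dy.map_algebraMap c
    have e2 : dy (C (C c) * C X ^ b * X ^ a) = C (C c) * ((b : ℂ[X][X]) * C X ^ (b - 1)) * X ^ a := by
      rw [dy.leibniz, dy.leibniz, dy.leibniz_pow, dy.leibniz_pow, dy_X, dy_CX, e1]
      simp only [smul_zero, zero_add, add_zero, smul_eq_mul, mul_one, nsmul_eq_mul]
      ring
    rw [e2]
    simp only [map_mul, map_pow, Polynomial.Bivariate.swap_X, Polynomial.Bivariate.swap_Y,
      Polynomial.Bivariate.swap_C_C, map_natCast]
    rw [← C_pow, derivative_mul, derivative_C, mul_zero, add_zero, derivative_mul, derivative_C,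
      zero_mul, zero_add, derivative_X_pow]
    simp only [C_eq_natCast, map_natCast]

theorem not_dvd_dy {f : ℂ[X][X]} (h2 : ∃ i, (f.coeff i).natDegree ≠ 0) : ¬ f ∣ dy f := by
  intro h
  have h1 : Polynomial.Bivariate.swap f ∣ derivative (Polynomial.Bivariate.swap f) := by
    rw [← germA_swap]
    exact (map_dvd_iff Polynomial.Bivariate.swap).2 h
  have hd : (Polynomial.Bivariate.swap f).natDegree ≠ 0 := by
    intro h0
    obtain ⟨i, hi⟩ := h2
    apply hi
    have h3 := eq_C_of_natDegree_eq_zero h0
    have h4 : f = ((Polynomial.Bivariate.swap f).coeff 0).map C := by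
      rw [← Polynomial.Bivariate.swap_C, ← h3, Polynomial.Bivariate.swap_swap_apply]
    rw [h4, coeff_map, natDegree_C]
  have h3 : derivative (Polynomial.Bivariate.swap f) = 0 := by
    by_contra h4
    have h5 := natDegree_le_of_dvd h1 h4
    have h6 := natDegree_derivative_lt hd
    omega
  have h4 := natDegree_eq_zero_of_derivative_eq_zero h3
  exact hd h4

end Pool.Agent.Lib.MP_6b2d39_agHal
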