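import Pool.Agent.Lib.MP_6b2d39_agHal.GermA

/-!
A general point of the curve: the orders of finitely many spaces of functions are `0, 1, …`.

PROOF of `exists_point`: Nullstellensatz: `f ∤ P`, `f` irreducible: `P` is not in the radical ideal `(f)`; in `MvPolynomial (Fin 2) ℂ`
(`Bivariate.equivMvPolynomial`): `MvPolynomial.vanishingIdeal_zeroLocus_eq_radical`.
PROOF of `exists_germ`: for `b < n` let `r = finrank (V b) - finrank (V b ⊓ mulF f)` and `w 0, …, w (r - 1) ∈ V b` linearly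
independent modulo `mulF f`; `P b` = the determinant of `wron`. `P = dy f * ∏ P b` is not divisible by `f` (`f` prime; `dy f` is
not: it is not zero and has smaller degree in `y` – swap the variables, or compare total degrees with `inV_cancel`). Point
`(x₀, y₀)` of `exists_point`, branch with `L + 1`. At the point the matrix `ev ((dd f)^[i] (w j))` is invertible, so some combination
`h` of the `w j` has `ev ((dd f)^[i] h) = 0` for `i < a`, `= 1` for `i = a`; `ord_branch`.
-/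

open Polynomial

set_option autoImplicit false

namespace Pool.Agent.Lib.MP_6b2d39_agHal

open Pool.Agent.Lib.MP_6b2d39_ag

/-- a basis of a complement -/
private theorem gb_compl {K E : Type*} [Field K] [AddCommGroup E] [Module K E]
    (V N : Submodule K E) [FiniteDimensional K V] :
    ∃ (r : ℕ) (w : Fin r → E), r + Module.finrank K ↥(V ⊓ N) = Module.finrank K V ∧
      (∀ j, w j ∈ V) ∧ ∀ c : Fin r → K, ∑ j, c j • w j ∈ N → c = 0 := by
  obtain ⟨U, hU⟩ : ∃ U : Submodule K V, U = (V ⊓ N).comap V.subtype := ⟨_, rfl⟩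
  obtain ⟨W, hW⟩ := Submodule.exists_isCompl U
  have h1 := Submodule.finrank_add_eq_of_isCompl hW
  have h2 : Module.finrank K U = Module.finrank K ↥(V ⊓ N) := by
    rw [hU]
    exact LinearEquiv.finrank_eq (Submodule.comapSubtypeEquivOfLe inf_le_left)
  obtain ⟨B, -⟩ : ∃ B : Module.Basis (Fin (Module.finrank K W)) K W, B = Module.finBasis K W :=
    ⟨_, rfl⟩
  refine ⟨Module.finrank K W, fun j => ((B j : V) : E), by omega, fun j => (B j : V).2, ?_⟩
  intro c hc
  have h4 : V.subtype ((∑ j, c j • (B j : W) : W) : V) = ∑ j, c j • ((B j : V) : E) := by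
    rw [Submodule.subtype_apply, Submodule.coe_sum, Submodule.coe_sum]
    rfl
  have h3 : ((∑ j, c j • (B j : W) : W) : V) ∈ U := by
    rw [hU, Submodule.mem_comap, Submodule.mem_inf]
    refine ⟨((∑ j, c j • (B j : W) : W) : V).2, ?_⟩
    rw [h4]
    exact hc
  have h5 : ((∑ j, c j • (B j : W) : W) : V) ∈ U ⊓ W := ⟨h3, Submodule.coe_mem _⟩
  rw [hW.inf_eq_bot, Submodule.mem_bot, Submodule.coe_eq_zero] at h5
  funext j
  exact Fintype.linearIndependent_iff.1 B.linearIndependent c h5 j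

/-- a basis of a complement of the multiples of `f` -/
private theorem gb_basis (f : ℂ[X][X]) (V : Submodule ℂ ℂ[X][X]) [FiniteDimensional ℂ V] :
    ∃ (r : ℕ) (w : Fin r → ℂ[X][X]), r + Module.finrank ℂ ↥(V ⊓ mulF f) = Module.finrank ℂ V ∧
      (∀ j, w j ∈ V) ∧ ∀ c : Fin r → ℂ, f ∣ ∑ j, c j • w j → c = 0 := by
  obtain ⟨r, w, h1, h2, h3⟩ := gb_compl V (mulF f)
  exact ⟨r, w, h1, h2, fun c hc => h3 c (mem_mulF.2 hc)⟩

/-- iterates of a derivation on a linear combination -/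
private theorem gb_iter {f : ℂ[X][X]} {r : ℕ} (w : Fin r → ℂ[X][X]) (c : Fin r → ℂ) (i : ℕ) :
    (dd f)^[i] (∑ j, c j • w j) = ∑ j, c j • (dd f)^[i] (w j) := by
  induction i with
  | zero => rfl
  | succ i ih =>
    rw [Function.iterate_succ_apply', ih, map_sum]
    refine Finset.sum_congr rfl fun j _ => ?_
    rw [Function.iterate_succ_apply', (dd f).map_smul]

theorem exists_germ {f : ℂ[X][X]} (hf : Irreducible f) (h1 : f.natDegree ≠ 0)
    (h2 : ∃ i, (f.coeff i).natDegree ≠ 0) (n : ℕ) (V : ℕ → Submodule ℂ ℂ[X][X])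
    [∀ b, FiniteDimensional ℂ (V b)] (L : ℕ) (hL : ∀ b < n, Module.finrank ℂ (V b) ≤ L) :
    ∃ (x₀ : ℂ) (φ : ℂ[X]), X ^ L ∣ br x₀ φ f ∧ ((loc x₀ φ f).coeff 0).coeff 1 ≠ 0 ∧
      ∀ b < n, ∀ a, a + Module.finrank ℂ ↥(V b ⊓ mulF f) < Module.finrank ℂ (V b) →
        ∃ h ∈ V b, (∀ i < a, (br x₀ φ h).coeff i = 0) ∧ (br x₀ φ h).coeff a ≠ 0 := by
  choose r w hr hwV hw using fun b => gb_basis f (V b)
  have hnd : ¬ f ∣ dy f * ∏ b ∈ Finset.range n,
      (Matrix.of fun i j : Fin (r b) => (dd f)^[(i : ℕ)] (w b j)).det := by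
    intro hd
    rcases hf.prime.dvd_or_dvd hd with hd | hd
    · exact not_dvd_dy h2 hd
    · obtain ⟨b, -, hb⟩ := (Prime.dvd_finset_prod_iff hf.prime _).1 hd
      exact wron hf h1 (w b) (hw b) hb
  obtain ⟨⟨x₀, y₀⟩, hp1, hp2⟩ := exists_point hf hnd
  rw [map_mul, map_prod] at hp2
  have hdy : ev (x₀, y₀) (dy f) ≠ 0 := left_ne_zero_of_mul hp2
  have hdet : ∀ b < n, ev (x₀, y₀)
      (Matrix.of fun i j : Fin (r b) => (dd f)^[(i : ℕ)] (w b j)).det ≠ 0 := by
    intro b hb
    exact (Finset.prod_ne_zero_iff.1 (right_ne_zero_of_mul hp2)) b (Finset.mem_range.2 hb)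
  obtain ⟨φ, hφ, hbr⟩ := exists_branch hp1 hdy (L + 1)
  refine ⟨x₀, φ, (pow_dvd_pow X (Nat.le_succ L)).trans hbr, ?_, ?_⟩
  · rw [coeff_loc_one, hφ]
    exact hdy
  · intro b hb a ha
    have har : a < r b := by
      have := hr b
      omega
    have haL : a < L := by
      have h3 := hL b hb
      omega
    obtain ⟨M, hM⟩ : ∃ M : Matrix (Fin (r b)) (Fin (r b)) ℂ, M =
      Matrix.of fun i j : Fin (r b) => ev (x₀, y₀) ((dd f)^[(i : ℕ)] (w b j)) := ⟨_, rfl⟩
    have hMdet : IsUnit M.det := by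
      rw [isUnit_iff_ne_zero]
      have h3 := hdet b hb
      have h4 : M = (Matrix.of fun i j : Fin (r b) => (dd f)^[(i : ℕ)] (w b j)).map
          (ev (x₀, y₀)).toRingHom := by
        rw [hM]
        rfl
      rw [h4, ← RingHom.mapMatrix_apply, ← RingHom.map_det]
      exact h3
    obtain ⟨c, hc⟩ : ∃ c : Fin (r b) → ℂ, M.mulVec c = Pi.single (⟨a, har⟩ : Fin (r b)) 1 := by
      refine ⟨M⁻¹.mulVec (Pi.single (⟨a, har⟩ : Fin (r b)) 1), ?_⟩
      rw [Matrix.mulVec_mulVec, Matrix.mul_nonsing_inv _ hMdet, Matrix.one_mulVec]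
    have hval : ∀ i : Fin (r b), ev (x₀, y₀) ((dd f)^[(i : ℕ)] (∑ j, c j • w b j)) =
        (Pi.single (⟨a, har⟩ : Fin (r b)) 1 : Fin (r b) → ℂ) i := by
      intro i
      rw [← hc, gb_iter, map_sum, Matrix.mulVec]
      unfold dotProduct
      refine Finset.sum_congr rfl fun j _ => ?_
      have h3 : M i j = ev (x₀, y₀) ((dd f)^[(i : ℕ)] (w b j)) := by
        rw [hM]
        rfl
      rw [map_smul, smul_eq_mul, ← h3, mul_comm]
    refine ⟨∑ j, c j • w b j, Submodule.sum_mem _ fun j _ => Submodule.smul_mem _ _ (hwV b j), ?_⟩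
    apply ord_branch hφ hbr hdy haL
    · intro i hi
      have h3 := hval ⟨i, by omega⟩
      rw [Pi.single_eq_of_ne (by
        intro h0
        rw [Fin.mk.injEq] at h0
        omega)] at h3
      exact h3
    · have h3 := hval ⟨a, har⟩
      rw [Pi.single_eq_same] at h3
      have h4 : ev (x₀, y₀) ((dd f)^[a] (∑ j, c j • w b j)) = 1 := h3
      rw [h4]
      exact one_ne_zero

end Pool.Agent.Lib.MP_6b2d39_agHal
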