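import Pool.Agent.Lib.MP_6b2d39_agHal.Irr
import Pool.Agent.Lib.MP_6b2d39_agHal.Row
import Pool.Agent.Lib.MP_6b2d39_agHal.Dia
import Pool.Agent.Lib.MP_6b2d39_agHal.Arith

/-!
The diagram of `Sp (d + 1) m` with respect to the curve `G` of degree `3 N` with nine points of multiplicity `N`.

PROOFS. `quo_sp`: `Hal.pow_mem` with `n = d + 1`. `finrank_quo`: `exact_eq` for `d - k * (3 * N)` and `m i - k * N`.
`hal_row`: `finrank_quo` for `k` and `k + 1` and `ar_row`.
-/

open Polynomial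

set_option autoImplicit false

namespace Pool.Agent.Lib.MP_6b2d39_agHal

open Pool.Agent.Lib.MP_6b2d39_ag Pool.Agent.Lib.MP_6b2d39_agWin Pool.Agent.Lib.MP_6b2d39_agNw

variable {N : ℕ} {t : Fin 9 → ℂ} {G : ℂ[X][X]}

private theorem hr_le {m : Fin 9 → ℕ} (hm : Antitone m) {a : ℕ} (hk : a ≤ m 8) (i : Fin 9) :
    a ≤ m i := hk.trans (hm (Fin.le_last i))

private theorem hr_sum {m : Fin 9 → ℕ} {a : ℕ} (h : ∀ i, a ≤ m i) :
    ∑ i, (m i - a) + 9 * a = ∑ i, m i := by
  have h1 : ∑ _i : Fin 9, a = 9 * a := by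
    rw [Finset.sum_const, Finset.card_univ, Fintype.card_fin, smul_eq_mul]
  rw [← h1, ← Finset.sum_add_distrib]
  exact Finset.sum_congr rfl fun i _ => Nat.sub_add_cancel (h i)

theorem Hal.quo_sp (h : Hal N t G) {n k : ℕ} {m : Fin 9 → ℕ} (hk : ∀ i, k * N ≤ m i)
    (hn : k * (3 * N) ≤ n) :
    quo G k (Sp n (fun i => gam (t i)) m) =
      Sp (n - k * (3 * N)) (fun i => gam (t i)) (fun i => m i - k * N) := by
  ext F
  exact h.pow_mem hk hn F

theorem Hal.finrank_quo (h : Hal N t G) {d s k : ℕ} {m : Fin 9 → ℕ} (hm : Antitone m)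
    (hr : m 0 + m 1 + m 2 ≤ d) (hs : 1 ≤ s) (hd : 3 * d = ∑ i, m i + s) (hk : k * N ≤ m 8) :
    Module.finrank ℂ (quo G k (Sp (d + 1) (fun i => gam (t i)) m)) +
      ∑ i, (m i - k * N + 1).choose 2 = (d - k * (3 * N) + 2).choose 2 := by
  have h0 : ∀ i, k * N ≤ m i := hr_le hm hk
  have h1 := h0 0
  have h2 := h0 1
  have h3 := h0 2
  have h4 : k * (3 * N) = 3 * (k * N) := by ring
  have h5 : d + 1 - k * (3 * N) = d - k * (3 * N) + 1 := by omega
  have h6 := hr_sum h0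
  rw [h.quo_sp h0 (by omega), h5]
  refine exact_eq h.tor.toPar (m := fun i => m i - k * N)
    (fun i j hij => Nat.sub_le_sub_right (hm hij) _) ?_ ?_
  · omega
  · omega

theorem Hal.row (h : Hal N t G) {d s k : ℕ} {m : Fin 9 → ℕ} (hm : Antitone m)
    (hr : m 0 + m 1 + m 2 ≤ d) (hs : 1 ≤ s) (hd : 3 * d = ∑ i, m i + s)
    (hk : (k + 1) * N ≤ m 8) :
    Module.finrank ℂ (quo G k (Sp (d + 1) (fun i => gam (t i)) m)) =
      N * s + Module.finrank ℂ (quo G (k + 1) (Sp (d + 1) (fun i => gam (t i)) m)) := by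
  have h0 : ∀ i, (k + 1) * N ≤ m i := hr_le hm hk
  have h7 : (k + 1) * N = k * N + N := by ring
  have h4 : k * (3 * N) = 3 * (k * N) := by ring
  have h8 : (k + 1) * (3 * N) = 3 * (k * N) + 3 * N := by ring
  have h0' : ∀ i, k * N ≤ m i := fun i => by
    have := h0 i
    omega
  have h9 : ∀ i, N ≤ m i - k * N := fun i => by
    have := h0 i
    omega
  have h1 := h0 0
  have h2 := h0 1
  have h3 := h0 2
  have h6 := hr_sum h0'
  have e1 := h.finrank_quo hm hr hs hd (k := k) (h0' 8)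
  have e2 := h.finrank_quo hm hr hs hd (k := k + 1) hk
  have e3 := ar_row (s := s) (N := N) (d := d - k * (3 * N)) (m := fun i => m i - k * N) h9
    (by omega) (by omega)
  have e4 : ∀ i, m i - k * N - N = m i - (k + 1) * N := fun i => by omega
  have e5 : d - k * (3 * N) - 3 * N = d - (k + 1) * (3 * N) := by omega
  simp only [e4, e5] at e3
  omega

end Pool.Agent.Lib.MP_6b2d39_agHal
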