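import Pool.Agent.Lib.MP_6b2d39_agHal.IrrA

/-!
The member `G` of the Halphen pencil is irreducible.

PROOF of `irr`: `G = A B`. Let `a`, `b` be the total degrees (`¬ InV a A`, `InV (a + 1) A`, same for `B`; `exists_inV`):
`a + b ≤ 3 N` by `inV_cancel`. `natDegree (res A) ≤ 3 a`, `natDegree (res B) ≤ 3 b` and `res A * res B = c ∏ (X - t i) ^ N` has
degree `9 N`, so `natDegree (res A) = 3 a`, `res A = c' ∏ (X - t i) ^ k i` (a divisor of a product of powers of linear factors),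
`∑ k i = 3 a`. Gluing and `Tor.rels`: `k i = k`, `N ∣ k`, `k ≤ N`: `k = 0` or `k = N`, so `a = 0` or `b = 0`, and a polynomial
of total degree `0` is a constant.
-/

open Polynomial

set_option autoImplicit false

namespace Pool.Agent.Lib.MP_6b2d39_agHal

open Pool.Agent.Lib.MP_6b2d39_ag

variable {N : ℕ} {t : Fin 9 → ℂ} {G : ℂ[X][X]} {c : ℂ}

/-- Proof: `mult_cancel` with `not_mult_pow`, `inV_cancel` with `not_inV_pow`; back: `mult_mul`, `inV_mul`. -/
theorem Hal.pow_mem (h : Hal N t G) {n k : ℕ} {m : Fin 9 → ℕ} (hk : ∀ i, k * N ≤ m i)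
    (hn : k * (3 * N) ≤ n) (F : ℂ[X][X]) :
    G ^ k * F ∈ Sp n (fun i => gam (t i)) m ↔
      F ∈ Sp (n - k * (3 * N)) (fun i => gam (t i)) (fun i => m i - k * N) := by
  have hG := mem_Sp.1 h.mem
  have hn' : k * (3 * N) + (n - k * (3 * N)) = n := Nat.add_sub_cancel' hn
  have hk' : ∀ i, k * N + (m i - k * N) = m i := fun i => Nat.add_sub_cancel' (hk i)
  constructor
  · intro hF
    obtain ⟨h1, h2⟩ := mem_Sp.1 hF
    refine mem_Sp.2 ⟨?_, fun i => ?_⟩
    · rw [← hn'] at h1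
      exact inV_cancel (not_inV_pow h.not_inV k) h1
    · have h3 := h2 i
      rw [← hk' i] at h3
      exact mult_cancel (not_mult_pow (h.not_mult i) k) h3
  · intro hF
    obtain ⟨h1, h2⟩ := mem_Sp.1 hF
    refine mem_Sp.2 ⟨?_, fun i => ?_⟩
    · rw [← hn']
      exact inV_mul (inV_pow hG.1 k) h1
    · rw [← hk' i]
      exact mult_mul (mult_pow (hG.2 i) k) (h2 i)

end Pool.Agent.Lib.MP_6b2d39_agHal
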