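import Pool.Agent.Lib.MP_6b2d39_agHal.Pencil

/-!
The member `G` of the Halphen pencil is irreducible.

PROOF of `irr`: `G = A B`. Let `a`, `b` be the total degrees (`¬ InV a A`, `InV (a + 1) A`, same for `B`; `exists_inV`):
`a + b ≤ 3 N` by `inV_cancel`. `natDegree (res A) ≤ 3 a`, `natDegree (res B) ≤ 3 b` and `res A * res B = c ∏ (X - t i) ^ N` has
degree `9 N`, so `natDegree (res A) = 3 a`, `res A = c' ∏ (X - t i) ^ k i` (a divisor of a product of powers of linear factors),
`∑ k i = 3 a`. Gluing and `Tor.rels`: `k i = k`, `N ∣ k`, `k ≤ N`: `k = 0` or `k = N`, so `a = 0` or `b = 0`, and a polynomial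
of total degree `0` is a constant.
-/

open Polynomial

set_option autoImplicit false

namespace Pool.Agent.Lib.MP_6b2d39_agHal

open Pool.Agent.Lib.MP_6b2d39_ag

variable {N : ℕ} {t : Fin 9 → ℂ} {G : ℂ[X][X]} {c : ℂ}

private theorem irra_ne (t : Fin 9 → ℂ) (N : ℕ) : (∏ i, (X - C (t i)) ^ N : ℂ[X]) ≠ 0 :=
  Finset.prod_ne_zero_iff.2 fun i _ => pow_ne_zero _ (X_sub_C_ne_zero (t i))

private theorem irra_count {t : Fin 9 → ℂ} (ht : Function.Injective t) (N : ℕ) (i : Fin 9) :
    (∏ j, (X - C (t j)) ^ N : ℂ[X]).roots.count (t i) = N := by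
  rw [roots_prod _ _ (irra_ne t N), Multiset.count_bind]
  have h1 : ∀ j : Fin 9, Multiset.count (t i) ((X - C (t j)) ^ N : ℂ[X]).roots =
      if j = i then N else 0 := by
    intro j
    rw [roots_pow, roots_X_sub_C, Multiset.count_nsmul, Multiset.count_singleton]
    by_cases h : j = i
    · rw [if_pos h, if_pos (by rw [h]), mul_one]
    · rw [if_neg h, if_neg (fun h2 => h (ht h2).symm), mul_zero]
  have h2 : (Multiset.map (fun j => Multiset.count (t i) ((X - C (t j)) ^ N : ℂ[X]).roots)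
      (Finset.univ : Finset (Fin 9)).val).sum = ∑ j : Fin 9, if j = i then N else 0 := by
    rw [Multiset.map_congr rfl fun j _ => h1 j]
    rfl
  rw [h2, Finset.sum_ite_eq' Finset.univ i, if_pos (Finset.mem_univ i)]

/-- a divisor of a product of powers of different linear factors -/
theorem dvd_prod_lin {t : Fin 9 → ℂ} (ht : Function.Injective t) {N : ℕ} {A : ℂ[X]}
    (h : A ∣ ∏ i, (X - C (t i)) ^ N) : ∃ (c : ℂ) (k : Fin 9 → ℕ), c ≠ 0 ∧ (∀ i, k i ≤ N) ∧
      A = C c * ∏ i, (X - C (t i)) ^ k i := by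
  classical
  have hP := irra_ne t N
  have hA : A ≠ 0 := fun h0 => hP (by rw [h0] at h; exact zero_dvd_iff.1 h)
  have hle : A.roots ≤ (∏ j, (X - C (t j)) ^ N : ℂ[X]).roots := roots.le_of_dvd hP h
  refine ⟨A.leadingCoeff, fun i => A.roots.count (t i), leadingCoeff_ne_zero.2 hA, fun i => ?_, ?_⟩
  · exact le_of_le_of_eq (Multiset.count_le_of_le _ hle) (irra_count ht N i)
  · have hs : (A.roots.map fun a => X - C a).prod = ∏ i, (X - C (t i)) ^ A.roots.count (t i) := by
      rw [Finset.prod_multiset_map_count]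
      have h1 : A.roots.toFinset ⊆ Finset.univ.image t := by
        intro a ha
        rw [Multiset.mem_toFinset] at ha
        have h2 := Multiset.mem_of_le hle ha
        rw [mem_roots hP, IsRoot.def, eval_prod] at h2
        obtain ⟨i, -, hi⟩ := Finset.prod_eq_zero_iff.1 h2
        rw [eval_pow, eval_sub, eval_X, eval_C] at hi
        have h3 : a - t i = 0 := by
          by_contra hne
          exact absurd hi (pow_ne_zero _ hne)
        exact Finset.mem_image.2 ⟨i, Finset.mem_univ _, (sub_eq_zero.1 h3).symm⟩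
      rw [Finset.prod_subset h1 fun a _ ha => by
        rw [Multiset.mem_toFinset] at ha
        rw [Multiset.count_eq_zero.2 ha, pow_zero], Finset.prod_image fun i _ j _ hij => ht hij]
    rw [← hs]
    exact ((IsAlgClosed.splits A).eq_prod_roots)

/-- the data of a member of the pencil -/
structure Hal (N : ℕ) (t : Fin 9 → ℂ) (G : ℂ[X][X]) : Prop where
  pos : 1 ≤ N
  tor : Tor N t
  mem : G ∈ Sp (3 * N + 1) (fun i => gam (t i)) (fun _ => N)
  res : ∃ c : ℂ, c ≠ 0 ∧ res G = C c * ∏ i, (X - C (t i)) ^ N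

theorem exists_hal (N : ℕ) (hN : 1 ≤ N) : ∃ t G, Hal N t G := by
  obtain ⟨t, ht⟩ := exists_tor hN
  obtain ⟨G, hG, hr⟩ := exists_G ht hN
  exact ⟨t, G, hN, ht, hG, hr⟩

theorem Hal.ne_zero (h : Hal N t G) : G ≠ 0 := by
  rintro rfl
  obtain ⟨c, hc, hr⟩ := h.res
  rw [map_zero] at hr
  exact mul_ne_zero (C_ne_zero.2 hc) (irra_ne t N) hr.symm

/-- exact total degree -/
theorem Hal.not_inV (h : Hal N t G) : ¬ InV (3 * N) G := by
  intro hI
  obtain ⟨c, hc, hr⟩ := h.res
  have hN := h.pos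
  have h1 : 3 * N = (3 * N - 1) + 1 := by omega
  rw [h1] at hI
  have h2 := natDegree_res hI
  have h3 : (Polynomial.natDegree (∏ i : Fin 9, (X - C (t i)) ^ N : ℂ[X])) = 9 * N := by
    rw [natDegree_prod _ _ fun i _ => pow_ne_zero _ (X_sub_C_ne_zero (t i))]
    have h4 : ∀ i ∈ (Finset.univ : Finset (Fin 9)), ((X - C (t i)) ^ N : ℂ[X]).natDegree = N := by
      intro i _
      rw [natDegree_pow, natDegree_X_sub_C, mul_one]
    rw [Finset.sum_congr rfl h4, Finset.sum_const, Finset.card_univ, Fintype.card_fin, smul_eq_mul]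
  rw [hr, natDegree_C_mul hc, h3] at h2
  omega

/-- exact multiplicity -/
theorem Hal.not_mult (h : Hal N t G) (i : Fin 9) : ¬ Mult (N + 1) (gam (t i)) G := by
  classical
  intro hm
  obtain ⟨c, hc, hr⟩ := h.res
  have h1 := mult_res hm
  have h0 : Pool.Agent.Lib.MP_6b2d39_agHal.res G ≠ 0 := by
    rw [hr]
    exact mul_ne_zero (C_ne_zero.2 hc) (irra_ne t N)
  have h2 := (le_rootMultiplicity_iff h0).2 h1
  rw [← count_roots, hr, roots_C_mul _ hc, irra_count h.tor.inj] at h2
  omega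

end Pool.Agent.Lib.MP_6b2d39_agHal
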