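import Pool.Agent.Lib.MP_6b2d39_agHal.IrrA

/-!
The member `G` of the Halphen pencil is irreducible.

PROOF of `irr`: `G = A B`. Let `a`, `b` be the total degrees (`¬ InV a A`, `InV (a + 1) A`, same for `B`; `exists_inV`):
`a + b ≤ 3 N` by `inV_cancel`. `natDegree (res A) ≤ 3 a`, `natDegree (res B) ≤ 3 b` and `res A * res B = c ∏ (X - t i) ^ N` has
degree `9 N`, so `natDegree (res A) = 3 a`, `res A = c' ∏ (X - t i) ^ k i` (a divisor of a product of powers of linear factors),
`∑ k i = 3 a`. Gluing and `Tor.rels`: `k i = k`, `N ∣ k`, `k ≤ N`: `k = 0` or `k = N`, so `a = 0` or `b = 0`, and a polynomial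
of total degree `0` is a constant.
-/

open Polynomial

set_option autoImplicit false

namespace Pool.Agent.Lib.MP_6b2d39_agHal

open Pool.Agent.Lib.MP_6b2d39_ag

variable {N : ℕ} {t : Fin 9 → ℂ} {G : ℂ[X][X]} {c : ℂ}

/-- A polynomial of total degree `0` is a constant. -/
private theorem isUnit_of_inV {A : ℂ[X][X]} (h0 : A ≠ 0) (h : InV 1 A) : IsUnit A := by
  have h1 : A = C (C ((A.coeff 0).coeff 0)) := by
    ext i j
    rcases Nat.eq_zero_or_pos i with hi | hi
    · subst hi
      rw [coeff_C_zero]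
      rcases Nat.eq_zero_or_pos j with hj | hj
      · subst hj
        rw [coeff_C_zero]
      · rw [h 0 j (by omega), coeff_C_of_ne_zero (by omega)]
    · rw [h i j (by omega), coeff_C_of_ne_zero (by omega), coeff_zero]
  have h2 : (A.coeff 0).coeff 0 ≠ 0 := by
    intro h3
    rw [h3, map_zero, map_zero] at h1
    exact h0 h1
  rw [h1, isUnit_C, isUnit_C]
  exact isUnit_iff_ne_zero.2 h2

/-- The exact total degree. -/
private theorem exists_deg {A : ℂ[X][X]} (h0 : A ≠ 0) : ∃ a, ¬ InV a A ∧ InV (a + 1) A := by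
  classical
  have hex : ∃ n, InV n A := exists_inV A
  have h1 := Nat.find_spec hex
  rcases Nat.eq_zero_or_pos (Nat.find hex) with h2 | h2
  · rw [h2] at h1
    exact absurd (InV_zero h1) h0
  · refine ⟨Nat.find hex - 1, Nat.find_min hex (by omega), ?_⟩
    rw [Nat.sub_add_cancel h2]
    exact h1

private theorem natDegree_prod_lin (t : Fin 9 → ℂ) (k : Fin 9 → ℕ) {c : ℂ} (hc : c ≠ 0) :
    (C c * ∏ i, (X - C (t i)) ^ k i).natDegree = ∑ i, k i := by
  rw [natDegree_C_mul hc, natDegree_prod _ _ fun i _ => pow_ne_zero _ (X_sub_C_ne_zero _)]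
  exact Finset.sum_congr rfl fun i _ => by rw [natDegree_pow, natDegree_X_sub_C, mul_one]

/-- one factor -/
private theorem irr_fac (h : Hal N t G) {A B : ℂ[X][X]} {a : ℕ} (hAB : G = A * B)
    (hd : (MP_6b2d39_agHal.res A).natDegree = 3 * a) : a = 0 ∨ a = 3 * N := by
  obtain ⟨c, hc, hres⟩ := h.res
  have h1 : MP_6b2d39_agHal.res A ∣ ∏ i, (X - C (t i)) ^ N := by
    have h2 : MP_6b2d39_agHal.res A ∣ C c * ∏ i, (X - C (t i)) ^ N := by
      rw [← hres, hAB, map_mul]
      exact dvd_mul_right _ _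
    have h3 : IsUnit (C c : ℂ[X]) := isUnit_C.2 (isUnit_iff_ne_zero.2 hc)
    exact (h3.dvd_mul_left).1 h2
  obtain ⟨c', k, hc', hk, hA⟩ := dvd_prod_lin h.tor.inj h1
  have h2 := res_glue A
  rw [hA, eval_mul, eval_mul, eval_C, eval_C, eval_prod, eval_prod] at h2
  simp only [eval_pow, eval_sub, eval_X, eval_C] at h2
  have h3 := mul_left_cancel₀ hc' h2
  obtain ⟨h4, h5⟩ := h.tor.rels k h3
  rw [hA, natDegree_prod_lin t k hc'] at hd
  have h6 : ∑ i, k i = 9 * k 0 := by
    rw [Finset.sum_congr rfl fun i _ => h4 i]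
    simp
  rw [h6] at hd
  have hN := h.pos
  obtain ⟨q, hq⟩ := h5
  have hk0 := hk 0
  have h7 : q ≤ 1 := by
    by_contra hcon
    push Not at hcon
    have : N * 2 ≤ N * q := Nat.mul_le_mul_left N hcon
    omega
  interval_cases q
  · left; omega
  · right; omega

theorem Hal.irr (h : Hal N t G) : Irreducible G := by
  have hG0 : G ≠ 0 := h.ne_zero
  obtain ⟨c, hc, hres⟩ := h.res
  have hN := h.pos
  have hdeg : (MP_6b2d39_agHal.res G).natDegree = 9 * N := by
    rw [hres, natDegree_prod_lin t (fun _ => N) hc]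
    simp
  refine ⟨fun hu => ?_, fun A B hAB => ?_⟩
  · have h1 : IsUnit (MP_6b2d39_agHal.res G) := hu.map MP_6b2d39_agHal.res
    rw [natDegree_eq_zero_of_isUnit h1] at hdeg
    omega
  · have hA0 : A ≠ 0 := by
      rintro rfl
      rw [zero_mul] at hAB
      exact hG0 hAB
    have hB0 : B ≠ 0 := by
      rintro rfl
      rw [mul_zero] at hAB
      exact hG0 hAB
    obtain ⟨a, ha, ha'⟩ := exists_deg hA0
    obtain ⟨b, hb, hb'⟩ := exists_deg hB0
    have hab : a + b ≤ 3 * N := by
      by_contra hcon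
      push Not at hcon
      have h1 : InV (3 * N + 1) (A * B) := by
        rw [← hAB]
        exact h.mem.1
      exact hb (inV_cancel ha (inV_mono hcon h1))
    have h1 := natDegree_res ha'
    have h2 := natDegree_res hb'
    have hresAB : MP_6b2d39_agHal.res A * MP_6b2d39_agHal.res B = MP_6b2d39_agHal.res G := by
      rw [hAB, map_mul]
    have hres0 : MP_6b2d39_agHal.res G ≠ 0 := by
      intro h3
      rw [h3, natDegree_zero] at hdeg
      omega
    have hrA : MP_6b2d39_agHal.res A ≠ 0 := by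
      intro h3
      rw [h3, zero_mul] at hresAB
      exact hres0 hresAB.symm
    have hrB : MP_6b2d39_agHal.res B ≠ 0 := by
      intro h3
      rw [h3, mul_zero] at hresAB
      exact hres0 hresAB.symm
    have h3 := natDegree_mul hrA hrB
    rw [hresAB, hdeg] at h3
    rcases irr_fac (a := a) h hAB (by omega) with h4 | h4
    · left
      subst h4
      exact isUnit_of_inV hA0 ha'
    · right
      have h5 : b = 0 := by omega
      subst h5
      exact isUnit_of_inV hB0 hb'

/-- `G` depends on `x`: otherwise it is an irreducible polynomial in `y`, of degree one, but `¬ InV 3 G` -/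
theorem Hal.natDegree (h : Hal N t G) : G.natDegree ≠ 0 := by
  intro h0
  obtain ⟨g, hg⟩ : ∃ g : ℂ[X], G = C g := ⟨G.coeff 0, eq_C_of_natDegree_eq_zero h0⟩
  have hirr := h.irr
  rw [hg] at hirr
  have h1 : Irreducible g := by
    refine ⟨fun hu => hirr.1 (isUnit_C.2 hu), fun a b hab => ?_⟩
    have h2 := hirr.2 (a := C a) (b := C b) (by rw [hab, C_mul])
    exact h2.imp isUnit_C.1 isUnit_C.1
  have h2 := IsAlgClosed.degree_eq_one_of_irreducible ℂ h1
  have h3 : g.natDegree = 1 := natDegree_eq_of_degree_eq_some h2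
  apply h.not_inV
  intro a b hab
  have hN := h.pos
  rw [hg]
  rcases Nat.eq_zero_or_pos a with ha | ha
  · subst ha
    rw [coeff_C_zero]
    exact coeff_eq_zero_of_natDegree_lt (by omega)
  · rw [coeff_C_of_ne_zero (by omega), coeff_zero]

/-- `G` depends on `y` -/
theorem Hal.dep (h : Hal N t G) : ∃ i, (G.coeff i).natDegree ≠ 0 := by
  by_contra hcon
  push Not at hcon
  have hmap : ∀ f : ℂ[X], (f.map (C : ℂ →+* ℂ[X])).map (evalRingHom (0 : ℂ)) = f := by
    intro f
    rw [Polynomial.map_map]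
    have h1 : (evalRingHom (0 : ℂ)).comp (C : ℂ →+* ℂ[X]) = RingHom.id ℂ := by
      ext x
      simp
    rw [h1, Polynomial.map_id]
  obtain ⟨f, hf⟩ : ∃ f : ℂ[X], G = f.map C := by
    refine ⟨G.map (evalRingHom (0 : ℂ)), ?_⟩
    ext1 i
    rw [Polynomial.map_map, coeff_map]
    have h1 := eq_C_of_natDegree_eq_zero (hcon i)
    rw [h1]
    simp
  have hirr := h.irr
  rw [hf] at hirr
  have h1 : Irreducible f := by
    refine ⟨fun hu => hirr.1 (hu.map (mapRingHom (C : ℂ →+* ℂ[X]))), fun a b hab => ?_⟩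
    have h2 := hirr.2 (a := a.map C) (b := b.map C) (by rw [hab, Polynomial.map_mul])
    have h3 : ∀ a : ℂ[X], IsUnit (a.map (C : ℂ →+* ℂ[X])) → IsUnit a := by
      intro a ha
      have h4 := ha.map (mapRingHom (evalRingHom (0 : ℂ)))
      rw [coe_mapRingHom, hmap] at h4
      exact h4
    exact h2.imp (h3 a) (h3 b)
  have h2 := IsAlgClosed.degree_eq_one_of_irreducible ℂ h1
  have h3 : f.natDegree = 1 := natDegree_eq_of_degree_eq_some h2
  apply h.not_inV
  intro a b hab
  have hN := h.pos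
  rw [hf, coeff_map]
  rcases Nat.eq_zero_or_pos b with hb | hb
  · subst hb
    rw [coeff_C_zero]
    exact coeff_eq_zero_of_natDegree_lt (by omega)
  · rw [coeff_C_of_ne_zero (by omega)]

end Pool.Agent.Lib.MP_6b2d39_agHal
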