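import Pool.Agent.Lib.MP_6b2d39_agHal.Mul
import Pool.Agent.Lib.MP_6b2d39_agNw.Fill

/-!
Light points off a given curve `G = 0`.

PROOF of `kill_off`: `EmpP` gives positions `(x i, y i)`; `G ≠ 0`, so there is a vector `(u, v)` with `G (x i + u, y i + v) ≠ 0`
for every `i` (the product over the finite type `ι` of the translated polynomials is not zero: `tr_injective`, `tr` is an algebra
homomorphism; a nonzero polynomial has a point where it does not vanish). Translate: if `F` has the multiplicities at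
`(x i + u, y i + v)` then `tr (u, v) F` has them at `(x i, y i)` (`mult_comp`), `tr` keeps the total degree (`coeff_tr`, or `InV` of
Taylor expansions), `tr_injective`.
PROOF of `kill_simple`: induction on `U` (or on `finrank V`): if `V ≠ 0` take `F ∈ V`, `F ≠ 0`, and a point with `F * G ≠ 0` there;
`V ⊓ ker` has smaller dimension.
-/

open Polynomial

set_option autoImplicit false

namespace Pool.Agent.Lib.MP_6b2d39_agHal

open Pool.Agent.Lib.MP_6b2d39_ag Pool.Agent.Lib.MP_6b2d39_agWin Pool.Agent.Lib.MP_6b2d39_agNw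

/-- a nonzero polynomial does not vanish somewhere -/
theorem exists_ev_ne {G : ℂ[X][X]} (hG : G ≠ 0) : ∃ p : ℂ × ℂ, ev p G ≠ 0 := by
  have h1 : ∃ x : ℂ, eval (C x) G ≠ 0 := by
    by_contra h
    push Not at h
    refine hG (Polynomial.eq_zero_of_infinite_isRoot G ?_)
    refine Set.Infinite.mono (s := Set.range (fun x : ℂ => (C x : ℂ[X]))) ?_
      (Set.infinite_range_of_injective (C_injective (R := ℂ)))
    rintro _ ⟨x, rfl⟩
    exact h x
  obtain ⟨x, hx⟩ := h1
  have h2 : ∃ y : ℂ, eval y (eval (C x) G) ≠ 0 := by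
    by_contra h
    push Not at h
    exact hx (Polynomial.funext (fun y => by rw [h y, eval_zero]))
  obtain ⟨y, hy⟩ := h2
  refine ⟨(x, y), ?_⟩
  rw [ev, coe_aevalAeval_eq_evalEval]
  exact hy

private theorem ka_C (q : ℂ × ℂ) (c : ℂ) : ev q (C (C c)) = c := (ev q).commutes c

private theorem ka_X (q : ℂ × ℂ) : ev q (C X) = q.2 := aevalAeval_X _ _

private theorem ka_Y (q : ℂ × ℂ) : ev q X = q.1 := aevalAeval_Y _ _

private theorem ka_ev_tr (q p : ℂ × ℂ) (G : ℂ[X][X]) :
    ev q (tr p G) = ev (q.1 + p.1, q.2 + p.2) G := by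
  have e1 : ∀ c, tr p (C (C c)) = C (C c) := fun c => (tr p).commutes c
  have e2 : tr p (C X) = C (X + C p.2) := aevalAeval_X _ _
  have e3 : tr p X = X + C (C p.1) := aevalAeval_Y _ _
  have h1 : (ev q).toRingHom.comp (tr p).toRingHom =
      (ev (q.1 + p.1, q.2 + p.2)).toRingHom := by
    apply Polynomial.ringHom_ext'
    · apply Polynomial.ringHom_ext'
      · refine RingHom.ext fun c => ?_
        change ev q (tr p (C (C c))) = ev (q.1 + p.1, q.2 + p.2) (C (C c))
        rw [e1, ka_C, ka_C]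
      · change ev q (tr p (C X)) = ev (q.1 + p.1, q.2 + p.2) (C X)
        rw [e2, C_add, map_add, ka_X, ka_C, ka_X]
    · change ev q (tr p X) = ev (q.1 + p.1, q.2 + p.2) X
      rw [e3, map_add, ka_Y, ka_C, ka_Y]
  exact congrArg (fun f : ℂ[X][X] →+* ℂ => f G) h1

private theorem ka_deg_lt_succ {R : Type*} [CommRing R] {f : R[X]} {k : ℕ} :
    f.degree < ((k + 1 : ℕ) : WithBot ℕ) ↔ f.natDegree ≤ k := by
  rw [natDegree_le_iff_degree_le]
  by_cases h : f = 0
  · subst h
    rw [degree_zero]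
    exact ⟨fun _ => bot_le, fun _ => WithBot.bot_lt_coe _⟩
  · rw [degree_eq_natDegree h]
    rw [Nat.cast_lt, Nat.cast_le]
    omega

private theorem ka_mono (p : ℂ × ℂ) (i j : ℕ) (c : ℂ) :
    (tau (tr p (monomial i (monomial j c)))).natDegree ≤ i + j := by
  have e0 : ∀ c : ℂ, (C (C c) : ℂ[X][X]) = algebraMap ℂ ℂ[X][X] c := fun _ => rfl
  have e1 : ∀ c : ℂ, tau (C (C c)) = C (C (C c)) := by
    intro c
    rw [e0, AlgHom.commutes]
    rfl
  have e2 : tr p (C (C c)) = C (C c) := by
    rw [e0, AlgHom.commutes]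
  have e3 : tau (tr p (C X)) = C (C X) * X + C (C (C p.2)) := by
    have e4 : tr p (C X) = C X + C (C p.2) := by
      unfold tr
      rw [aevalAeval_X, C_add]
    have e5 : tau (C X) = C (C X) * X := by
      unfold tau
      rw [aevalAeval_X]
    rw [e4, map_add, e5, e1]
  have e6 : tau (tr p X) = C X * X + C (C (C p.1)) := by
    have e4 : tr p X = X + C (C p.1) := by
      unfold tr
      rw [aevalAeval_Y]
    have e5 : tau X = C X * X := by
      unfold tau
      rw [aevalAeval_Y]
    rw [e4, map_add, e5, e1]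
  have h1 : tau (tr p (monomial i (monomial j c))) =
      C (C (C c)) * (C (C X) * X + C (C (C p.2))) ^ j * (C X * X + C (C (C p.1))) ^ i := by
    rw [← C_mul_X_pow_eq_monomial, ← C_mul_X_pow_eq_monomial, C_mul, C_pow, map_mul, map_mul,
      map_mul, map_mul, map_pow, map_pow, map_pow, map_pow, e2, e1, e3, e6]
  have h2 : ∀ u v : ℂ[X][X], (C u * X + C v : ℂ[X][X][X]).natDegree ≤ 1 := by
    intro u v
    exact natDegree_linear_le
  rw [h1]
  refine natDegree_mul_le.trans ?_
  have h3 : (C (C (C c)) * (C (C X) * X + C (C (C p.2))) ^ j : ℂ[X][X][X]).natDegree ≤ j := by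
    refine (natDegree_C_mul_le _ _).trans (natDegree_pow_le.trans ?_)
    exact (Nat.mul_le_mul_left j (h2 _ _)).trans (by omega)
  have h4 : ((C X * X + C (C (C p.1))) ^ i : ℂ[X][X][X]).natDegree ≤ i := by
    refine natDegree_pow_le.trans ?_
    exact (Nat.mul_le_mul_left i (h2 _ _)).trans (by omega)
  omega

private theorem ka_inV_tr {n : ℕ} {F : ℂ[X][X]} (hF : InV n F) (p : ℂ × ℂ) : InV n (tr p F) := by
  rw [inV_iff, ← mem_degreeLT]
  rw [F.as_sum_support, map_sum, map_sum]
  refine Submodule.sum_mem _ fun i _ => ?_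
  rw [(F.coeff i).as_sum_support, map_sum, map_sum, map_sum]
  refine Submodule.sum_mem _ fun j hj => ?_
  have h1 : i + j < n := by
    by_contra h2
    exact (mem_support_iff.1 hj) (hF i j (not_lt.1 h2))
  rw [mem_degreeLT]
  refine lt_of_le_of_lt degree_le_natDegree ?_
  rw [Nat.cast_lt]
  exact lt_of_le_of_lt (ka_mono p i j _) h1

theorem kill_off {ι : Type} [Fintype ι] [DecidableEq ι] {n : ℕ} {m : ι → ℕ} {J : Finset ι}
    {G : ℂ[X][X]} (hG : G ≠ 0) (hE : EmpP (dgm (fun b => n + 1 - b) (n + 1)) m J) :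
    ∃ x y : ι → ℂ, (∀ i, ev (x i, y i) G ≠ 0) ∧
      ∀ F, InV (n + 1) F → (∀ i ∈ J, Cond (Finset.Icc 1 (m i)) (x i) (y i) F) → F = 0 := by
  obtain ⟨x, y, -, -, hE⟩ := hE
  have h1 : (∏ i, tr (x i, y i) G) ≠ 0 := by
    rw [Finset.prod_ne_zero_iff]
    intro i _ h
    exact hG (tr_injective _ (h.trans (map_zero _).symm))
  obtain ⟨w, hw⟩ := exists_ev_ne h1
  rw [map_prod, Finset.prod_ne_zero_iff] at hw
  refine ⟨fun i => x i + w.1, fun i => y i + w.2, fun i => ?_, fun F hF hc => ?_⟩
  · have := hw i (Finset.mem_univ i)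
    rw [ka_ev_tr] at this
    simp only at this ⊢
    rw [add_comm (x i), add_comm (y i)]
    exact this
  · have h2 : tr w F = 0 := by
      refine hE _ ?_ ?_
      · intro a b hab
        rw [mem_dgm] at hab
        refine ka_inV_tr hF w a b ?_
        by_contra h
        exact hab ⟨by simp only; omega, by simp only; omega⟩
      · intro i hi
        have h3 : Mult (m i) (x i + w.1, y i + w.2) F := hc i hi
        have h4 := mult_comp (p := (x i, y i)) (C (X + C w.2)) (X + C (C w.1)) ?_ ?_ h3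
        · exact h4
        · rw [C_add, map_add, ka_X, ka_C]
        · rw [map_add, ka_Y, ka_C]
    exact tr_injective w (h2.trans (map_zero _).symm)

end Pool.Agent.Lib.MP_6b2d39_agHal
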