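import Pool.Agent.Lib.MP_6b2d39_agHal.Mul

/-!
The expected dimension is a lower bound.

PROOF. The polynomials of total degree `≤ n` have dimension `(n + 2).choose 2` (coefficients on `Tri n`); multiplicity `m` is
the vanishing of the `(m + 1).choose 2` functionals `F ↦ ((tr p F).coeff a).coeff b`, `a + b < m`.
-/

open Polynomial

set_option autoImplicit false

namespace Pool.Agent.Lib.MP_6b2d39_agHal

open Pool.Agent.Lib.MP_6b2d39_ag

/-- the exponents of total degree less than `m` -/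
private def lowQ (m : ℕ) : Finset (ℕ × ℕ) :=
  (Finset.range m).biUnion fun k => Finset.HasAntidiagonal.antidiagonal k

private theorem low_mem {m : ℕ} {p : ℕ × ℕ} : p ∈ lowQ m ↔ p.1 + p.2 < m := by
  unfold lowQ
  rw [Finset.mem_biUnion]
  constructor
  · rintro ⟨k, hk, h⟩
    rw [Finset.HasAntidiagonal.mem_antidiagonal] at h
    rw [h]
    exact Finset.mem_range.1 hk
  · intro h
    exact ⟨p.1 + p.2, Finset.mem_range.2 h, Finset.HasAntidiagonal.mem_antidiagonal.2 rfl⟩

private theorem low_card (m : ℕ) : (lowQ m).card = (m + 1).choose 2 := by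
  induction m with
  | zero => rfl
  | succ m ih =>
    have h1 : lowQ (m + 1) = lowQ m ∪ Finset.HasAntidiagonal.antidiagonal m := by
      ext p
      rw [Finset.mem_union, low_mem, low_mem, Finset.HasAntidiagonal.mem_antidiagonal]
      omega
    have h2 : Disjoint (lowQ m) (Finset.HasAntidiagonal.antidiagonal m) := by
      rw [Finset.disjoint_left]
      intro p hp hp'
      rw [low_mem] at hp
      rw [Finset.HasAntidiagonal.mem_antidiagonal] at hp'
      omega
    rw [h1, Finset.card_union_of_disjoint h2, ih, Finset.Nat.card_antidiagonal,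
      Nat.choose_succ_succ' (m + 1) 1, Nat.choose_one_right, add_comm]

/-- the polynomial with given coefficients, as a linear map -/
private noncomputable def lowL (P : Finset (ℕ × ℕ)) : (P → ℂ) →ₗ[ℂ] ℂ[X][X] where
  toFun := MP_6b2d39_agWin.ofC
  map_add' c c' := by
    ext a b
    rw [coeff_add, coeff_add]
    by_cases h : (a, b) ∈ P
    · have h1 : ∀ c : P → ℂ, ((MP_6b2d39_agWin.ofC c).coeff a).coeff b = c ⟨(a, b), h⟩ :=
        fun c => MP_6b2d39_agWin.coeff_ofC_self c ⟨(a, b), h⟩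
      rw [h1, h1, h1, Pi.add_apply]
    · rw [MP_6b2d39_agWin.suppP_ofC _ a b h, MP_6b2d39_agWin.suppP_ofC _ a b h,
        MP_6b2d39_agWin.suppP_ofC _ a b h, add_zero]
  map_smul' r c := by
    ext a b
    rw [coeff_smul, coeff_smul, RingHom.id_apply]
    by_cases h : (a, b) ∈ P
    · have h1 : ∀ c : P → ℂ, ((MP_6b2d39_agWin.ofC c).coeff a).coeff b = c ⟨(a, b), h⟩ :=
        fun c => MP_6b2d39_agWin.coeff_ofC_self c ⟨(a, b), h⟩
      rw [h1, h1, Pi.smul_apply]
    · rw [MP_6b2d39_agWin.suppP_ofC _ a b h, MP_6b2d39_agWin.suppP_ofC _ a b h, smul_zero]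

private theorem low_apply (P : Finset (ℕ × ℕ)) (c : P → ℂ) :
    lowL P c = MP_6b2d39_agWin.ofC c := rfl

private theorem low_inj (P : Finset (ℕ × ℕ)) : Function.Injective (lowL P) := by
  intro c c' h
  funext i
  rw [← MP_6b2d39_agWin.coeff_ofC_self c i, ← MP_6b2d39_agWin.coeff_ofC_self c' i,
    ← low_apply, ← low_apply, h]

private theorem low_supp {n : ℕ} {F : ℂ[X][X]} : Rel.SuppP (lowQ n) F ↔ InV n F := by
  constructor
  · intro h a b hab
    refine h a b fun h1 => ?_
    rw [low_mem] at h1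
    exact absurd h1 (Nat.not_lt.2 hab)
  · intro h a b hab
    refine h a b ?_
    rw [low_mem] at hab
    exact Nat.not_lt.1 hab

/-- the space of polynomials of total degree less than `n` -/
theorem finrank_all (n : ℕ) : Module.finrank ℂ (Sp (n + 1) (fun i : Fin 0 => i.elim0)
    (fun i : Fin 0 => i.elim0)) = (n + 2).choose 2 := by
  have h1 : Sp (n + 1) (fun i : Fin 0 => i.elim0) (fun i : Fin 0 => i.elim0) =
      LinearMap.range (lowL (lowQ (n + 1))) := by
    ext F
    rw [mem_Sp, LinearMap.mem_range]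
    constructor
    · rintro ⟨h, -⟩
      exact ⟨_, (MP_6b2d39_agWin.eq_ofC (low_supp.2 h)).symm⟩
    · rintro ⟨c, rfl⟩
      exact ⟨low_supp.1 (MP_6b2d39_agWin.suppP_ofC c), fun i => i.elim0⟩
  rw [h1, LinearMap.finrank_range_of_inj (low_inj _), Module.finrank_fintype_fun_eq_card,
    Fintype.card_coe, low_card]

/-- the conditions -/
private noncomputable def lowC {ι : Type} (P : Finset (ℕ × ℕ)) (p : ι → ℂ × ℂ) (m : ι → ℕ) :
    (P → ℂ) →ₗ[ℂ] ((Σ i : ι, lowQ (m i)) → ℂ) where
  toFun c s := ∑ i : P, Transfer.entry (p s.1).1 (p s.1).2 s.2.1.1 s.2.1.2 i.1.1 i.1.2 * c i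
  map_add' c c' := by
    funext s
    rw [Pi.add_apply, ← Finset.sum_add_distrib]
    exact Finset.sum_congr rfl fun i _ => by rw [Pi.add_apply, mul_add]
  map_smul' r c := by
    funext s
    rw [Pi.smul_apply, RingHom.id_apply, smul_eq_mul, Finset.mul_sum]
    exact Finset.sum_congr rfl fun i _ => by rw [Pi.smul_apply, smul_eq_mul, mul_left_comm]

private theorem lowC_apply {ι : Type} (P : Finset (ℕ × ℕ)) (p : ι → ℂ × ℂ) (m : ι → ℕ)
    (c : P → ℂ) (s : Σ i : ι, lowQ (m i)) : lowC P p m c s =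
      ∑ i : P, Transfer.entry (p s.1).1 (p s.1).2 s.2.1.1 s.2.1.2 i.1.1 i.1.2 * c i := rfl

theorem low {ι : Type} [Fintype ι] (n : ℕ) (p : ι → ℂ × ℂ) (m : ι → ℕ) :
    (n + 2).choose 2 ≤ ∑ i, (m i + 1).choose 2 + Module.finrank ℂ (Sp (n + 1) p m) := by
  have h1 := LinearMap.finrank_range_add_finrank_ker (lowC (lowQ (n + 1)) p m)
  have h0 : (lowQ (n + 1)).card = (n + 2).choose 2 := low_card (n + 1)
  rw [Module.finrank_fintype_fun_eq_card, Fintype.card_coe, h0] at h1
  have h2 : Module.finrank ℂ (LinearMap.range (lowC (lowQ (n + 1)) p m)) ≤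
      ∑ i, (m i + 1).choose 2 := by
    refine (Submodule.finrank_le _).trans ?_
    rw [Module.finrank_fintype_fun_eq_card, Fintype.card_sigma]
    refine le_of_eq (Finset.sum_congr rfl fun i _ => ?_)
    rw [Fintype.card_coe, low_card]
  have h3 : (LinearMap.ker (lowC (lowQ (n + 1)) p m)).map (lowL (lowQ (n + 1))) ≤
      Sp (n + 1) p m := by
    rintro F ⟨c, hc, rfl⟩
    rw [mem_Sp]
    refine ⟨low_supp.1 (MP_6b2d39_agWin.suppP_ofC c), fun i => ?_⟩
    refine (MP_6b2d39_agWin.cond_ofC_iff c (m i) (p i).1 (p i).2).2 fun a b hab => ?_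
    have h4 : lowC (lowQ (n + 1)) p m c = 0 := hc
    have h5 := congrFun h4 ⟨i, ⟨(a, b), low_mem.2 hab⟩⟩
    rw [lowC_apply] at h5
    exact h5
  have h4 := (Submodule.equivMapOfInjective (lowL (lowQ (n + 1))) (low_inj _)
    (LinearMap.ker (lowC (lowQ (n + 1)) p m))).finrank_eq
  have h5 := Submodule.finrank_mono h3
  omega

end Pool.Agent.Lib.MP_6b2d39_agHal
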