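import Pool.Agent.Lib.MP_6b2d39_agHal.Defs

/-!
Multiplicities and total degrees are additive.

PROOFS. `tau F` has the coefficient of `T ^ k` = homogeneous part of degree `k` of `F` (`coeff_tau`, on monomials and by
additivity). Hence `InV n F` iff `(tau F).degree < n` and `Mult n p F` iff `X ^ n ∣ tau (tr p F)` (`Win.cond_iff`: the
coefficients of `tr p F` of total degree `< n` vanish); `tau` and `tr p` are ring homomorphisms into domains, `tau` is
injective, `tr p` is bijective.
-/

open Polynomial

set_option autoImplicit false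

namespace Pool.Agent.Lib.MP_6b2d39_agHal

open Pool.Agent.Lib.MP_6b2d39_ag

variable {p q : ℂ × ℂ} {F G : ℂ[X][X]} {a b n : ℕ}

private theorem mulA_ind {P : ℂ[X][X] → Prop} (h0 : ∀ F G, P F → P G → P (F + G))
    (h1 : ∀ (a b : ℕ) (c : ℂ), P (C (C c) * C X ^ b * X ^ a)) (F : ℂ[X][X]) : P F := by
  induction F using Polynomial.induction_on' with
  | add F G hF hG => exact h0 F G hF hG
  | monomial a g =>
    induction g using Polynomial.induction_on' with
    | add f g hf hg =>
      rw [(monomial a).map_add]
      exact h0 _ _ hf hg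
    | monomial b c =>
      have := h1 a b c
      rw [← C_pow, ← C_mul, C_mul_X_pow_eq_monomial, C_mul_X_pow_eq_monomial] at this
      exact this

private theorem mulA_tau (a b : ℕ) (c : ℂ) : tau (C (C c) * C X ^ b * X ^ a) =
    monomial (a + b) (monomial a (monomial b c)) := by
  have h1 : tau (C (C c)) = C (C (C c)) := tau.commutes c
  have h2 : tau (C X) = C (C X) * X := aevalAeval_X _ _
  have h3 : tau X = C X * X := aevalAeval_Y _ _
  rw [map_mul, map_mul, map_pow, map_pow, h1, h2, h3, ← C_mul_X_pow_eq_monomial, ← C_mul_X_pow_eq_monomial,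
    ← C_mul_X_pow_eq_monomial]
  simp only [C_mul, C_pow]
  ring

private theorem mulA_tr (p : ℂ × ℂ) (F : ℂ[X][X]) :
    tr p F = (taylor (C p.1) F).map (taylorAlgHom p.2).toRingHom := by
  have h1 : (tr p).toRingHom = (mapRingHom (taylorAlgHom p.2).toRingHom).comp
      (taylorAlgHom (C p.1)).toRingHom := by
    have e1 : ∀ c, tr p (C (C c)) = C (C c) := fun c => (tr p).commutes c
    have e2 : tr p (C X) = C (X + C p.2) := aevalAeval_X _ _
    have e3 : tr p X = X + C (C p.1) := aevalAeval_Y _ _
    apply Polynomial.ringHom_ext'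
    · apply Polynomial.ringHom_ext'
      · refine RingHom.ext fun c => ?_
        change tr p (C (C c)) = (taylor (C p.1) (C (C c))).map (taylorAlgHom p.2).toRingHom
        rw [e1, taylor_C, map_C]
        exact congrArg C (taylor_C p.2 c).symm
      · change tr p (C X) = (taylor (C p.1) (C X)).map (taylorAlgHom p.2).toRingHom
        rw [e2, taylor_C, map_C]
        exact congrArg C (taylor_X p.2).symm
    · change tr p X = (taylor (C p.1) X).map (taylorAlgHom p.2).toRingHom
      rw [e3, taylor_X, Polynomial.map_add, map_X, map_C]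
      exact congrArg (fun g => X + C g) (taylor_C p.2 p.1).symm
  exact congrArg (fun f : ℂ[X][X] →+* ℂ[X][X] => f F) h1

theorem coeff_tau (F : ℂ[X][X]) (k i j : ℕ) :
    (((tau F).coeff k).coeff i).coeff j = if i + j = k then (F.coeff i).coeff j else 0 := by
  induction F using mulA_ind with
  | h0 F G hF hG =>
    rw [map_add, coeff_add, coeff_add, coeff_add, coeff_add, coeff_add, hF, hG]
    split_ifs <;> simp
  | h1 a b c =>
    rw [mulA_tau]
    rw [← C_pow, ← C_mul, C_mul_X_pow_eq_monomial, C_mul_X_pow_eq_monomial]
    by_cases h1 : a = i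
    · by_cases h2 : b = j
      · subst h1 h2
        by_cases h3 : a + b = k
        · simp [h3]
        · simp [coeff_monomial, h3]
      · subst h1
        by_cases h3 : a + b = k
        · simp [coeff_monomial, h2, h3]
        · simp [coeff_monomial, h2, h3]
    · by_cases h3 : a + b = k
      · simp [coeff_monomial, h1, h3]
      · simp [coeff_monomial, h1, h3]

theorem coeff_tr (p : ℂ × ℂ) (F : ℂ[X][X]) (i j : ℕ) :
    ((tr p F).coeff i).coeff j = (taylor p.2 ((taylor (C p.1) F).coeff i)).coeff j := by
  rw [mulA_tr, coeff_map]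
  rfl

theorem tr_injective (p : ℂ × ℂ) : Function.Injective (tr p) := by
  intro F G h
  rw [mulA_tr, mulA_tr] at h
  exact taylor_injective _ (map_injective _ (taylor_injective p.2) h)

theorem inV_iff : InV n F ↔ (tau F).degree < n := by
  rw [degree_lt_iff_coeff_zero]
  constructor
  · intro h m hm
    ext i j
    rw [coeff_tau, coeff_zero, coeff_zero]
    split_ifs with hk
    · exact h i j (by omega)
    · rfl
  · intro h i j hij
    have := coeff_tau F (i + j) i j
    rw [if_pos rfl, h _ hij] at this
    rw [← this]
    rfl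

theorem mult_iff : Mult n p F ↔ X ^ n ∣ tau (tr p F) := by
  rw [X_pow_dvd_iff, Mult, MP_6b2d39_agWin.cond_iff]
  constructor
  · intro h m hm
    ext i j
    rw [coeff_tau, coeff_tr, coeff_zero, coeff_zero]
    split_ifs with hk
    · exact h i j (by omega)
    · rfl
  · intro h i j hij
    have := coeff_tau (tr p F) (i + j) i j
    rw [if_pos rfl, h _ hij, coeff_tr] at this
    rw [← this]
    rfl

end Pool.Agent.Lib.MP_6b2d39_agHal
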