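import Pool.Agent.Lib.MP_6b2d39_agHal.MulA

/-!
Multiplicities and total degrees are additive.

PROOFS. `tau F` has the coefficient of `T ^ k` = homogeneous part of degree `k` of `F` (`coeff_tau`, on monomials and by
additivity). Hence `InV n F` iff `(tau F).degree < n` and `Mult n p F` iff `X ^ n ∣ tau (tr p F)` (`Win.cond_iff`: the
coefficients of `tr p F` of total degree `< n` vanish); `tau` and `tr p` are ring homomorphisms into domains, `tau` is
injective, `tr p` is bijective.
-/

open Polynomial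

set_option autoImplicit false

namespace Pool.Agent.Lib.MP_6b2d39_agHal

open Pool.Agent.Lib.MP_6b2d39_ag

variable {p q : ℂ × ℂ} {F G : ℂ[X][X]} {a b n : ℕ}

theorem mult_zero (p : ℂ × ℂ) (F : ℂ[X][X]) : Mult 0 p F := by
  rw [mult_iff, pow_zero]
  exact one_dvd _

theorem mult_anti (h : a ≤ b) (hF : Mult b p F) : Mult a p F := by
  rw [mult_iff] at hF ⊢
  exact (pow_dvd_pow X h).trans hF

theorem mult_mul (hF : Mult a p F) (hG : Mult b p G) : Mult (a + b) p (F * G) := by
  rw [mult_iff] at hF hG ⊢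
  rw [map_mul, map_mul, pow_add]
  exact mul_dvd_mul (α := ℂ[X][X][X]) hF hG

theorem mult_mul_left (hF : Mult a p F) (G : ℂ[X][X]) : Mult a p (G * F) := by
  rw [mult_iff] at hF ⊢
  rw [map_mul, map_mul]
  exact Dvd.dvd.mul_left (α := ℂ[X][X][X]) hF _

theorem mult_add (hF : Mult a p F) (hG : Mult a p G) : Mult a p (F + G) := by
  rw [mult_iff] at hF hG ⊢
  rw [map_add, map_add]
  exact dvd_add hF hG

theorem mult_smul (c : ℂ) (hF : Mult a p F) : Mult a p (c • F) := by
  rw [smul_eq]
  exact mult_mul_left hF _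

theorem mult_pow (hF : Mult a p F) (k : ℕ) : Mult (k * a) p (F ^ k) := by
  rw [mult_iff] at hF ⊢
  rw [map_pow, map_pow, mul_comm, pow_mul]
  exact pow_dvd_pow_of_dvd (α := ℂ[X][X][X]) hF k

private theorem cancel_aux {A : Type*} [CommRing A] [IsDomain A] {t : A} (ht : Prime t) {K : A}
    (b : ℕ) : ∀ (a : ℕ) (H : A), ¬ t ^ (a + 1) ∣ H → t ^ (a + b) ∣ H * K → t ^ b ∣ K := by
  intro a
  induction a with
  | zero =>
    intro H h1 h2
    rw [zero_add, pow_one] at h1
    rw [zero_add] at h2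
    exact ht.pow_dvd_of_dvd_mul_left b h1 h2
  | succ a ih =>
    intro H h1 h2
    by_cases h : t ∣ H
    · obtain ⟨H', rfl⟩ := h
      refine ih H' (fun h3 => h1 ?_) ?_
      · rw [pow_succ' t (a + 1)]
        exact mul_dvd_mul_left t h3
      · rw [add_right_comm, pow_succ', mul_assoc] at h2
        exact (mul_dvd_mul_iff_left ht.ne_zero).1 h2
    · exact (pow_dvd_pow t (by omega)).trans (ht.pow_dvd_of_dvd_mul_left _ h h2)

/-- the multiplicity is additive -/
theorem mult_cancel (hF : ¬ Mult (a + 1) p F) (h : Mult (a + b) p (F * G)) : Mult b p G := by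
  rw [mult_iff] at hF h ⊢
  rw [map_mul, map_mul] at h
  exact cancel_aux prime_X b a _ hF h

theorem not_mult_pow (hF : ¬ Mult (a + 1) p F) (k : ℕ) : ¬ Mult (k * a + 1) p (F ^ k) := by
  induction k with
  | zero =>
    rw [mult_iff, pow_zero, map_one, map_one, zero_mul, zero_add, pow_one, X_dvd_iff, coeff_one_zero]
    exact one_ne_zero
  | succ k ih =>
    intro h
    refine ih (mult_cancel hF ?_)
    rw [← pow_succ']
    exact mult_anti (by rw [Nat.succ_mul]; omega) h

theorem mult_one_iff : Mult 1 p F ↔ ev p F = 0 := by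
  have h1 : Mult 1 p F ↔ ((tr p F).coeff 0).coeff 0 = 0 := by
    rw [mult_iff, pow_one, X_dvd_iff]
    constructor
    · intro h
      have h2 := coeff_tau (tr p F) 0 0 0
      rw [if_pos rfl, h, coeff_zero, coeff_zero] at h2
      exact h2.symm
    · intro h
      ext i j
      rw [coeff_tau]
      split_ifs with hij
      · obtain ⟨rfl, rfl⟩ : i = 0 ∧ j = 0 := by omega
        rw [h, coeff_zero, coeff_zero]
      · rw [coeff_zero, coeff_zero]
  rw [h1, coeff_tr, taylor_coeff_zero, taylor_coeff_zero, ev, coe_aevalAeval_eq_evalEval]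

private theorem mult_mem : Mult n q F ↔ F ∈ (Ideal.span {X - C (C q.1), C (X - C q.2)}) ^ n :=
  cond_iff n q.1 q.2 F

/-- pull-back under a polynomial map (`Ideal`: `Mult n q F` iff `F ∈ (x - q.1, y - q.2) ^ n`, see `cond_iff` in `ThickStep`) -/
theorem mult_comp (u v : ℂ[X][X]) (hu : ev p u = q.2) (hv : ev p v = q.1) (h : Mult n q F) :
    Mult n p (aevalAeval u v F) := by
  rw [mult_mem] at h ⊢
  have h1 := Ideal.mem_map_of_mem (aevalAeval (R := ℂ) u v) h
  rw [Ideal.map_pow] at h1
  refine Ideal.pow_right_mono ?_ n h1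
  rw [Ideal.map_span, Ideal.span_le]
  have h3 : ∀ G : ℂ[X][X], ev p G = 0 →
      G ∈ Ideal.span {X - C (C p.1), C (X - C p.2)} := by
    intro G hG
    have h4 := mult_one_iff.2 hG
    rw [mult_mem] at h4
    exact (pow_one (M := Ideal ℂ[X][X]) (Ideal.span {X - C (C p.1), C (X - C p.2)})) ▸ h4
  have hc : ∀ c : ℂ, aevalAeval (R := ℂ) u v (C (C c)) = C (C c) := by
    intro c
    rw [aevalAeval_C, aeval_C]
    rfl
  have he : ∀ c : ℂ, ev p (C (C c)) = c := by
    intro c
    rw [ev, aevalAeval_C, aeval_C]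
    rfl
  rintro G ⟨H, hH, rfl⟩
  rcases hH with rfl | rfl
  · refine h3 _ ?_
    change ev p (aevalAeval (R := ℂ) u v (X - C (C q.1))) = 0
    rw [map_sub, aevalAeval_Y, hc, map_sub, hv, he, sub_self]
  · refine h3 _ ?_
    change ev p (aevalAeval (R := ℂ) u v (C (X - C q.2))) = 0
    rw [C_sub, map_sub, aevalAeval_X, hc, map_sub, hu, he, sub_self]

end Pool.Agent.Lib.MP_6b2d39_agHal
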