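import Pool.Agent.Lib.MP_6b2d39_agHal.MulB

/-!
Multiplicities and total degrees are additive.

PROOFS. `tau F` has the coefficient of `T ^ k` = homogeneous part of degree `k` of `F` (`coeff_tau`, on monomials and by
additivity). Hence `InV n F` iff `(tau F).degree < n` and `Mult n p F` iff `X ^ n ∣ tau (tr p F)` (`Win.cond_iff`: the
coefficients of `tr p F` of total degree `< n` vanish); `tau` and `tr p` are ring homomorphisms into domains, `tau` is
injective, `tr p` is bijective.
-/

open Polynomial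

set_option autoImplicit false

namespace Pool.Agent.Lib.MP_6b2d39_agHal

open Pool.Agent.Lib.MP_6b2d39_ag

variable {p q : ℂ × ℂ} {F G : ℂ[X][X]} {a b n : ℕ}

private theorem deg_lt_succ {R : Type*} [CommRing R] {f : R[X]} {k : ℕ} :
    f.degree < ((k + 1 : ℕ) : WithBot ℕ) ↔ f.natDegree ≤ k := by
  rw [natDegree_le_iff_degree_le]
  by_cases h : f = 0
  · subst h
    rw [degree_zero]
    exact ⟨fun _ => bot_le, fun _ => WithBot.bot_lt_coe _⟩
  · rw [degree_eq_natDegree h]
    rw [Nat.cast_lt, Nat.cast_le]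
    omega

private theorem tau_eq_zero (h : tau F = 0) : F = 0 := by
  ext i j
  have h1 := coeff_tau F (i + j) i j
  rw [if_pos rfl, h] at h1
  rw [← h1]
  simp

private theorem natDegree_tau_tr_monomial (p : ℂ × ℂ) (i j : ℕ) (c : ℂ) :
    (tau (tr p (monomial i (monomial j c)))).natDegree ≤ i + j := by
  have e0 : ∀ c : ℂ, (C (C c) : ℂ[X][X]) = algebraMap ℂ ℂ[X][X] c := fun _ => rfl
  have e1 : ∀ c : ℂ, tau (C (C c)) = C (C (C c)) := by
    intro c
    rw [e0, AlgHom.commutes]
    rfl
  have e2 : tr p (C (C c)) = C (C c) := by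
    rw [e0, AlgHom.commutes]
  have e3 : tau (tr p (C X)) = C (C X) * X + C (C (C p.2)) := by
    have e4 : tr p (C X) = C X + C (C p.2) := by
      unfold tr
      rw [aevalAeval_X, C_add]
    have e5 : tau (C X) = C (C X) * X := by
      unfold tau
      rw [aevalAeval_X]
    rw [e4, map_add, e5, e1]
  have e6 : tau (tr p X) = C X * X + C (C (C p.1)) := by
    have e4 : tr p X = X + C (C p.1) := by
      unfold tr
      rw [aevalAeval_Y]
    have e5 : tau X = C X * X := by
      unfold tau
      rw [aevalAeval_Y]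
    rw [e4, map_add, e5, e1]
  have h1 : tau (tr p (monomial i (monomial j c))) =
      C (C (C c)) * (C (C X) * X + C (C (C p.2))) ^ j * (C X * X + C (C (C p.1))) ^ i := by
    rw [← C_mul_X_pow_eq_monomial, ← C_mul_X_pow_eq_monomial, C_mul, C_pow, map_mul, map_mul,
      map_mul, map_mul, map_pow, map_pow, map_pow, map_pow, e2, e1, e3, e6]
  have h2 : ∀ u v : ℂ[X][X], (C u * X + C v : ℂ[X][X][X]).natDegree ≤ 1 := by
    intro u v
    exact natDegree_linear_le
  rw [h1]
  refine natDegree_mul_le.trans ?_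
  have h3 : (C (C (C c)) * (C (C X) * X + C (C (C p.2))) ^ j : ℂ[X][X][X]).natDegree ≤ j := by
    refine (natDegree_C_mul_le _ _).trans (natDegree_pow_le.trans ?_)
    exact (Nat.mul_le_mul_left j (h2 _ _)).trans (by omega)
  have h4 : ((C X * X + C (C (C p.1))) ^ i : ℂ[X][X][X]).natDegree ≤ i := by
    refine natDegree_pow_le.trans ?_
    exact (Nat.mul_le_mul_left i (h2 _ _)).trans (by omega)
  omega

theorem inV_mono (h : a ≤ b) (hF : InV a F) : InV b F := fun i j hij => hF i j (h.trans hij)

theorem inV_mul (hF : InV (a + 1) F) (hG : InV b G) : InV (a + b) (F * G) := by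
  rcases Nat.eq_zero_or_pos b with rfl | hb
  · rw [InV_zero hG, mul_zero]
    intro i j _
    simp
  · obtain ⟨b, rfl⟩ : ∃ c, b = c + 1 := ⟨b - 1, by omega⟩
    rw [inV_iff, deg_lt_succ] at hF hG
    rw [← add_assoc, inV_iff, deg_lt_succ, map_mul]
    exact natDegree_mul_le.trans (by omega)

theorem inV_pow (hF : InV (a + 1) F) (k : ℕ) : InV (k * a + 1) (F ^ k) := by
  rw [inV_iff, deg_lt_succ] at hF
  rw [inV_iff, deg_lt_succ, map_pow]
  exact natDegree_pow_le.trans (Nat.mul_le_mul_left k hF)

theorem not_inV_pow (hF : ¬ InV a F) (k : ℕ) : ¬ InV (k * a) (F ^ k) := by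
  rw [inV_iff, not_lt] at hF
  rw [inV_iff, not_lt, map_pow, degree_pow]
  have h0 : tau F ≠ 0 := by
    intro h
    rw [h, degree_zero] at hF
    exact absurd hF (not_le.2 (WithBot.bot_lt_coe a))
  rw [degree_eq_natDegree h0] at hF ⊢
  rw [Nat.cast_le] at hF
  rw [nsmul_eq_mul]
  exact_mod_cast Nat.mul_le_mul_left k hF

/-- the total degree is additive -/
theorem inV_cancel (hF : ¬ InV a F) (h : InV (a + b) (F * G)) : InV b G := by
  rw [inV_iff, not_lt] at hF
  rw [inV_iff, map_mul, degree_mul] at h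
  rw [inV_iff]
  by_cases hG : tau G = 0
  · rw [hG, degree_zero]
    exact WithBot.bot_lt_coe b
  have h0 : tau F ≠ 0 := by
    intro h
    rw [h, degree_zero] at hF
    exact absurd hF (not_le.2 (WithBot.bot_lt_coe a))
  rw [degree_eq_natDegree h0] at hF h
  rw [degree_eq_natDegree hG] at h ⊢
  rw [Nat.cast_le] at hF
  rw [Nat.cast_lt]
  have h1 : (tau F).natDegree + (tau G).natDegree < a + b := by exact_mod_cast h
  omega

theorem exists_inV (F : ℂ[X][X]) : ∃ n, InV n F :=
  ⟨(tau F).natDegree + 1, by rw [inV_iff, deg_lt_succ]⟩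

private theorem degree_tau_tr (hF : InV n F) (p : ℂ × ℂ) : (tau (tr p F)).degree < n := by
  rw [← mem_degreeLT]
  rw [F.as_sum_support, map_sum, map_sum]
  refine Submodule.sum_mem _ fun i _ => ?_
  rw [(F.coeff i).as_sum_support, map_sum, map_sum, map_sum]
  refine Submodule.sum_mem _ fun j hj => ?_
  have h1 : i + j < n := by
    by_contra h2
    exact (mem_support_iff.1 hj) (hF i j (not_lt.1 h2))
  rw [mem_degreeLT]
  refine lt_of_le_of_lt degree_le_natDegree ?_
  rw [Nat.cast_lt]
  exact lt_of_le_of_lt (natDegree_tau_tr_monomial p i j _) h1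

/-- a polynomial of total degree less than its multiplicity is zero -/
theorem mult_inV (hF : InV n F) (h : Mult n p F) : F = 0 := by
  rw [mult_iff] at h
  have h1 := degree_tau_tr hF p
  have h2 : tau (tr p F) = 0 := by
    by_contra h3
    have h4 := degree_le_of_dvd h h3
    rw [degree_X_pow] at h4
    exact absurd h1 (not_lt.2 h4)
  exact tr_injective p (by rw [tau_eq_zero h2, map_zero])

instance Sp_finite {ι : Type} (n : ℕ) (p : ι → ℂ × ℂ) (m : ι → ℕ) :
    FiniteDimensional ℂ (Sp n p m) := by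
  let L : Sp n p m →ₗ[ℂ] (Fin n → Fin n → ℂ) :=
    { toFun := fun F i j => ((F : ℂ[X][X]).coeff i).coeff j
      map_add' := fun F G => by
        funext i j
        simp
      map_smul' := fun c F => by
        funext i j
        simp }
  refine Module.Finite.of_injective L ?_
  intro F G hFG
  refine Subtype.ext ?_
  ext i j
  by_cases h : i + j < n
  · exact congrFun (congrFun hFG ⟨i, by omega⟩) ⟨j, by omega⟩
  · rw [F.2.1 i j (not_lt.1 h), G.2.1 i j (not_lt.1 h)]

end Pool.Agent.Lib.MP_6b2d39_agHal
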