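import Pool.Agent.Lib.MP_6b2d39_agHal.Defs

/-!
The nine parameters on the nodal cubic.

PROOF of `exists_tor`: `t i = (1 + r i) / (1 - r i)` with `r 0, …, r 7 = 2, 3, 5, 7, 11, 13, 17, 19` and
`r 8 = ζ / (2 * 3 * ⋯ * 19) = ζ / 9699690`, `ζ = exp (2 π i / N)`. Then `1 - t i = - 2 r i / (1 - r i)`,
`-1 - t i = - 2 / (1 - r i)`, so the quotient is `r i`, and `∏ r i ^ k i = ∏_{i<8} r i ^ (k i - k 8) * ζ ^ k 8`.
Absolute values and unique factorization: `k i = k 8`; then `ζ ^ k 8 = 1`, so `N ∣ k 8` (primitive root). The ordinates are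
`4 r (1 + r) / (1 - r) ^ 3`: `-24, -6, -15/8, -28/27, -66/125, -91/216, -153/512, -190/729`, and the last one has absolute
value `< 1/100`.
-/

open Polynomial

set_option autoImplicit false

namespace Pool.Agent.Lib.MP_6b2d39_agHal

/-- smooth points of the cubic with different ordinates -/
structure Par (t : Fin 9 → ℂ) : Prop where
  ne_one : ∀ i, t i ≠ 1
  ne_neg : ∀ i, t i ≠ -1
  ord : Function.Injective fun i => (t i) ^ 3 - t i

theorem Par.inj {t : Fin 9 → ℂ} (h : Par t) : Function.Injective t :=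
  fun i j hij => h.ord (by simp only [hij])

/-- the relations between the parameters are the multiples of `(N, …, N)` -/
structure Tor (N : ℕ) (t : Fin 9 → ℂ) : Prop extends Par t where
  tan : t 8 ≠ 0
  rel : (∏ i, (1 - t i)) ^ N = (∏ i, (-1 - t i)) ^ N
  rels : ∀ k : Fin 9 → ℕ, ∏ i, (1 - t i) ^ k i = ∏ i, (-1 - t i) ^ k i →
    (∀ i, k i = k 0) ∧ N ∣ k 0

/-- the first eight primes -/
private def pr : Fin 8 → ℕ := ![2, 3, 5, 7, 11, 13, 17, 19]

private theorem pr_prime (i : Fin 8) : (pr i).Prime := by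
  fin_cases i <;> simp only [pr] <;> norm_num

private theorem pr_inj : Function.Injective pr := by
  unfold pr
  decide

private theorem pr_prod : ∏ i, pr i = 9699690 := by
  simp [pr, Fin.prod_univ_succ]

private theorem pow_inj (a b : Fin 8 → ℕ) (h : ∏ i, pr i ^ a i = ∏ i, pr i ^ b i) : a = b := by
  have key : ∀ (c : Fin 8 → ℕ) (j : Fin 8), (∏ i, pr i ^ c i).factorization (pr j) = c j := by
    intro c j
    rw [Nat.factorization_prod (fun i _ => pow_ne_zero _ (pr_prime i).ne_zero),
      Finsupp.finset_sum_apply, Finset.sum_eq_single j]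
    · rw [(pr_prime j).factorization_pow, Finsupp.single_eq_same]
    · intro i _ hij
      rw [(pr_prime i).factorization_pow, Finsupp.single_apply, if_neg]
      exact fun h => hij (pr_inj h)
    · intro h
      exact absurd (Finset.mem_univ _) h
  ext j
  rw [← key a j, h, key b j]

/-- the ordinates of the first eight points -/
private def od (i : Fin 8) : ℚ := 4 * (pr i : ℚ) * (1 + pr i) / (1 - pr i) ^ 3

private theorem od_inj : Function.Injective od := by
  intro i j h
  by_contra hij
  unfold od pr at h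
  fin_cases i <;> fin_cases j <;> first | exact hij rfl | (norm_num at h)

private theorem od_large (i : Fin 8) : (1 : ℝ) / 100 < |(od i : ℝ)| := by
  have h : (od i : ℝ) < -1 / 100 := by
    have : od i < -1 / 100 := by
      unfold od pr
      fin_cases i <;> norm_num
    exact_mod_cast this
  rw [abs_of_neg (by linarith)]
  linarith

theorem exists_tor {N : ℕ} (hN : 1 ≤ N) : ∃ t : Fin 9 → ℂ, Tor N t := by
  have hζ := Complex.isPrimitiveRoot_exp N (by omega)
  generalize Complex.exp (2 * Real.pi * Complex.I / N) = ζ at hζ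
  have hζn : ‖ζ‖ = 1 := hζ.norm'_eq_one (by omega)
  have hζ0 : ζ ≠ 0 := by
    intro h
    rw [h, norm_zero] at hζn
    exact zero_ne_one hζn
  let r : Fin 9 → ℂ := Fin.snoc (fun i : Fin 8 => (pr i : ℂ)) (ζ / 9699690)
  have hr1 : ∀ i : Fin 8, r i.castSucc = pr i := fun i => Fin.snoc_castSucc _ _ _
  have hr2 : r (Fin.last 8) = ζ / 9699690 := Fin.snoc_last _ _
  have hn2 : ‖r (Fin.last 8)‖ = 1 / 9699690 := by
    rw [hr2, norm_div, hζn]
    norm_num
  have hr0 : ∀ i, r i ≠ 0 := by
    intro i
    refine Fin.lastCases ?_ (fun j => ?_) i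
    · rw [hr2]
      exact div_ne_zero hζ0 (by norm_num)
    · rw [hr1]
      exact_mod_cast (pr_prime j).ne_zero
  have hrm : ∀ i, 1 - r i ≠ 0 := by
    intro i
    refine Fin.lastCases ?_ (fun j => ?_) i
    · intro h
      rw [sub_eq_zero] at h
      rw [← h, norm_one] at hn2
      norm_num at hn2
    · rw [hr1]
      intro h
      rw [sub_eq_zero] at h
      have h1 : pr j = 1 := by exact_mod_cast h.symm
      exact (pr_prime j).one_lt.ne' h1
  have hrp : 1 + r (Fin.last 8) ≠ 0 := by
    intro h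
    have h1 : r (Fin.last 8) = -1 := by linear_combination h
    rw [h1, norm_neg, norm_one] at hn2
    norm_num at hn2
  let t : Fin 9 → ℂ := fun i => (1 + r i) / (1 - r i)
  have ht1 : ∀ i, 1 - t i = r i * (-1 - t i) := by
    intro i
    have := hrm i
    change 1 - (1 + r i) / (1 - r i) = r i * (-1 - (1 + r i) / (1 - r i))
    field_simp
    ring
  have ht2 : ∀ i, -1 - t i ≠ 0 := by
    intro i
    have h1 : -1 - t i = -2 / (1 - r i) := by
      have := hrm i
      change -1 - (1 + r i) / (1 - r i) = _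
      field_simp
      ring
    rw [h1]
    exact div_ne_zero (by norm_num) (hrm i)
  have hrprod : ∏ i, r i = ζ := by
    rw [Fin.prod_univ_castSucc, hr2, Finset.prod_congr rfl fun i _ => hr1 i]
    have h1 : (∏ i : Fin 8, (pr i : ℂ)) = 9699690 := by
      exact_mod_cast pr_prod
    rw [h1]
    field_simp
  have hy : ∀ i, (t i) ^ 3 - t i = 4 * r i * (1 + r i) / (1 - r i) ^ 3 := by
    intro i
    have := hrm i
    change ((1 + r i) / (1 - r i)) ^ 3 - (1 + r i) / (1 - r i) = _
    field_simp
    ring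
  have hy1 : ∀ i : Fin 8, (t i.castSucc) ^ 3 - t i.castSucc = ((od i : ℝ) : ℂ) := by
    intro i
    rw [hy, hr1, od]
    push_cast
    ring
  have hy2 : ‖(t (Fin.last 8)) ^ 3 - t (Fin.last 8)‖ < 1 / 100 := by
    rw [hy, norm_div, norm_mul, norm_mul, norm_pow]
    have h1 : ‖1 + r (Fin.last 8)‖ ≤ 2 := by
      refine (norm_add_le _ _).trans ?_
      rw [hn2, norm_one]
      norm_num
    have h2 : 1 / 2 ≤ ‖1 - r (Fin.last 8)‖ := by
      have h3 := norm_sub_norm_le (1 : ℂ) (r (Fin.last 8))
      rw [hn2, norm_one] at h3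
      refine le_trans ?_ h3
      norm_num
    have h4 : (1 / 2 : ℝ) ^ 3 ≤ ‖1 - r (Fin.last 8)‖ ^ 3 := pow_le_pow_left₀ (by norm_num) h2 3
    rw [div_lt_iff₀ (lt_of_lt_of_le (by norm_num) h4), hn2]
    have h5 : ‖(4 : ℂ)‖ = 4 := by norm_num
    rw [h5]
    nlinarith
  refine ⟨t, ⟨?_, ?_, ?_⟩, ?_, ?_, ?_⟩
  · intro i h
    have h1 := ht1 i
    rw [h, sub_self] at h1
    rcases mul_eq_zero.1 h1.symm with h2 | h2
    · exact hr0 i h2
    · exact ht2 i (by rw [h]; exact h2)
  · intro i h
    apply ht2 i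
    rw [h]
    ring
  · intro i j hij
    beta_reduce at hij
    have hne : ∀ i : Fin 8, (t i.castSucc) ^ 3 - t i.castSucc ≠
        (t (Fin.last 8)) ^ 3 - t (Fin.last 8) := by
      intro i h
      rw [← h, hy1, Complex.norm_real, Real.norm_eq_abs] at hy2
      exact absurd (od_large i) (not_lt.2 hy2.le)
    induction i using Fin.lastCases with
    | last =>
      induction j using Fin.lastCases with
      | last => rfl
      | cast j => exact absurd hij.symm (hne j)
    | cast i =>
      induction j using Fin.lastCases with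
      | last => exact absurd hij (hne i)
      | cast j =>
        rw [hy1, hy1] at hij
        have h1 : od i = od j := by exact_mod_cast hij
        rw [od_inj h1]
  · change (1 + r (Fin.last 8)) / (1 - r (Fin.last 8)) ≠ 0
    exact div_ne_zero hrp (hrm _)
  · rw [Finset.prod_congr rfl fun i _ => ht1 i, Finset.prod_mul_distrib, hrprod, mul_pow,
      hζ.pow_eq_one, one_mul]
  · intro k hk
    have h1 : ∏ i, r i ^ k i = 1 := by
      have h2 : ∏ i, (1 - t i) ^ k i = (∏ i, r i ^ k i) * ∏ i, (-1 - t i) ^ k i := by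
        rw [← Finset.prod_mul_distrib]
        refine Finset.prod_congr rfl fun i _ => ?_
        rw [ht1 i, mul_pow]
      rw [h2] at hk
      have h3 : ∏ i, (-1 - t i) ^ k i ≠ 0 := Finset.prod_ne_zero_iff.2 fun i _ => pow_ne_zero _ (ht2 i)
      exact mul_right_cancel₀ h3 (by rw [hk, one_mul])
    rw [Fin.prod_univ_castSucc, hr2] at h1
    have h1' : (∏ i : Fin 8, (pr i : ℂ) ^ k i.castSucc) * (ζ / 9699690) ^ k (Fin.last 8) = 1 := by
      rw [← h1]
      congr 1
    have h2 : ∏ i : Fin 8, pr i ^ k i.castSucc = ∏ i : Fin 8, pr i ^ k (Fin.last 8) := by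
      have h3 := congrArg norm h1'
      rw [norm_mul, norm_prod, norm_pow, norm_div, hζn, norm_one] at h3
      have h4 : ∀ i : Fin 8, ‖(pr i : ℂ) ^ k i.castSucc‖ = (pr i : ℝ) ^ k i.castSucc := by
        intro i
        rw [norm_pow, Complex.norm_natCast]
      rw [Finset.prod_congr rfl fun i _ => h4 i] at h3
      have h5 : ‖(9699690 : ℂ)‖ = 9699690 := by norm_num
      rw [h5, div_pow, one_pow] at h3
      have h6 : (∏ i : Fin 8, (pr i : ℝ) ^ k i.castSucc) = 9699690 ^ k (Fin.last 8) := by
        field_simp at h3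
        exact h3
      rw [Finset.prod_pow, pr_prod]
      exact_mod_cast h6
    have h3 := pow_inj _ _ h2
    have h4 : ∀ i : Fin 8, k i.castSucc = k (Fin.last 8) := fun i => congrFun h3 i
    have h5 : ∀ i, k i = k (Fin.last 8) := by
      intro i
      induction i using Fin.lastCases with
      | last => rfl
      | cast i => exact h4 i
    refine ⟨fun i => by rw [h5 i, h5 0], ?_⟩
    rw [h5 0]
    apply hζ.dvd_of_pow_eq_one
    have h6 : ∏ i : Fin 8, (pr i : ℂ) ^ k i.castSucc = 9699690 ^ k (Fin.last 8) := by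
      have h7 : (∏ i : Fin 8, pr i ^ k i.castSucc) = 9699690 ^ k (Fin.last 8) := by
        rw [h2, Finset.prod_pow, pr_prod]
      exact_mod_cast h7
    rw [h6, div_pow] at h1'
    field_simp at h1'
    exact h1'

end Pool.Agent.Lib.MP_6b2d39_agHal
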