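import Pool.Agent.Lib.MP_6b2d39_agHal.RowB
import Pool.Agent.Lib.MP_6b2d39_agHal.Low

/-!
The Halphen pencil of index `N`: polynomials of degree `3 N` with multiplicity `N` at the nine points.

PROOFS. `res_full`: `natDegree_res` (`≤ 9 M`) and `mult_res`: `res F = c * ∏ (X - t i) ^ M`. `sp_small` (induction on `M`; `M = 0`:
constants): for `0 < M < N` the gluing condition gives `c * (∏ (1 - t i) ^ M - ∏ (-1 - t i) ^ M) = 0` and `Tor.rels` (`k i = M`,
`N` does not divide `M`) gives `c = 0`; `res_ker`: the map `G ↦ cub * G` from `Sp (3 (M - 1) + 1)` is onto.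
`res_tang`: `res F = ∏_{i<8} (X - t i) ^ N * (X - t 8) ^ (N - 1) * (u X + v)`, gluing and `Tor.rel`:
`(u + v) (-1 - t 8) = (v - u) (1 - t 8)`, so `u t 8 + v = 0`.
`tang_dim`: let `F ∈ Sp (3 N + 1) p (N, …, N, N - 1)`; the coefficients `c a b`, `a + b = N - 1`, of `tr (gam (t 8)) F` satisfy
`∑ c a b (2 t 8) ^ a (3 (t 8) ^ 2 - 1) ^ b = 0` (the coefficient of `(t - t 8) ^ (N - 1)` of `res F`, zero by `res_tang`), and
`2 t 8 ≠ 0`: if `c a b = 0` for all `a < N - 1` (these are `N - 1` functionals) then all are `0` and `Mult N`. With `low`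
(`(3 N + 2).choose 2 - 8 (N + 1).choose 2 - N.choose 2 = N + 1`): dimension `≥ N + 1 - (N - 1) = 2`.
`exists_G`: otherwise `res F = 0` for all `F` in `Sp (3 N + 1) p N`, so by `res_ker` its dimension is at most that of
`Sp (3 (N - 1) + 1) p (N - 1)`, which is `≤ 1` by `sp_small`.
-/

open Polynomial

set_option autoImplicit false

namespace Pool.Agent.Lib.MP_6b2d39_agHal

open Pool.Agent.Lib.MP_6b2d39_ag

variable {N : ℕ} {t : Fin 9 → ℂ}

private theorem penA_deg (t : Fin 9 → ℂ) (m : Fin 9 → ℕ) :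
    (∏ i, (X - C (t i)) ^ m i).Monic ∧ (∏ i, (X - C (t i)) ^ m i).natDegree = ∑ i, m i := by
  have h1 : ∀ i ∈ (Finset.univ : Finset (Fin 9)), ((X - C (t i)) ^ m i).Monic :=
    fun i _ => (monic_X_sub_C _).pow _
  refine ⟨monic_prod_of_monic _ _ h1, ?_⟩
  rw [natDegree_prod_of_monic _ _ h1]
  refine Finset.sum_congr rfl fun i _ => ?_
  rw [(monic_X_sub_C _).natDegree_pow, natDegree_X_sub_C, mul_one]

theorem res_full (ht : Par t) {M : ℕ} {F : ℂ[X][X]}
    (hF : F ∈ Sp (3 * M + 1) (fun i => gam (t i)) (fun _ => M)) :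
    ∃ c : ℂ, res F = C c * ∏ i, (X - C (t i)) ^ M := by
  obtain ⟨h1, ⟨h, h2⟩, -⟩ := res_mem ht hF
  obtain ⟨h3, h4⟩ := penA_deg t fun _ => M
  by_cases hh : h = 0
  · exact ⟨0, by rw [h2, hh, mul_zero, map_zero, zero_mul]⟩
  · rw [h2, h3.natDegree_mul' hh, h4] at h1
    have h5 : ∑ _i : Fin 9, M = 9 * M := by
      rw [Finset.sum_const, Finset.card_univ, Fintype.card_fin, smul_eq_mul]
    rw [h5] at h1
    have h6 : h.natDegree = 0 := by omega
    refine ⟨h.coeff 0, ?_⟩
    rw [h2, mul_comm, ← eq_C_of_natDegree_eq_zero h6]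

private theorem penA_gen (ht : Tor N t) (M : ℕ) (hM : M < N) (F : ℂ[X][X])
    (hF : F ∈ Sp (3 * M + 1) (fun i => gam (t i)) (fun _ => M)) :
    ∃ c : ℂ, F = c • cub ^ M := by
  induction M generalizing F with
  | zero =>
    refine ⟨(F.coeff 0).coeff 0, ?_⟩
    rw [pow_zero, smul_eq, mul_one]
    ext a b
    rcases Nat.eq_zero_or_pos a with rfl | ha
    · rw [coeff_C_zero]
      rcases Nat.eq_zero_or_pos b with rfl | hb
      · rw [coeff_C_zero]
      · rw [coeff_C_of_ne_zero (by omega)]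
        exact hF.1 0 b (by omega)
    · rw [coeff_C_of_ne_zero (by omega), coeff_zero]
      exact hF.1 a b (by omega)
  | succ M ih =>
    obtain ⟨c, hc⟩ := res_full ht.toPar hF
    have hg := res_glue F
    rw [hc, eval_mul, eval_mul, eval_C, eval_C, eval_prod, eval_prod] at hg
    have h1 : ∀ z : ℂ, ∏ i, ((X - C (t i)) ^ (M + 1)).eval z = ∏ i, (z - t i) ^ (M + 1) := by
      intro z
      refine Finset.prod_congr rfl fun i _ => ?_
      rw [eval_pow, eval_sub, eval_X, eval_C]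
    rw [h1, h1] at hg
    have hc0 : c = 0 := by
      by_contra hc0
      have h2 := (ht.rels (fun _ => M + 1) (mul_left_cancel₀ hc0 hg)).2
      have h3 := Nat.le_of_dvd (by omega) h2
      omega
    have hr : res F = 0 := by rw [hc, hc0, map_zero, zero_mul]
    obtain ⟨G, hG, hFG⟩ := res_ker ht.toPar hF hr
    have e1 : 3 * (M + 1) + 1 - 3 = 3 * M + 1 := by omega
    rw [e1] at hG
    obtain ⟨d, hd⟩ := ih (by omega) G hG
    refine ⟨d, ?_⟩
    rw [hFG, hd, mul_smul_comm, pow_succ']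

theorem sp_small (ht : Tor N t) {M : ℕ} (hM : M < N) :
    Module.finrank ℂ (Sp (3 * M + 1) (fun i => gam (t i)) (fun _ => M)) ≤ 1 := by
  have h1 : Sp (3 * M + 1) (fun i => gam (t i)) (fun _ => M) ≤
      Submodule.span ℂ {cub ^ M} := by
    intro F hF
    obtain ⟨c, hc⟩ := penA_gen ht M hM F hF
    rw [Submodule.mem_span_singleton]
    exact ⟨c, hc.symm⟩
  have h2 := finrank_span_le_card (R := ℂ) ({cub ^ M} : Set ℂ[X][X])
  rw [Set.toFinset_singleton, Finset.card_singleton] at h2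
  exact (Submodule.finrank_mono h1).trans h2

end Pool.Agent.Lib.MP_6b2d39_agHal
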