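import Pool.Agent.Lib.MP_6b2d39_agHal.RowB

/-!
The Halphen pencil of index `N`: polynomials of degree `3 N` with multiplicity `N` at the nine points.

PROOFS. `res_full`: `natDegree_res` (`≤ 9 M`) and `mult_res`: `res F = c * ∏ (X - t i) ^ M`. `sp_small` (induction on `M`; `M = 0`:
constants): for `0 < M < N` the gluing condition gives `c * (∏ (1 - t i) ^ M - ∏ (-1 - t i) ^ M) = 0` and `Tor.rels` (`k i = M`,
`N` does not divide `M`) gives `c = 0`; `res_ker`: the map `G ↦ cub * G` from `Sp (3 (M - 1) + 1)` is onto.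
`res_tang`: `res F = ∏_{i<8} (X - t i) ^ N * (X - t 8) ^ (N - 1) * (u X + v)`, gluing and `Tor.rel`:
`(u + v) (-1 - t 8) = (v - u) (1 - t 8)`, so `u t 8 + v = 0`.
`tang_dim`: let `F ∈ Sp (3 N + 1) p (N, …, N, N - 1)`; the coefficients `c a b`, `a + b = N - 1`, of `tr (gam (t 8)) F` satisfy
`∑ c a b (2 t 8) ^ a (3 (t 8) ^ 2 - 1) ^ b = 0` (the coefficient of `(t - t 8) ^ (N - 1)` of `res F`, zero by `res_tang`), and
`2 t 8 ≠ 0`: if `c a b = 0` for all `a < N - 1` (these are `N - 1` functionals) then all are `0` and `Mult N`. With `low`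
(`(3 N + 2).choose 2 - 8 (N + 1).choose 2 - N.choose 2 = N + 1`): dimension `≥ N + 1 - (N - 1) = 2`.
`exists_G`: otherwise `res F = 0` for all `F` in `Sp (3 N + 1) p N`, so by `res_ker` its dimension is at most that of
`Sp (3 (N - 1) + 1) p (N - 1)`, which is `≤ 1` by `sp_small`.
-/

open Polynomial

set_option autoImplicit false

namespace Pool.Agent.Lib.MP_6b2d39_agHal

open Pool.Agent.Lib.MP_6b2d39_ag

variable {N : ℕ} {t : Fin 9 → ℂ}

private theorem penB_deg (t : Fin 9 → ℂ) (m : Fin 9 → ℕ) :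
    (∏ i, (X - C (t i)) ^ m i).Monic ∧ (∏ i, (X - C (t i)) ^ m i).natDegree = ∑ i, m i := by
  have h1 : ∀ i ∈ (Finset.univ : Finset (Fin 9)), ((X - C (t i)) ^ m i).Monic :=
    fun i _ => (monic_X_sub_C _).pow _
  refine ⟨monic_prod_of_monic _ _ h1, ?_⟩
  rw [natDegree_prod_of_monic _ _ h1]
  refine Finset.sum_congr rfl fun i _ => ?_
  rw [(monic_X_sub_C _).natDegree_pow, natDegree_X_sub_C, mul_one]

theorem res_tang (ht : Tor N t) (hN : 1 ≤ N) {F : ℂ[X][X]}
    (hF : F ∈ Sp (3 * N + 1) (fun i => gam (t i)) (fun i => if i = 8 then N - 1 else N)) :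
    (X - C (t 8)) ^ N ∣ res F := by
  obtain ⟨h1, ⟨h, h2⟩, h3⟩ := res_mem ht.toPar hF
  set m : Fin 9 → ℕ := fun i => if i = 8 then N - 1 else N with hm
  set Q : ℂ[X] := ∏ i, (X - C (t i)) ^ m i with hQ
  obtain ⟨hQm, hQd⟩ := penB_deg t m
  have hsum : ∑ i, m i + 1 = 9 * N := by
    rw [hm]
    simp only [Fin.sum_univ_succ, Fin.sum_univ_zero]
    simp only [Fin.ext_iff, Fin.val_succ, Fin.val_zero]
    norm_num
    omega
  by_cases hh : h = 0
  · rw [h2, hh, mul_zero]
    exact dvd_zero _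
  have hdeg : h.natDegree ≤ 1 := by
    rw [h2, hQm.natDegree_mul' hh] at h1
    have h4 : Q.natDegree = ∑ i, m i := hQd
    omega
  -- the relation
  have hQz : ∀ z : ℂ, Q.eval z * (z - t 8) = (∏ i, (z - t i)) ^ N := by
    intro z
    rw [hQ, eval_prod, ← Finset.prod_pow]
    have h5 : ∀ i : Fin 9, (z - t i) ^ N = ((X - C (t i)) ^ m i).eval z *
        (if i = 8 then z - t 8 else 1) := by
      intro i
      rw [eval_pow, eval_sub, eval_X, eval_C, hm]
      by_cases hi : i = 8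
      · subst hi
        simp only [if_true]
        rw [← pow_succ, Nat.sub_add_cancel hN]
      · simp only [hi, if_false, mul_one]
    rw [Finset.prod_congr rfl fun i _ => h5 i, Finset.prod_mul_distrib, Finset.prod_ite_eq']
    simp
  have hR : (∏ i, ((1 : ℂ) - t i)) ^ N ≠ 0 := by
    refine pow_ne_zero _ (Finset.prod_ne_zero_iff.2 fun i _ => ?_)
    exact sub_ne_zero.2 (ht.ne_one i).symm
  rw [h2, eval_mul, eval_mul] at h3
  have e1 := hQz 1
  have e2 := hQz (-1)
  rw [← ht.rel] at e2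
  set R : ℂ := (∏ i, ((1 : ℂ) - t i)) ^ N with hRdef
  have key : R * (h.eval 1 * (-1 - t 8) - h.eval (-1) * (1 - t 8)) = 0 := by
    have e3 : R * (h.eval 1 * (-1 - t 8)) = (Q.eval 1 * h.eval 1) * ((1 - t 8) * (-1 - t 8)) := by
      rw [← e1]
      ring
    have e4 : R * (h.eval (-1) * (1 - t 8)) =
        (Q.eval (-1) * h.eval (-1)) * ((1 - t 8) * (-1 - t 8)) := by
      rw [← e2]
      ring
    rw [mul_sub, e3, e4, h3, sub_self]
  have key2 := (mul_eq_zero.1 key).resolve_left hR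
  have hform : h = C (h.coeff 1) * X + C (h.coeff 0) :=
    eq_X_add_C_of_natDegree_le_one hdeg
  have ev : ∀ z : ℂ, h.eval z = h.coeff 1 * z + h.coeff 0 := by
    intro z
    conv_lhs => rw [hform]
    rw [eval_add, eval_mul, eval_C, eval_X, eval_C]
  rw [ev, ev] at key2
  have h8 : h.eval (t 8) = 0 := by
    rw [ev]
    linear_combination (-1 / 2 : ℂ) * key2
  have hd1 : (X - C (t 8)) ∣ h := dvd_iff_isRoot.2 h8
  have hd2 : (X - C (t 8)) ^ (N - 1) ∣ Q := by
    have h9 : (X - C (t 8)) ^ m 8 ∣ Q :=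
      Finset.dvd_prod_of_mem (fun i => (X - C (t i)) ^ m i) (Finset.mem_univ 8)
    have h10 : m 8 = N - 1 := by rw [hm]; simp
    rwa [h10] at h9
  rw [h2]
  have h11 := mul_dvd_mul hd2 hd1
  rwa [← pow_succ, Nat.sub_add_cancel hN] at h11

end Pool.Agent.Lib.MP_6b2d39_agHal
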