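import Pool.Agent.Lib.MP_6b2d39_agHal.Res

/-!
The Halphen pencil of index `N`: polynomials of degree `3 N` with multiplicity `N` at the nine points.

PROOFS. `res_full`: `natDegree_res` (`≤ 9 M`) and `mult_res`: `res F = c * ∏ (X - t i) ^ M`. `sp_small` (induction on `M`; `M = 0`:
constants): for `0 < M < N` the gluing condition gives `c * (∏ (1 - t i) ^ M - ∏ (-1 - t i) ^ M) = 0` and `Tor.rels` (`k i = M`,
`N` does not divide `M`) gives `c = 0`; `res_ker`: the map `G ↦ cub * G` from `Sp (3 (M - 1) + 1)` is onto.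
`res_tang`: `res F = ∏_{i<8} (X - t i) ^ N * (X - t 8) ^ (N - 1) * (u X + v)`, gluing and `Tor.rel`:
`(u + v) (-1 - t 8) = (v - u) (1 - t 8)`, so `u t 8 + v = 0`.
`tang_dim`: let `F ∈ Sp (3 N + 1) p (N, …, N, N - 1)`; the coefficients `c a b`, `a + b = N - 1`, of `tr (gam (t 8)) F` satisfy
`∑ c a b (2 t 8) ^ a (3 (t 8) ^ 2 - 1) ^ b = 0` (the coefficient of `(t - t 8) ^ (N - 1)` of `res F`, zero by `res_tang`), and
`2 t 8 ≠ 0`: if `c a b = 0` for all `a < N - 1` (these are `N - 1` functionals) then all are `0` and `Mult N`. With `low`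
(`(3 N + 2).choose 2 - 8 (N + 1).choose 2 - N.choose 2 = N + 1`): dimension `≥ N + 1 - (N - 1) = 2`.
`exists_G`: otherwise `res F = 0` for all `F` in `Sp (3 N + 1) p N`, so by `res_ker` its dimension is at most that of
`Sp (3 (N - 1) + 1) p (N - 1)`, which is `≤ 1` by `sp_small`.
-/

open Polynomial

set_option autoImplicit false

namespace Pool.Agent.Lib.MP_6b2d39_agHal

open Pool.Agent.Lib.MP_6b2d39_ag

variable {N : ℕ} {t : Fin 9 → ℂ}

/-- multiplicity in terms of the coefficients of the translated polynomial -/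
private theorem penC_iff {m : ℕ} {p : ℂ × ℂ} {F : ℂ[X][X]} :
    Mult m p F ↔ ∀ a b, a + b < m → ((tr p F).coeff a).coeff b = 0 := by
  unfold Mult
  rw [Pool.Agent.Lib.MP_6b2d39_agWin.cond_iff]
  simp only [coeff_tr]

private theorem penC_CC (p : ℂ × ℂ) (c : ℂ) : tr p (C (C c)) = C (C c) := by
  unfold tr
  rw [aevalAeval_C, aeval_C]
  rfl

private theorem penC_X (p : ℂ × ℂ) : tr p (X - C (C p.1)) = X := by
  rw [map_sub, penC_CC]
  unfold tr
  rw [aevalAeval_Y, add_sub_cancel_right]

private theorem penC_res (p : ℂ × ℂ) : res (X - C (C p.1)) = X ^ 2 - C (p.1 + 1) := by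
  rw [map_sub]
  unfold res
  rw [aevalAeval_Y, aevalAeval_C, aeval_C, algebraMap_eq, C_add, C_1]
  ring

/-- The leading part at a point where the restriction vanishes to higher order. -/
theorem lead_tang {s : ℂ} {n : ℕ} {F : ℂ[X][X]} (hs : s ≠ 0) (h : Mult n (gam s) F)
    (h1 : (X - C s) ^ (n + 1) ∣ res F)
    (h2 : ∀ a < n, ((tr (gam s) F).coeff a).coeff (n - a) = 0) : Mult (n + 1) (gam s) F := by
  classical
  obtain ⟨c, hc⟩ : ∃ c, c = ((tr (gam s) F).coeff n).coeff 0 := ⟨_, rfl⟩
  obtain ⟨L, hL⟩ : ∃ L : ℂ[X][X], L = C (C c) * (X - C (C (gam s).1)) ^ n := ⟨_, rfl⟩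
  have htL : tr (gam s) L = C (C c) * X ^ n := by
    rw [hL, map_mul, map_pow, penC_CC, penC_X]
  have hH : Mult (n + 1) (gam s) (F - L) := by
    rw [penC_iff]
    intro a b hab
    rw [map_sub, htL, coeff_sub, coeff_sub, coeff_C_mul, coeff_X_pow]
    by_cases ha : a = n
    · have hb : b = 0 := by omega
      rw [if_pos ha, ha, hb, ← hc, mul_one, coeff_C_zero, sub_self]
    · rw [if_neg ha, mul_zero, coeff_zero, sub_zero]
      rcases Nat.lt_or_ge (a + b) n with h3 | h3
      · exact penC_iff.1 h a b h3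
      · have hb : b = n - a := by omega
        rw [hb]
        exact h2 a (by omega)
  have h3 : (X - C s) ^ (n + 1) ∣ res L := by
    have h4 := dvd_sub h1 (mult_res hH)
    rwa [map_sub, sub_sub_cancel] at h4
  have hrL : res L = C c * ((X - C s) ^ n * (X + C s) ^ n) := by
    have h5 : res (C (C c)) = C c := by
      unfold res
      rw [aevalAeval_C, aeval_C, algebraMap_eq]
    have h6 : (X : ℂ[X]) ^ 2 - C ((gam s).1 + 1) = (X - C s) * (X + C s) := by
      have h7 : (gam s).1 + 1 = s * s := by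
        unfold gam
        ring
      rw [h7, C_mul]
      ring
    rw [hL, map_mul, map_pow, penC_res, h5, h6, mul_pow]
  have hc0 : c = 0 := by
    by_contra hne
    rw [hrL, pow_succ] at h3
    obtain ⟨q, hq⟩ := h3
    have h7 : (X - C s) ^ n * (C c * (X + C s) ^ n) = (X - C s) ^ n * ((X - C s) * q) := by
      linear_combination hq
    have h8 := mul_left_cancel₀ (pow_ne_zero n (X_sub_C_ne_zero s)) h7
    have h9 := congrArg (eval s) h8
    simp only [eval_mul, eval_C, eval_pow, eval_add, eval_sub, eval_X, sub_self, zero_mul] at h9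
    rcases mul_eq_zero.1 h9 with h10 | h10
    · exact hne h10
    · have h12 : s + s = 0 := eq_zero_of_pow_eq_zero h10
      exact hs (by linear_combination (1 / 2 : ℂ) * h12)
  rw [hL, hc0, C_0, C_0, zero_mul, sub_zero] at hH
  exact hH

end Pool.Agent.Lib.MP_6b2d39_agHal
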