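import Pool.Agent.Lib.MP_6b2d39_agHal.PenA
import Pool.Agent.Lib.MP_6b2d39_agHal.PenB
import Pool.Agent.Lib.MP_6b2d39_agHal.PenC

/-!
The Halphen pencil of index `N`: polynomials of degree `3 N` with multiplicity `N` at the nine points.

PROOFS. `res_full`: `natDegree_res` (`≤ 9 M`) and `mult_res`: `res F = c * ∏ (X - t i) ^ M`. `sp_small` (induction on `M`; `M = 0`:
constants): for `0 < M < N` the gluing condition gives `c * (∏ (1 - t i) ^ M - ∏ (-1 - t i) ^ M) = 0` and `Tor.rels` (`k i = M`,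
`N` does not divide `M`) gives `c = 0`; `res_ker`: the map `G ↦ cub * G` from `Sp (3 (M - 1) + 1)` is onto.
`res_tang`: `res F = ∏_{i<8} (X - t i) ^ N * (X - t 8) ^ (N - 1) * (u X + v)`, gluing and `Tor.rel`:
`(u + v) (-1 - t 8) = (v - u) (1 - t 8)`, so `u t 8 + v = 0`.
`tang_dim`: let `F ∈ Sp (3 N + 1) p (N, …, N, N - 1)`; the coefficients `c a b`, `a + b = N - 1`, of `tr (gam (t 8)) F` satisfy
`∑ c a b (2 t 8) ^ a (3 (t 8) ^ 2 - 1) ^ b = 0` (the coefficient of `(t - t 8) ^ (N - 1)` of `res F`, zero by `res_tang`), and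
`2 t 8 ≠ 0`: if `c a b = 0` for all `a < N - 1` (these are `N - 1` functionals) then all are `0` and `Mult N`. With `low`
(`(3 N + 2).choose 2 - 8 (N + 1).choose 2 - N.choose 2 = N + 1`): dimension `≥ N + 1 - (N - 1) = 2`.
`exists_G`: otherwise `res F = 0` for all `F` in `Sp (3 N + 1) p N`, so by `res_ker` its dimension is at most that of
`Sp (3 (N - 1) + 1) p (N - 1)`, which is `≤ 1` by `sp_small`.
-/

open Polynomial

set_option autoImplicit false

namespace Pool.Agent.Lib.MP_6b2d39_agHal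

open Pool.Agent.Lib.MP_6b2d39_ag

variable {N : ℕ} {t : Fin 9 → ℂ}

/-- the functionals of the leading part at the ninth point -/
private noncomputable def penPhi (N : ℕ) (p : ℂ × ℂ) : ℂ[X][X] →ₗ[ℂ] (Fin (N - 1) → ℂ) :=
  LinearMap.pi fun a => (lcoeff ℂ (N - 1 - a.val)).comp
    ((lcoeff ℂ[X] a.val).restrictScalars ℂ ∘ₗ (tr p).toLinearMap)

private theorem penPhi_apply (N : ℕ) (p : ℂ × ℂ) (F : ℂ[X][X]) (a : Fin (N - 1)) :
    penPhi N p F a = ((tr p F).coeff a.val).coeff (N - 1 - a.val) := rfl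

private theorem penD_lin {V : Type} [AddCommGroup V] [Module ℂ V] (W S : Submodule ℂ V)
    [FiniteDimensional ℂ W] [FiniteDimensional ℂ S] {k : ℕ} (φ : V →ₗ[ℂ] (Fin k → ℂ))
    (h : ∀ F ∈ W, φ F = 0 → F ∈ S) :
    Module.finrank ℂ W ≤ k + Module.finrank ℂ S := by
  have hrk := LinearMap.finrank_range_add_finrank_ker (φ.domRestrict W)
  have hr : Module.finrank ℂ (LinearMap.range (φ.domRestrict W)) ≤ k := by
    refine (Submodule.finrank_le _).trans (le_of_eq ?_)
    rw [Module.finrank_fin_fun]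
  have hle : Module.finrank ℂ (LinearMap.ker (φ.domRestrict W)) ≤ Module.finrank ℂ S := by
    refine LinearMap.finrank_le_finrank_of_injective (f :=
      { toFun := fun F => ⟨((F : W) : V), h F.1.1 F.1.2 (LinearMap.mem_ker.1 F.2)⟩
        map_add' := fun _ _ => rfl
        map_smul' := fun _ _ => rfl }) ?_
    intro F G h
    have h1 := congrArg Subtype.val h
    exact Subtype.ext (Subtype.ext h1)
  omega

private theorem penD_choose {N : ℕ} (hN : 1 ≤ N) : (3 * N + 2).choose 2 =
    8 * (N + 1).choose 2 + N.choose 2 + (N + 1) := by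
  have h1 : (3 * N + 2) * (3 * N + 1) = (3 * N + 2).choose 2 * 2 := by
    have := Nat.add_one_mul_choose_eq (3 * N + 1) 1
    rw [Nat.choose_one_right] at this
    exact this
  have h2 : (N + 1) * N = (N + 1).choose 2 * 2 := by
    have := Nat.add_one_mul_choose_eq N 1
    rw [Nat.choose_one_right] at this
    exact this
  have h3 : N * (N - 1) = N.choose 2 * 2 := by
    obtain ⟨k, rfl⟩ : ∃ k, N = k + 1 := ⟨N - 1, by omega⟩
    have := Nat.add_one_mul_choose_eq k 1
    rw [Nat.choose_one_right] at this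
    exact this
  have h4 : N * (N - 1) + N = N * N := by
    obtain ⟨k, rfl⟩ : ∃ k, N = k + 1 := ⟨N - 1, by omega⟩
    rw [Nat.add_sub_cancel]
    ring
  have h5 : (3 * N + 2) * (3 * N + 1) = 9 * (N * N) + 9 * N + 2 := by ring
  have h6 : (N + 1) * N = N * N + N := by ring
  omega

theorem tang_dim (ht : Tor N t) (hN : 1 ≤ N) :
    2 ≤ Module.finrank ℂ (Sp (3 * N + 1) (fun i => gam (t i)) (fun _ => N)) := by
  classical
  have hsum : ∑ i : Fin 9, ((if i = 8 then N - 1 else N) + 1).choose 2 =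
      8 * (N + 1).choose 2 + N.choose 2 := by
    have h1 : N - 1 + 1 = N := by omega
    rw [Fin.sum_univ_castSucc]
    have h2 : ∀ i : Fin 8, ((if i.castSucc = (8 : Fin 9) then N - 1 else N) + 1).choose 2 =
        (N + 1).choose 2 := by
      intro i
      rw [if_neg]
      intro h
      have h3 := congrArg Fin.val h
      have h4 := i.2
      have h5 : ((8 : Fin 9) : ℕ) = 8 := rfl
      rw [Fin.val_castSucc, h5] at h3
      omega
    simp only [h2]
    rw [Finset.sum_const, Finset.card_univ, Fintype.card_fin, smul_eq_mul]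
    have h3 : (Fin.last 8) = (8 : Fin 9) := rfl
    rw [h3, if_pos rfl, h1]
  have hlow := low (3 * N) (fun i => gam (t i)) (fun i : Fin 9 => if i = 8 then N - 1 else N)
  rw [hsum, penD_choose hN] at hlow
  have hlin := penD_lin
    (Sp (3 * N + 1) (fun i => gam (t i)) (fun i : Fin 9 => if i = 8 then N - 1 else N))
    (Sp (3 * N + 1) (fun i => gam (t i)) (fun _ => N)) (penPhi N (gam (t 8))) (by
    intro F hFW hF
    refine ⟨hFW.1, fun i => ?_⟩
    have h2 : Mult (if i = 8 then N - 1 else N) (gam (t i)) F := hFW.2 i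
    show Mult N (gam (t i)) F
    by_cases hi : i = 8
    · rw [if_pos hi, hi] at h2
      have h3 := lead_tang ht.tan h2 (by
        have h3 := res_tang ht hN hFW
        have h4 : N - 1 + 1 = N := by omega
        rw [h4]
        exact h3) (fun a ha => congrFun hF ⟨a, ha⟩)
      have h4 : N - 1 + 1 = N := by omega
      rw [h4] at h3
      rw [hi]
      exact h3
    · rw [if_neg hi] at h2
      exact h2)
  omega

/-- multiplication by the cubic -/
private noncomputable def penMul : ℂ[X][X] →ₗ[ℂ] ℂ[X][X] where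
  toFun G := cub * G
  map_add' _ _ := mul_add _ _ _
  map_smul' c G := by
    rw [RingHom.id_apply, mul_smul_comm]

theorem exists_G (ht : Tor N t) (hN : 1 ≤ N) :
    ∃ G ∈ Sp (3 * N + 1) (fun i => gam (t i)) (fun _ => N), ∃ c : ℂ, c ≠ 0 ∧
      res G = C c * ∏ i, (X - C (t i)) ^ N := by
  by_contra hcon
  push Not at hcon
  have hzero : ∀ G ∈ Sp (3 * N + 1) (fun i => gam (t i)) (fun _ => N), res G = 0 := by
    intro G hG
    obtain ⟨c, hc⟩ := res_full ht.toPar hG
    by_cases h0 : c = 0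
    · rw [hc, h0, C_0, zero_mul]
    · exact absurd hc (hcon G hG c h0)
  have e1 : 3 * N + 1 - 3 = 3 * (N - 1) + 1 := by omega
  have hsub : Sp (3 * N + 1) (fun i => gam (t i)) (fun _ => N) ≤
      (Sp (3 * (N - 1) + 1) (fun i => gam (t i)) (fun _ => N - 1)).map penMul := by
    intro F hF
    obtain ⟨G, hG, hFG⟩ := res_ker ht.toPar hF (hzero F hF)
    rw [e1] at hG
    exact ⟨G, hG, hFG.symm⟩
  have h1 := Submodule.finrank_mono hsub
  have h2 := Submodule.finrank_map_le penMul
    (Sp (3 * (N - 1) + 1) (fun i => gam (t i)) (fun _ => N - 1))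
  have h3 := sp_small ht (M := N - 1) (by omega)
  have h4 := tang_dim ht hN
  omega

end Pool.Agent.Lib.MP_6b2d39_agHal
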