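import Pool.Agent.Lib.MP_6b2d39_agHal.Mul

/-!
Restriction to the nodal cubic `cub = x ^ 3 + x ^ 2 - y ^ 2`, `x = t ^ 2 - 1`, `y = t ^ 3 - t`.

PROOFS. `natDegree_res`: `x ^ i y ^ j` has degree `2 i + 3 j ≤ 3 (i + j)`. `res_glue`: `gam 1 = gam (-1)`. `mult_res`:
`F ∈ (x - x₀, y - y₀) ^ n` (`cond_iff` of `ThickStep`) and `t - t₀` divides `t ^ 2 - t₀ ^ 2`, `(t ^ 3 - t) - (t₀ ^ 3 - t₀)`.
`exists_cub_mul`: `cub` is monic in `x`: `F %ₘ cub = f₀(y) + f₁(y) x + f₂(y) x ^ 2`, restricted: the degrees in `t` are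
`0, 2, 1` modulo `3` (`3 j`, `3 j + 2`, `3 j + 4`), so `f₀ = f₁ = f₂ = 0`; degree: `inV_cancel` with `¬ InV 3 cub`.
`not_mult_cub`: the gradient `(3 x ^ 2 + 2 x, - 2 y)` is not zero at `gam t`, `t ≠ 1, -1`.
-/

open Polynomial

set_option autoImplicit false

namespace Pool.Agent.Lib.MP_6b2d39_agHal

open Pool.Agent.Lib.MP_6b2d39_ag

private theorem rsa_X : res X = X ^ 2 - 1 := by
  rw [res]
  exact aevalAeval_Y _ _

private theorem rsa_C (p : ℂ[X]) : res (C p) = p.comp (X ^ 3 - X) := by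
  rw [res, aevalAeval_C]
  rfl

theorem res_cub : res cub = 0 := by
  rw [cub, map_sub, map_add, map_pow, map_pow, rsa_X, rsa_C, pow_comp, X_comp]
  ring

theorem res_eval (F : ℂ[X][X]) (t : ℂ) : (res F).eval t = ev (gam t) F := by
  have h : (aeval t : ℂ[X] →ₐ[ℂ] ℂ).comp res = ev (gam t) := by
    have h1 : ∀ φ ψ : ℂ[X][X] →ₐ[ℂ] ℂ, φ (C X) = ψ (C X) → φ X = ψ X → φ = ψ := by
      intro φ ψ h1 h2
      apply AlgHom.coe_ringHom_injective
      apply Polynomial.ringHom_ext'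
      · apply Polynomial.ringHom_ext'
        · ext c
          have h3 := φ.commutes c
          have h4 := ψ.commutes c
          exact h3.trans h4.symm
        · exact h1
      · exact h2
    apply h1
    · rw [AlgHom.comp_apply, rsa_C, X_comp, ev, aevalAeval_X, gam]
      simp
    · rw [AlgHom.comp_apply, rsa_X, ev, aevalAeval_Y, gam]
      simp
  rw [← h, AlgHom.comp_apply]
  exact (coe_aeval_eq_eval t ▸ rfl)

theorem res_glue (F : ℂ[X][X]) : (res F).eval 1 = (res F).eval (-1) := by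
  rw [res_eval, res_eval]
  have h : gam 1 = gam (-1) := by
    rw [gam, gam]
    norm_num
  rw [h]

theorem natDegree_res {n : ℕ} {F : ℂ[X][X]} (h : InV (n + 1) F) : (res F).natDegree ≤ 3 * n := by
  have h1 : res F = ∑ a ∈ F.support, ∑ b ∈ (F.coeff a).support,
      C ((F.coeff a).coeff b) * (X ^ 3 - X) ^ b * (X ^ 2 - 1) ^ a := by
    conv_lhs => rw [F.as_sum_support_C_mul_X_pow]
    rw [map_sum]
    refine Finset.sum_congr rfl fun a _ => ?_
    rw [map_mul, map_pow, rsa_X, rsa_C]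
    conv_lhs => rw [(F.coeff a).as_sum_support_C_mul_X_pow]
    rw [comp, eval₂_finsetSum, Finset.sum_mul]
    refine Finset.sum_congr rfl fun b _ => ?_
    rw [← comp, mul_comp, C_comp, pow_comp, X_comp]
  rw [h1]
  refine natDegree_sum_le_of_forall_le _ _ fun a _ => ?_
  refine natDegree_sum_le_of_forall_le _ _ fun b hb => ?_
  have hab : a + b ≤ n := by
    by_contra h3
    exact mem_support_iff.1 hb (h a b (by omega))
  have h3 : (X ^ 3 - X : ℂ[X]).natDegree ≤ 3 := by compute_degree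
  have h2 : (X ^ 2 - 1 : ℂ[X]).natDegree ≤ 2 := by compute_degree
  have h4 : ((X ^ 3 - X : ℂ[X]) ^ b).natDegree ≤ b * 3 :=
    natDegree_pow_le.trans (Nat.mul_le_mul_left _ h3)
  have h5 : ((X ^ 2 - 1 : ℂ[X]) ^ a).natDegree ≤ a * 2 :=
    natDegree_pow_le.trans (Nat.mul_le_mul_left _ h2)
  refine natDegree_mul_le.trans ?_
  have h6 : (C ((F.coeff a).coeff b) * (X ^ 3 - X) ^ b : ℂ[X]).natDegree ≤ b * 3 :=
    (natDegree_C_mul_le _ _).trans h4
  omega

theorem mult_res {n : ℕ} {t : ℂ} {F : ℂ[X][X]} (h : Mult n (gam t) F) :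
    (X - C t) ^ n ∣ res F := by
  rw [Mult, cond_iff] at h
  have h1 : (Ideal.span {X - C (C (gam t).1), C (X - C (gam t).2)} : Ideal ℂ[X][X]) ≤
      (Ideal.span {X - C t}).comap (res : ℂ[X][X] →+* ℂ[X]) := by
    rw [Ideal.span_le]
    rintro q (rfl | rfl)
    · rw [SetLike.mem_coe, Ideal.mem_comap, Ideal.mem_span_singleton]
      change X - C t ∣ res (X - C (C (gam t).1))
      rw [map_sub, rsa_X, rsa_C, C_comp, gam]
      refine ⟨X + C t, ?_⟩
      simp only [C_sub, C_pow, C_1]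
      ring
    · rw [SetLike.mem_coe, Ideal.mem_comap, Ideal.mem_span_singleton]
      change X - C t ∣ res (C (X - C (gam t).2))
      rw [rsa_C, sub_comp, X_comp, C_comp, gam]
      refine ⟨X ^ 2 + X * C t + C t ^ 2 - 1, ?_⟩
      simp only [C_sub, C_pow]
      ring
  have h2 := Ideal.pow_right_mono h1 n h
  have h3 := Ideal.le_comap_pow (res : ℂ[X][X] →+* ℂ[X]) n h2
  rw [Ideal.mem_comap, Ideal.span_singleton_pow, Ideal.mem_span_singleton] at h3
  exact h3

end Pool.Agent.Lib.MP_6b2d39_agHal
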