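import Pool.Agent.Lib.MP_6b2d39_agHal.ResA

/-!
Restriction to the nodal cubic `cub = x ^ 3 + x ^ 2 - y ^ 2`, `x = t ^ 2 - 1`, `y = t ^ 3 - t`.

PROOFS. `natDegree_res`: `x ^ i y ^ j` has degree `2 i + 3 j ≤ 3 (i + j)`. `res_glue`: `gam 1 = gam (-1)`. `mult_res`:
`F ∈ (x - x₀, y - y₀) ^ n` (`cond_iff` of `ThickStep`) and `t - t₀` divides `t ^ 2 - t₀ ^ 2`, `(t ^ 3 - t) - (t₀ ^ 3 - t₀)`.
`exists_cub_mul`: `cub` is monic in `x`: `F %ₘ cub = f₀(y) + f₁(y) x + f₂(y) x ^ 2`, restricted: the degrees in `t` are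
`0, 2, 1` modulo `3` (`3 j`, `3 j + 2`, `3 j + 4`), so `f₀ = f₁ = f₂ = 0`; degree: `inV_cancel` with `¬ InV 3 cub`.
`not_mult_cub`: the gradient `(3 x ^ 2 + 2 x, - 2 y)` is not zero at `gam t`, `t ≠ 1, -1`.
-/

open Polynomial

set_option autoImplicit false

namespace Pool.Agent.Lib.MP_6b2d39_agHal

open Pool.Agent.Lib.MP_6b2d39_ag

private theorem cub_coeff (a : ℕ) : cub.coeff a =
    (if a = 3 then 1 else 0) + (if a = 2 then 1 else 0) - (if a = 0 then X ^ 2 else 0) := by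
  unfold cub
  rw [coeff_sub, coeff_add, coeff_X_pow, coeff_X_pow, coeff_C]

private theorem not_inV_cub_aux : ¬ InV 3 cub := by
  intro h
  have h1 := h 3 0 (by norm_num)
  rw [cub_coeff] at h1
  simp at h1

private theorem cub_monic : cub.Monic := by
  unfold cub
  monicity!

private theorem cub_degree : cub.degree = 3 := by
  unfold cub
  compute_degree!

private theorem three_aux {A B D : ℂ[X]} (h : A + B + D = 0) (hAB : A ≠ 0 → B ≠ 0 →
    A.natDegree ≠ B.natDegree) (hAD : A ≠ 0 → D ≠ 0 → A.natDegree ≠ D.natDegree)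
    (hBD : B ≠ 0 → D ≠ 0 → B.natDegree ≠ D.natDegree) : A = 0 := by
  by_contra hA
  have h1 : A = -(B + D) := by linear_combination h
  have h2 : A.degree = (B + D).degree := by rw [h1, degree_neg]
  rcases eq_or_ne B 0 with hB | hB
  · rw [hB, zero_add] at h2
    have hD : D ≠ 0 := by
      rintro rfl
      rw [hB, add_zero, neg_zero] at h1
      exact hA h1
    exact hAD hA hD (natDegree_eq_of_degree_eq h2)
  rcases eq_or_ne D 0 with hD | hD
  · rw [hD, add_zero] at h2
    exact hAB hA hB (natDegree_eq_of_degree_eq h2)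
  rcases lt_trichotomy B.degree D.degree with h3 | h3 | h3
  · rw [degree_add_eq_right_of_degree_lt h3] at h2
    exact hAD hA hD (natDegree_eq_of_degree_eq h2)
  · exact hBD hB hD (natDegree_eq_of_degree_eq h3)
  · rw [degree_add_eq_left_of_degree_lt h3] at h2
    exact hAB hA hB (natDegree_eq_of_degree_eq h2)

private theorem res_C (f : ℂ[X]) : res (C f) = f.comp (X ^ 3 - X) := by
  unfold res
  rw [aevalAeval_C, comp, aeval_def]
  rfl

private theorem res_X : res X = X ^ 2 - 1 := by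
  unfold res
  rw [aevalAeval_Y]

private theorem nd3 : (X ^ 3 - X : ℂ[X]).natDegree = 3 := by compute_degree!

private theorem nd2 : (X ^ 2 - 1 : ℂ[X]).natDegree = 2 := by
  have h : (X ^ 2 - 1 : ℂ[X]) = X ^ 2 - C 1 := by rw [C_1]
  rw [h, natDegree_X_pow_sub_C]

private theorem comp_zero_of {f : ℂ[X]} (h : f.comp (X ^ 3 - X) = 0) : f = 0 := by
  rcases comp_eq_zero_iff.1 h with h1 | ⟨-, h1⟩
  · exact h1
  · exfalso
    have h2 := congrArg natDegree h1
    rw [nd3, natDegree_C] at h2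
    exact absurd h2 (by norm_num)

theorem exists_cub_mul {n : ℕ} {F : ℂ[X][X]} (hF : InV n F) (h : res F = 0) :
    ∃ G : ℂ[X][X], F = cub * G ∧ InV (n - 3) G := by
  obtain ⟨R, hR⟩ : ∃ R : ℂ[X][X], R = F %ₘ cub := ⟨_, rfl⟩
  have hdeg : R.degree < 3 := by
    rw [hR, ← cub_degree]
    exact degree_modByMonic_lt F cub_monic
  have hF' : F = R + cub * (F /ₘ cub) := by rw [hR, modByMonic_add_div]
  have hresR : res R = 0 := by
    have h1 := congrArg res hF'
    rw [map_add, map_mul, res_cub, zero_mul, add_zero, h] at h1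
    exact h1.symm
  have hR3 : R = C (R.coeff 0) + C (R.coeff 1) * X + C (R.coeff 2) * X ^ 2 := by
    have h1 := as_sum_range' R 3 (by
      rcases eq_or_ne R 0 with h0 | h0
      · rw [h0]
        norm_num
      · exact (natDegree_lt_iff_degree_lt h0).2 hdeg)
    rw [h1]
    simp only [Finset.sum_range_succ, Finset.sum_range_zero, zero_add, coeff_add,
      ← C_mul_X_pow_eq_monomial, pow_zero, mul_one, pow_one]
    simp [coeff_C]
  obtain ⟨f0, hf0⟩ : ∃ f, f = R.coeff 0 := ⟨_, rfl⟩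
  obtain ⟨f1, hf1⟩ : ∃ f, f = R.coeff 1 := ⟨_, rfl⟩
  obtain ⟨f2, hf2⟩ : ∃ f, f = R.coeff 2 := ⟨_, rfl⟩
  rw [← hf0, ← hf1, ← hf2] at hR3
  rw [hR3, map_add, map_add, map_mul, map_mul, map_pow, res_C, res_C, res_C, res_X] at hresR
  have q0 : (X ^ 2 - 1 : ℂ[X]) ≠ 0 := by
    intro h0
    have := nd2
    rw [h0, natDegree_zero] at this
    exact absurd this (by norm_num)
  have n0 : (f0.comp (X ^ 3 - X)).natDegree = f0.natDegree * 3 := by rw [natDegree_comp, nd3]
  have n1 : f1.comp (X ^ 3 - X) * (X ^ 2 - 1) ≠ 0 →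
      (f1.comp (X ^ 3 - X) * (X ^ 2 - 1)).natDegree = f1.natDegree * 3 + 2 := by
    intro h1
    rw [natDegree_mul (left_ne_zero_of_mul h1) q0, natDegree_comp, nd3, nd2]
  have n2 : f2.comp (X ^ 3 - X) * (X ^ 2 - 1) ^ 2 ≠ 0 →
      (f2.comp (X ^ 3 - X) * (X ^ 2 - 1) ^ 2).natDegree = f2.natDegree * 3 + 4 := by
    intro h1
    rw [natDegree_mul (left_ne_zero_of_mul h1) (pow_ne_zero 2 q0), natDegree_comp, nd3,
      natDegree_pow, nd2]
  have z0 : f0 = 0 := comp_zero_of (three_aux hresR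
    (fun _ h1 => by rw [n0, n1 h1]; omega) (fun _ h1 => by rw [n0, n2 h1]; omega)
    (fun h1 h2 => by rw [n1 h1, n2 h2]; omega))
  have z1 : f1 = 0 := by
    have h1 : f1.comp (X ^ 3 - X) * (X ^ 2 - 1) + f0.comp (X ^ 3 - X) +
        f2.comp (X ^ 3 - X) * (X ^ 2 - 1) ^ 2 = 0 := by linear_combination hresR
    have h2 := three_aux h1 (fun h1 _ => by rw [n0, n1 h1]; omega)
      (fun h1 h2 => by rw [n1 h1, n2 h2]; omega) (fun _ h1 => by rw [n0, n2 h1]; omega)
    exact comp_zero_of ((mul_eq_zero.1 h2).resolve_right q0)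
  have z2 : f2 = 0 := by
    rw [z0, z1, zero_comp, zero_mul, zero_add, zero_add] at hresR
    exact comp_zero_of ((mul_eq_zero.1 hresR).resolve_right (pow_ne_zero 2 q0))
  have hR0 : R = 0 := by
    rw [hR3, z0, z1, z2, C_0, zero_mul, zero_mul, add_zero, add_zero]
  rw [hR0, zero_add] at hF'
  refine ⟨F /ₘ cub, hF', ?_⟩
  refine inV_cancel not_inV_cub_aux (b := n - 3) ?_
  rw [← hF']
  exact inV_mono (by omega) hF

theorem inV_cub : InV 4 cub := by
  intro a b hab
  rw [cub_coeff, coeff_sub, coeff_add]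
  have e1 : (if a = 3 then (1 : ℂ[X]) else 0).coeff b = 0 := by
    split_ifs with h
    · rw [coeff_one, if_neg (by omega)]
    · exact coeff_zero b
  have e2 : (if a = 2 then (1 : ℂ[X]) else 0).coeff b = 0 := by
    split_ifs with h
    · rw [coeff_one, if_neg (by omega)]
    · exact coeff_zero b
  have e3 : (if a = 0 then (X ^ 2 : ℂ[X]) else 0).coeff b = 0 := by
    split_ifs with h
    · rw [coeff_X_pow, if_neg (by omega)]
    · exact coeff_zero b
  rw [e1, e2, e3]
  ring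

theorem not_inV_cub : ¬ InV 3 cub := not_inV_cub_aux

theorem mult_cub (t : ℂ) : Mult 1 (gam t) cub := by
  rw [mult_one_iff, ← res_eval, res_cub, eval_zero]

theorem not_mult_cub {t : ℂ} (h : t ≠ 1) (h' : t ≠ -1) : ¬ Mult 2 (gam t) cub := by
  intro hm
  obtain ⟨x, hx⟩ : ∃ x, x = t ^ 2 - 1 := ⟨_, rfl⟩
  obtain ⟨y, hy⟩ : ∃ y, y = t ^ 3 - t := ⟨_, rfl⟩
  have hm' : Cond (Finset.Icc 1 2) x y cub := by
    rw [hx, hy]
    exact hm
  have h0 := hm' 0
  have h1 := hm' 1
  rw [colH_Icc_thick] at h0 h1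
  rw [taylor_coeff_zero] at h0
  rw [taylor_coeff_one] at h1
  have e0 : cub.eval (C x) = C (x ^ 3 + x ^ 2) - X ^ 2 := by
    unfold cub
    simp
  have e1 : (derivative cub).eval (C x) = C (3 * x ^ 2 + 2 * x) := by
    unfold cub
    rw [derivative_sub, derivative_C, sub_zero, derivative_add, derivative_X_pow, derivative_X_pow,
      eval_add, eval_mul, eval_mul, eval_C, eval_C, eval_pow, eval_pow, eval_X, C_add, C_mul, C_mul,
      C_pow, C_ofNat, C_ofNat]
    norm_num
  rw [e0] at h0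
  rw [e1] at h1
  have hy0 : y = 0 := by
    obtain ⟨q, hq⟩ := h0
    have h2 := congrArg (fun f => (derivative f).eval y) hq
    simp [derivative_mul, derivative_pow] at h2
    exact h2
  have hx0 : 3 * x ^ 2 + 2 * x = 0 := by
    obtain ⟨q, hq⟩ := h1
    have h2 := congrArg (fun f => f.eval y) hq
    simpa using h2
  have ht : t * ((t - 1) * (t + 1)) = 0 := by
    rw [hy0] at hy
    linear_combination -hy
  have ht0 : t = 0 := by
    rcases mul_eq_zero.1 ht with h2 | h2
    · exact h2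
    · rcases mul_eq_zero.1 h2 with h3 | h3
      · exact absurd (sub_eq_zero.1 h3) h
      · exact absurd (eq_neg_of_add_eq_zero_left h3) h'
  rw [hx, ht0] at hx0
  norm_num at hx0

theorem cub_ne_zero : cub ≠ 0 := cub_monic.ne_zero

end Pool.Agent.Lib.MP_6b2d39_agHal
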