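import Pool.Agent.Lib.MP_6b2d39_agHal.Res
import Pool.Agent.Lib.MP_6b2d39_agHal.Par

/-!
Rows on the nodal cubic and the exact dimension of the reduced nine-point systems.

PROOF of `poly_row`: `h ↦ Q * h` is a bijection from the polynomials `h` of degree `≤ s` to the first two conditions
(`Q = ∏ (X - t i) ^ m i`), and the last one is a functional `Q(1) h(1) - Q(-1) h(-1)` of `h`, not zero since `Q(1) ≠ 0` and
`s ≥ 1`: take `h = X + 1`.
PROOF of `row_le`: `res` maps `Sp (n + 1) p m` to `RowSp` (`natDegree_res`, `mult_res`, coprimality of the `X - t i`, `res_glue`);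
the kernel is the image of `Sp (n + 1 - 3) p (m - 1)` under multiplication by `cub` (`exists_cub_mul`, `mult_cancel` with
`not_mult_cub`).
PROOF of `exact_le`: induction on `n`. If `m 2 = 0`: `two_le` with `i = 0`, `j = 1`. Otherwise `row_le` with `s = 3 n - ∑ m i`
and the induction hypothesis for `n - 3`, `m - 1`: if `m 8 ≥ 1`, then `∑ (m i - 1) = ∑ m i - 9 < 3 (n - 3)`; if `m 8 = 0` and
`c = m 2 - 1 ≥ 1`: `∑ (m i - 1) ≤ (m 0 - 1) + (m 1 - 1) + 6 c < 3 ((m 0 - 1) + (m 1 - 1) + c) ≤ 3 (n - 3)`.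
-/

open Polynomial

set_option autoImplicit false

namespace Pool.Agent.Lib.MP_6b2d39_agHal

open Pool.Agent.Lib.MP_6b2d39_ag

/-- restrictions of the polynomials of a system to the cubic -/
def RowSp (e : ℕ) (t : Fin 9 → ℂ) (m : Fin 9 → ℕ) : Submodule ℂ ℂ[X] where
  carrier := {q | q.natDegree ≤ e ∧ (∏ i, (X - C (t i)) ^ m i) ∣ q ∧ q.eval 1 = q.eval (-1)}
  zero_mem' := by simp
  add_mem' := by
    rintro a b ⟨h1, h2, h3⟩ ⟨h4, h5, h6⟩
    refine ⟨(natDegree_add_le _ _).trans (max_le h1 h4), dvd_add h2 h5, ?_⟩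
    rw [eval_add, eval_add, h3, h6]
  smul_mem' := by
    rintro c a ⟨h1, h2, h3⟩
    refine ⟨(natDegree_smul_le _ _).trans h1, ?_, ?_⟩
    · rw [smul_eq_C_mul]
      exact Dvd.dvd.mul_left h2 _
    · rw [eval_smul, eval_smul, h3]

private theorem ra_finite (n : ℕ) : FiniteDimensional ℂ (degreeLT ℂ n) :=
  Module.Finite.equiv (degreeLTEquiv ℂ n).symm

private theorem ra_finrank (n : ℕ) : Module.finrank ℂ (degreeLT ℂ n) = n := by
  rw [(degreeLTEquiv ℂ n).finrank_eq, Module.finrank_fin_fun]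

theorem rowSp_finite (e : ℕ) (t : Fin 9 → ℂ) (m : Fin 9 → ℕ) :
    FiniteDimensional ℂ (RowSp e t m) := by
  have := ra_finite (e + 1)
  refine Submodule.finiteDimensional_of_le (S₂ := degreeLT ℂ (e + 1)) fun q hq => ?_
  rw [mem_degreeLT]
  exact lt_of_le_of_lt (degree_le_of_natDegree_le hq.1) (by exact_mod_cast Nat.lt_succ_self e)

theorem poly_row {e s : ℕ} {t : Fin 9 → ℂ} (ht : Par t) {m : Fin 9 → ℕ} (hs : 1 ≤ s)
    (h : e = ∑ i, m i + s) : Module.finrank ℂ (RowSp e t m) ≤ s := by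
  set Q : ℂ[X] := ∏ i, (X - C (t i)) ^ m i with hQ
  have hQm : Q.Monic := monic_prod_of_monic _ _ fun i _ => (monic_X_sub_C (t i)).pow _
  have hQd : Q.natDegree = ∑ i, m i := by
    rw [hQ, natDegree_prod_of_monic _ _ fun i _ => (monic_X_sub_C (t i)).pow _]
    refine Finset.sum_congr rfl fun i _ => ?_
    rw [(monic_X_sub_C (t i)).natDegree_pow, natDegree_X_sub_C, mul_one]
  have hQ1 : Q.eval 1 ≠ 0 := by
    rw [hQ, eval_prod, Finset.prod_ne_zero_iff]
    intro i _
    rw [eval_pow, eval_sub, eval_X, eval_C]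
    exact pow_ne_zero _ (sub_ne_zero.2 (ht.ne_one i).symm)
  -- the functional
  let ψ : degreeLT ℂ (s + 1) →ₗ[ℂ] ℂ :=
    ((Q.eval 1) • leval (1 : ℂ) - (Q.eval (-1)) • leval (-1 : ℂ)).comp (degreeLT ℂ (s + 1)).subtype
  have hψ : ∀ x, ψ x = Q.eval 1 * (x : ℂ[X]).eval 1 - Q.eval (-1) * (x : ℂ[X]).eval (-1) :=
    fun x => rfl
  have := ra_finite (s + 1)
  have hsurj : LinearMap.range ψ = ⊤ := by
    rw [LinearMap.range_eq_top]
    refine LinearMap.surjective fun h0 => ?_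
    have hx : (X + 1 : ℂ[X]) ∈ degreeLT ℂ (s + 1) := by
      rw [mem_degreeLT]
      have h1 : (X + 1 : ℂ[X]).degree = 1 := by
        have := degree_X_add_C (1 : ℂ)
        rwa [C_1] at this
      rw [h1]
      have h2 : (1 : ℕ) < s + 1 := by omega
      exact_mod_cast h2
    have h1 := hψ ⟨X + 1, hx⟩
    rw [h0] at h1
    simp only [LinearMap.zero_apply, eval_add, eval_X, eval_one, neg_add_cancel, mul_zero,
      sub_zero] at h1
    have h2 : Q.eval 1 * (1 + 1) ≠ 0 := mul_ne_zero hQ1 (by norm_num)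
    exact h2 h1.symm
  have hker : Module.finrank ℂ (LinearMap.ker ψ) = s := by
    have h1 := LinearMap.finrank_range_add_finrank_ker ψ
    rw [hsurj, finrank_top, Module.finrank_self, ra_finrank] at h1
    omega
  -- multiplication by `Q`
  let μ : LinearMap.ker ψ →ₗ[ℂ] ℂ[X] :=
    (LinearMap.mulLeft ℂ Q).comp ((degreeLT ℂ (s + 1)).subtype.comp (LinearMap.ker ψ).subtype)
  have hμ : ∀ x, μ x = Q * ((x : degreeLT ℂ (s + 1)) : ℂ[X]) := fun x => rfl
  have hle : RowSp e t m ≤ LinearMap.range μ := by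
    rintro q ⟨h1, ⟨g, hg⟩, h3⟩
    rw [← hQ] at hg
    have hg1 : g ∈ degreeLT ℂ (s + 1) := by
      rw [mem_degreeLT]
      by_cases hg0 : g = 0
      · rw [hg0, degree_zero]
        exact WithBot.bot_lt_coe _
      · have h4 : q.natDegree = Q.natDegree + g.natDegree := by
          rw [hg, hQm.natDegree_mul' hg0]
        have h5 : g.natDegree < s + 1 := by omega
        rw [degree_eq_natDegree hg0]
        exact_mod_cast h5
    have hg2 : ψ ⟨g, hg1⟩ = 0 := by
      rw [hψ]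
      rw [hg, eval_mul, eval_mul] at h3
      exact sub_eq_zero.2 h3
    refine ⟨⟨⟨g, hg1⟩, hg2⟩, ?_⟩
    rw [hμ, hg]
  calc Module.finrank ℂ (RowSp e t m) ≤ Module.finrank ℂ (LinearMap.range μ) :=
        Submodule.finrank_mono hle
    _ ≤ Module.finrank ℂ (LinearMap.ker ψ) := LinearMap.finrank_range_le μ
    _ = s := hker

end Pool.Agent.Lib.MP_6b2d39_agHal
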