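import Pool.Agent.Lib.MP_6b2d39_agHal.RowA

/-!
Rows on the nodal cubic and the exact dimension of the reduced nine-point systems.

PROOF of `poly_row`: `h ↦ Q * h` is a bijection from the polynomials `h` of degree `≤ s` to the first two conditions
(`Q = ∏ (X - t i) ^ m i`), and the last one is a functional `Q(1) h(1) - Q(-1) h(-1)` of `h`, not zero since `Q(1) ≠ 0` and
`s ≥ 1`: take `h = X + 1`.
PROOF of `row_le`: `res` maps `Sp (n + 1) p m` to `RowSp` (`natDegree_res`, `mult_res`, coprimality of the `X - t i`, `res_glue`);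
the kernel is the image of `Sp (n + 1 - 3) p (m - 1)` under multiplication by `cub` (`exists_cub_mul`, `mult_cancel` with
`not_mult_cub`).
PROOF of `exact_le`: induction on `n`. If `m 2 = 0`: `two_le` with `i = 0`, `j = 1`. Otherwise `row_le` with `s = 3 n - ∑ m i`
and the induction hypothesis for `n - 3`, `m - 1`: if `m 8 ≥ 1`, then `∑ (m i - 1) = ∑ m i - 9 < 3 (n - 3)`; if `m 8 = 0` and
`c = m 2 - 1 ≥ 1`: `∑ (m i - 1) ≤ (m 0 - 1) + (m 1 - 1) + 6 c < 3 ((m 0 - 1) + (m 1 - 1) + c) ≤ 3 (n - 3)`.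
-/

open Polynomial

set_option autoImplicit false

namespace Pool.Agent.Lib.MP_6b2d39_agHal

open Pool.Agent.Lib.MP_6b2d39_ag

theorem res_mem {n : ℕ} {t : Fin 9 → ℂ} (ht : Par t) {m : Fin 9 → ℕ} {F : ℂ[X][X]}
    (hF : F ∈ Sp (n + 1) (fun i => gam (t i)) m) : res F ∈ RowSp (3 * n) t m := by
  refine ⟨natDegree_res hF.1, ?_, res_glue F⟩
  refine Finset.prod_dvd_of_coprime (fun i _ j _ hij => ?_) fun i _ => mult_res (hF.2 i)
  exact (pairwise_coprime_X_sub_C ht.inj hij).pow

/-- kernel of the restriction -/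
theorem res_ker {n : ℕ} {t : Fin 9 → ℂ} (ht : Par t) {m : Fin 9 → ℕ} {F : ℂ[X][X]}
    (hF : F ∈ Sp n (fun i => gam (t i)) m) (h : res F = 0) :
    ∃ G ∈ Sp (n - 3) (fun i => gam (t i)) (fun i => m i - 1), F = cub * G := by
  obtain ⟨G, hG, hG1⟩ := exists_cub_mul hF.1 h
  refine ⟨G, ⟨hG1, fun i => ?_⟩, hG⟩
  rcases Nat.eq_zero_or_pos (m i) with h0 | h0
  · change Mult (m i - 1) (gam (t i)) G
    rw [h0]
    exact mult_zero _ _
  · refine mult_cancel (a := 1) (not_mult_cub (ht.ne_one i) (ht.ne_neg i)) ?_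
    rw [← hG, show 1 + (m i - 1) = m i by omega]
    exact hF.2 i

private theorem rb_rank {K M N : Type} [Field K] [AddCommGroup M] [Module K M] [AddCommGroup N]
    [Module K N] (V : Submodule K M) [FiniteDimensional K V] (ρ : M →ₗ[K] N) :
    Module.finrank K (V.map ρ) + Module.finrank K (V ⊓ LinearMap.ker ρ : Submodule K M) =
      Module.finrank K V := by
  have h1 := LinearMap.finrank_range_add_finrank_ker (ρ.comp V.subtype)
  rw [LinearMap.range_comp, Submodule.range_subtype] at h1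
  rw [← h1, LinearMap.ker_comp, ← Submodule.finrank_map_subtype_eq V (Submodule.comap _ _),
    Submodule.map_comap_subtype]

private theorem rb_mono {K M : Type} [Field K] [AddCommGroup M] [Module K M]
    {V W : Submodule K M} [FiniteDimensional K W] (h : V ≤ W) :
    Module.finrank K V ≤ Module.finrank K W := Submodule.finrank_mono h

private theorem rb_map {K M N : Type} [Field K] [AddCommGroup M] [Module K M] [AddCommGroup N]
    [Module K N] (V : Submodule K N) (W : Submodule K M) [FiniteDimensional K W] (μ : M →ₗ[K] N)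
    (h : V ≤ W.map μ) : Module.finrank K V ≤ Module.finrank K W :=
  (Submodule.finrank_mono h).trans (Submodule.finrank_map_le μ W)

theorem row_le {n s : ℕ} {t : Fin 9 → ℂ} (ht : Par t) {m : Fin 9 → ℕ} (hs : 1 ≤ s)
    (h : 3 * n = ∑ i, m i + s) :
    Module.finrank ℂ (Sp (n + 1) (fun i => gam (t i)) m) ≤
      s + Module.finrank ℂ (Sp (n + 1 - 3) (fun i => gam (t i)) (fun i => m i - 1)) := by
  have h1 := rb_rank (Sp (n + 1) (fun i => gam (t i)) m) res.toLinearMap
  have h2 : Module.finrank ℂ ((Sp (n + 1) (fun i => gam (t i)) m).map res.toLinearMap) ≤ s := by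
    have := rowSp_finite (3 * n) t m
    refine (rb_mono ?_).trans (poly_row ht hs h)
    rintro _ ⟨x, hx, rfl⟩
    exact res_mem ht hx
  have h3 : Module.finrank ℂ (Sp (n + 1) (fun i => gam (t i)) m ⊓ LinearMap.ker res.toLinearMap :
      Submodule ℂ ℂ[X][X]) ≤
      Module.finrank ℂ (Sp (n + 1 - 3) (fun i => gam (t i)) (fun i => m i - 1)) := by
    refine rb_map (Sp (n + 1) (fun i => gam (t i)) m ⊓ LinearMap.ker res.toLinearMap)
      (Sp (n + 1 - 3) (fun i => gam (t i)) (fun i => m i - 1)) (LinearMap.mulLeft ℂ cub) ?_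
    rintro x ⟨hx, hx'⟩
    obtain ⟨G, hG, hG'⟩ := res_ker ht hx hx'
    exact ⟨G, hG, hG'.symm⟩
  omega

end Pool.Agent.Lib.MP_6b2d39_agHal
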