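import Pool.Agent.Lib.MP_6b2d39_agHal.RowB
import Pool.Agent.Lib.MP_6b2d39_agHal.Low
import Pool.Agent.Lib.MP_6b2d39_agHal.Two

/-!
Rows on the nodal cubic and the exact dimension of the reduced nine-point systems.

PROOF of `poly_row`: `h ↦ Q * h` is a bijection from the polynomials `h` of degree `≤ s` to the first two conditions
(`Q = ∏ (X - t i) ^ m i`), and the last one is a functional `Q(1) h(1) - Q(-1) h(-1)` of `h`, not zero since `Q(1) ≠ 0` and
`s ≥ 1`: take `h = X + 1`.
PROOF of `row_le`: `res` maps `Sp (n + 1) p m` to `RowSp` (`natDegree_res`, `mult_res`, coprimality of the `X - t i`, `res_glue`);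
the kernel is the image of `Sp (n + 1 - 3) p (m - 1)` under multiplication by `cub` (`exists_cub_mul`, `mult_cancel` with
`not_mult_cub`).
PROOF of `exact_le`: induction on `n`. If `m 2 = 0`: `two_le` with `i = 0`, `j = 1`. Otherwise `row_le` with `s = 3 n - ∑ m i`
and the induction hypothesis for `n - 3`, `m - 1`: if `m 8 ≥ 1`, then `∑ (m i - 1) = ∑ m i - 9 < 3 (n - 3)`; if `m 8 = 0` and
`c = m 2 - 1 ≥ 1`: `∑ (m i - 1) ≤ (m 0 - 1) + (m 1 - 1) + 6 c < 3 ((m 0 - 1) + (m 1 - 1) + c) ≤ 3 (n - 3)`.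
-/

open Polynomial

set_option autoImplicit false

namespace Pool.Agent.Lib.MP_6b2d39_agHal

open Pool.Agent.Lib.MP_6b2d39_ag

private theorem rc_sum (f : Fin 9 → ℕ) :
    ∑ i, f i = f 0 + f 1 + f 2 + f 3 + f 4 + f 5 + f 6 + f 7 + f 8 := by
  rw [Fin.sum_univ_castSucc, Fin.sum_univ_eight]
  rfl

private theorem rc_choose (a : ℕ) : (a + 1).choose 2 = a + (a - 1 + 1).choose 2 := by
  cases a with
  | zero => rfl
  | succ a =>
    rw [Nat.add_sub_cancel, Nat.choose_succ_succ' (a + 1) 1, Nat.choose_one_right]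

private theorem rc_three (n : ℕ) : (n + 3 + 2).choose 2 = 3 * (n + 3) + (n + 2).choose 2 := by
  rw [Nat.choose_succ_succ' (n + 4) 1, Nat.choose_succ_succ' (n + 3) 1,
    Nat.choose_succ_succ' (n + 2) 1, Nat.choose_one_right, Nat.choose_one_right,
    Nat.choose_one_right]
  ring

theorem exact_le {t : Fin 9 → ℂ} (ht : Par t) : ∀ (n : ℕ) (m : Fin 9 → ℕ), Antitone m →
    m 0 + m 1 + m 2 ≤ n → (m 2 = 0 ∨ ∑ i, m i < 3 * n) →
    Module.finrank ℂ (Sp (n + 1) (fun i => gam (t i)) m) + ∑ i, (m i + 1).choose 2 ≤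
      (n + 2).choose 2 := by
  intro n
  induction n using Nat.strong_induction_on with
  | _ n ih =>
    intro m hm hr h
    by_cases h2 : m 2 = 0
    · refine two_le (i := 0) (j := 1) (by decide) ?_ ?_ ?_
      · intro k hk0 hk1
        have h3 : (2 : Fin 9) ≤ k := by
          rw [Fin.le_def]
          have h4 : (k : ℕ) ≠ 0 := fun h => hk0 (Fin.ext h)
          have h5 : (k : ℕ) ≠ 1 := fun h => hk1 (Fin.ext h)
          change 2 ≤ (k : ℕ)
          omega
        have h4 := hm h3
        omega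
      · intro h3
        exact absurd (ht.ord h3) (by decide)
      · omega
    · have hs : ∑ i, m i < 3 * n := h.resolve_left h2
      have h10 : m 1 ≤ m 0 := hm (by decide)
      have h21 : m 2 ≤ m 1 := hm (by decide)
      have h32 : m 3 ≤ m 2 := hm (by decide)
      have h42 : m 4 ≤ m 2 := hm (by decide)
      have h52 : m 5 ≤ m 2 := hm (by decide)
      have h62 : m 6 ≤ m 2 := hm (by decide)
      have h72 : m 7 ≤ m 2 := hm (by decide)
      have h83 : m 8 ≤ m 3 := hm (by decide)
      have h84 : m 8 ≤ m 4 := hm (by decide)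
      have h85 : m 8 ≤ m 5 := hm (by decide)
      have h86 : m 8 ≤ m 6 := hm (by decide)
      have h87 : m 8 ≤ m 7 := hm (by decide)
      obtain ⟨n', rfl⟩ : ∃ n', n = n' + 3 := ⟨n - 3, by omega⟩
      obtain ⟨s, hs1⟩ : ∃ s, 3 * (n' + 3) = ∑ i, m i + s := ⟨3 * (n' + 3) - ∑ i, m i, by omega⟩
      have h3 := row_le ht (m := m) (by omega : 1 ≤ s) hs1
      have h4 : n' + 3 + 1 - 3 = n' + 1 := by omega
      rw [h4] at h3
      have h5 := ih n' (by omega) (fun i => m i - 1)
        (fun i j hij => Nat.sub_le_sub_right (hm hij) 1) (by omega) ?_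
      · have h6 : ∑ i, (m i + 1).choose 2 = ∑ i, m i + ∑ i, (m i - 1 + 1).choose 2 := by
          rw [← Finset.sum_add_distrib]
          exact Finset.sum_congr rfl fun i _ => rc_choose (m i)
        rw [h6, rc_three]
        omega
      · rw [rc_sum] at hs
        by_cases h8 : m 2 - 1 = 0
        · exact Or.inl h8
        · right
          rw [rc_sum]
          omega

/-- exact dimension -/
theorem exact_eq {t : Fin 9 → ℂ} (ht : Par t) {n : ℕ} {m : Fin 9 → ℕ} (hm : Antitone m)
    (hr : m 0 + m 1 + m 2 ≤ n) (h : ∑ i, m i < 3 * n) :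
    Module.finrank ℂ (Sp (n + 1) (fun i => gam (t i)) m) + ∑ i, (m i + 1).choose 2 =
      (n + 2).choose 2 := by
  refine le_antisymm (exact_le ht n m hm hr (Or.inr h)) ?_
  rw [add_comm (Module.finrank ℂ _)]
  exact low n _ m

end Pool.Agent.Lib.MP_6b2d39_agHal
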