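import Pool.Agent.Lib.MP_6b2d39_agHal.Win
import Pool.Agent.Lib.MP_6b2d39_agNw.Nine

/-!
The window for nine arbitrary multiplicities.
-/

open Polynomial

set_option autoImplicit false

namespace Pool.Agent.Lib.MP_6b2d39_agHal

open Pool.Agent.Lib.MP_6b2d39_ag Pool.Agent.Lib.MP_6b2d39_agWin Pool.Agent.Lib.MP_6b2d39_agNw
  Pool.Agent.Lib.MP_6b2d39_agCr

/-- window for reduced systems: tenth largest multiplicity -/
theorem window_ten {h : ℕ} (hh : 3 ≤ h) {e : ℕ} {n : Fin h → ℕ} (hred : Reduced e n) {μ : ℕ}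
    (hμ : 1 ≤ μ) (hc : (Finset.univ.filter (fun i => μ < n i)).card ≤ 9)
    (hv : vd e n ≤ -(15 * (μ : ℤ) ^ 2) ∨ 7 * (μ : ℤ) ^ 2 ≤ vd e n) :
    General (fun P => (Module.finrank ℂ (curves e n P) : ℤ) = max (vd e n) 0) := by
  have hv' : vd e n ≤ -(3 * (μ : ℤ) ^ 2) ∨ 6 * (μ : ℤ) ^ 2 ≤ vd e n := by
    rcases hv with h1 | h1
    · left
      nlinarith [sq_nonneg (μ : ℤ)]
    · right
      nlinarith [sq_nonneg (μ : ℤ)]
  rcases Nat.lt_or_ge (Finset.univ.filter (fun i => μ < n i)).card 9 with h8 | h9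
  · exact window_nine hh hred hμ (Or.inl (by omega)) hv'
  · have h9' : (Finset.univ.filter (fun i => μ < n i)).card = 9 := le_antisymm hc h9
    rcases Nat.lt_or_ge (3 * e) (∑ i ∈ Finset.univ.filter (fun i => μ < n i), n i + μ)
      with hs | hs
    · rcases hv with h1 | h1
      · exact window_neg hred h9' hs h1
      · exact window_pos hred h9' hs h1
    · exact window_nine hh hred hμ (Or.inr ⟨h9', hs⟩) hv'

/-- the final theorem of stage 2 -/
theorem hh_ten {h : ℕ} (hh : 3 ≤ h) (d : ℕ) (m : Fin h → ℕ) :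
    General (fun P => IsSpecial d m P ↔ IsMinusOneSpecial d m P) ∨
      ∃ (e : ℕ) (n : Fin h → ℕ), Relation.ReflTransGen CremonaStep (d, m) (e, n) ∧
        Reduced e n ∧ General (fun P => IsSpecial e n P) ∧
        ∀ μ : ℕ, 1 ≤ μ →
          (((Finset.univ.filter (fun i => μ < n i)).card ≤ 8 ∨
            ((Finset.univ.filter (fun i => μ < n i)).card = 9 ∧
              ∑ i ∈ Finset.univ.filter (fun i => μ < n i), n i + μ ≤ 3 * e)) →
            -(3 * (μ : ℤ) ^ 2) < vd e n ∧ vd e n < 6 * (μ : ℤ) ^ 2) ∧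
          ((Finset.univ.filter (fun i => μ < n i)).card ≤ 9 →
            -(15 * (μ : ℤ) ^ 2) < vd e n ∧ vd e n < 7 * (μ : ℤ) ^ 2) := by
  rcases hh_main hh d m with h1 | ⟨e, n, hr, hred, hbad⟩
  · exact Or.inl h1
  · refine Or.inr ⟨e, n, hr, hred, general_special_of_bad hbad, ?_⟩
    intro μ hμ
    refine ⟨fun hc => ?_, fun hc => ?_⟩
    · by_contra hcon
      apply hbad
      apply window_nine hh hred hμ hc
      by_contra hne
      push Not at hne
      exact hcon hne
    · by_contra hcon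
      apply hbad
      apply window_ten hh hred hμ hc
      by_contra hne
      push Not at hne
      exact hcon hne

end Pool.Agent.Lib.MP_6b2d39_agHal
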