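import Pool.Agent.Lib.MP_6b2d39_agHal.Mul

/-!
Systems with two points.

PROOF. Shear `S : F(x, y) ↦ F(x + l y, y)` (an automorphism of `ℂ[X][X]` which preserves the total degree; `mult_comp`) with
`l` such that both points get the same first coordinate; then a translation (`tr`): the points are `(0, y₁)`, `(0, y₂)`,
`y₁ ≠ y₂`. Now `F = ∑ f_a(y) x ^ a` and `Cond` says: `(y - y₁) ^ (α - a)` and `(y - y₂) ^ (β - a)` divide `f_a` (the Taylor
expansion at `x = 0` is `F`), so `f_a` is in a space of dimension `≤ (n - a + 1) - (α - a) - (β - a)` (`α + β ≤ n`).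
-/

open Polynomial

set_option autoImplicit false

namespace Pool.Agent.Lib.MP_6b2d39_agHal

open Pool.Agent.Lib.MP_6b2d39_ag

private noncomputable def twoQ (α β : ℕ) (y₁ y₂ : ℂ) (a : ℕ) : ℂ[X] :=
  (X - C y₁) ^ (α - a) * (X - C y₂) ^ (β - a)

private def twoN (n α β a : ℕ) : ℕ := n + 1 - a - (α - a) - (β - a)

private noncomputable def twoB (n α β : ℕ) (y₁ y₂ : ℂ)
    (z : (a : Fin (n + 1)) × Fin (twoN n α β a)) : ℂ[X][X] :=
  monomial z.1.1 (twoQ α β y₁ y₂ z.1.1 * X ^ z.2.1)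

private theorem twoQ_ne (α β : ℕ) (y₁ y₂ : ℂ) (a : ℕ) : twoQ α β y₁ y₂ a ≠ 0 :=
  mul_ne_zero (pow_ne_zero _ (X_sub_C_ne_zero _)) (pow_ne_zero _ (X_sub_C_ne_zero _))

private theorem twoQ_deg (α β : ℕ) (y₁ y₂ : ℂ) (a : ℕ) :
    (twoQ α β y₁ y₂ a).natDegree = (α - a) + (β - a) := by
  unfold twoQ
  rw [natDegree_mul (pow_ne_zero _ (X_sub_C_ne_zero _)) (pow_ne_zero _ (X_sub_C_ne_zero _)),
    natDegree_pow, natDegree_pow, natDegree_X_sub_C, natDegree_X_sub_C, mul_one, mul_one]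

private theorem two_dvd {F : ℂ[X][X]} {α : ℕ} {y : ℂ} (h : Mult α (0, y) F) (a : ℕ) :
    (X - C y) ^ (α - a) ∣ F.coeff a := by
  have h1 := h a
  rw [colH_Icc_thick] at h1
  have h2 : taylor (C (0 : ℂ)) F = F := by
    rw [C_0, taylor_zero]
  have h3 : (taylor (C ((0 : ℂ), y).1) F) = F := h2
  rw [h3] at h1
  exact h1

private theorem two_mem {n α β : ℕ} {y₁ y₂ : ℂ} (hy : y₁ ≠ y₂) {F : ℂ[X][X]}
    (hF : F ∈ Sp (n + 1) ![((0 : ℂ), y₁), ((0 : ℂ), y₂)] ![α, β]) :
    F ∈ Submodule.span ℂ (Set.range (twoB n α β y₁ y₂)) := by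
  obtain ⟨hV, hM⟩ := hF
  have h1 : ∀ a, (X - C y₁) ^ (α - a) ∣ F.coeff a := two_dvd (hM 0)
  have h2 : ∀ a, (X - C y₂) ^ (β - a) ∣ F.coeff a := two_dvd (hM 1)
  have hc : ∀ a, IsCoprime ((X - C y₁) ^ (α - a)) ((X - C y₂) ^ (β - a)) := fun a =>
    (isCoprime_X_sub_C_of_isUnit_sub (isUnit_iff_ne_zero.2 (sub_ne_zero.2 hy))).pow
  have hd : ∀ a, twoQ α β y₁ y₂ a ∣ F.coeff a := fun a => (hc a).mul_dvd (h1 a) (h2 a)
  have hn : F.natDegree < n + 1 := by
    by_contra h3
    have h4 : F ≠ 0 := by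
      rintro rfl
      rw [natDegree_zero] at h3
      omega
    have h5 : F.coeff F.natDegree = 0 := by
      ext b
      rw [coeff_zero]
      exact hV _ b (by omega)
    exact h4 (leadingCoeff_eq_zero.1 h5)
  rw [F.as_sum_range' (n + 1) hn]
  refine Submodule.sum_mem _ fun a ha => ?_
  rw [Finset.mem_range] at ha
  obtain ⟨g, hg⟩ := hd a
  by_cases hg0 : g = 0
  · rw [hg, hg0, mul_zero, map_zero]
    exact Submodule.zero_mem _
  have hdeg : g.natDegree < twoN n α β a := by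
    have h3 : (F.coeff a).natDegree < n + 1 - a := by
      have h4 : F.coeff a ≠ 0 := by
        rw [hg]
        exact mul_ne_zero (twoQ_ne _ _ _ _ _) hg0
      by_contra h5
      have h6 : (F.coeff a).coeff (F.coeff a).natDegree = 0 := hV a _ (by omega)
      exact h4 (leadingCoeff_eq_zero.1 h6)
    rw [hg, natDegree_mul (twoQ_ne _ _ _ _ _) hg0, twoQ_deg] at h3
    unfold twoN
    omega
  rw [hg, g.as_sum_range_C_mul_X_pow' hdeg, Finset.mul_sum, map_sum]
  refine Submodule.sum_mem _ fun j hj => ?_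
  rw [Finset.mem_range] at hj
  have h7 : monomial a (twoQ α β y₁ y₂ a * (C (g.coeff j) * X ^ j)) =
      g.coeff j • twoB n α β y₁ y₂ ⟨⟨a, ha⟩, ⟨j, hj⟩⟩ := by
    change monomial a (twoQ α β y₁ y₂ a * (C (g.coeff j) * X ^ j)) =
      g.coeff j • monomial a (twoQ α β y₁ y₂ a * X ^ j)
    rw [smul_monomial]
    congr 1
    rw [smul_eq_C_mul]
    ring
  rw [h7]
  exact Submodule.smul_mem _ _ (Submodule.subset_span ⟨_, rfl⟩)

private theorem two_sum (k m : ℕ) (h : k ≤ m) : ∑ a ∈ Finset.range m, (k - a) = (k + 1).choose 2 := by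
  induction k generalizing m with
  | zero =>
    rw [Finset.sum_eq_zero fun a _ => Nat.zero_sub a]
    rfl
  | succ k ih =>
    obtain ⟨m, rfl⟩ : ∃ c, m = c + 1 := ⟨m - 1, by omega⟩
    rw [Finset.sum_range_succ']
    have h1 : ∀ a, k + 1 - (a + 1) = k - a := fun a => by omega
    have h2 : (k + 1 + 1).choose 2 = (k + 1).choose 1 + (k + 1).choose 2 :=
      Nat.choose_succ_succ (k + 1) 1
    rw [Finset.sum_congr rfl fun a _ => h1 a, ih m (by omega), h2, Nat.choose_one_right]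
    omega

/-- the two points on the line `x = 0` -/
theorem two_vert {n α β : ℕ} {y₁ y₂ : ℂ} (hy : y₁ ≠ y₂) (h : α + β ≤ n) :
    Module.finrank ℂ (Sp (n + 1) ![((0 : ℂ), y₁), ((0 : ℂ), y₂)] ![α, β]) +
      ((α + 1).choose 2 + (β + 1).choose 2) ≤ (n + 2).choose 2 := by
  have h1 : Module.finrank ℂ (Sp (n + 1) ![((0 : ℂ), y₁), ((0 : ℂ), y₂)] ![α, β]) ≤
      Module.finrank ℂ (Submodule.span ℂ (Set.range (twoB n α β y₁ y₂))) := by
    have : FiniteDimensional ℂ (Submodule.span ℂ (Set.range (twoB n α β y₁ y₂))) :=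
      FiniteDimensional.span_of_finite ℂ (Set.finite_range _)
    exact Submodule.finrank_mono fun F hF => two_mem hy hF
  have h2 : Module.finrank ℂ (Submodule.span ℂ (Set.range (twoB n α β y₁ y₂))) ≤
      Fintype.card ((a : Fin (n + 1)) × Fin (twoN n α β a)) := finrank_range_le_card _
  have h3 : Fintype.card ((a : Fin (n + 1)) × Fin (twoN n α β a)) =
      ∑ a ∈ Finset.range (n + 1), twoN n α β a := by
    rw [Fintype.card_sigma, ← Fin.sum_univ_eq_sum_range (fun a => twoN n α β a)]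
    exact Finset.sum_congr rfl fun a _ => Fintype.card_fin _
  have h4 : ∑ a ∈ Finset.range (n + 1), twoN n α β a + (∑ a ∈ Finset.range (n + 1), (α - a) +
      ∑ a ∈ Finset.range (n + 1), (β - a)) = ∑ a ∈ Finset.range (n + 1), (n + 1 - a) := by
    rw [← Finset.sum_add_distrib, ← Finset.sum_add_distrib]
    refine Finset.sum_congr rfl fun a ha => ?_
    rw [Finset.mem_range] at ha
    unfold twoN
    omega
  rw [two_sum α (n + 1) (by omega), two_sum β (n + 1) (by omega),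
    two_sum (n + 1) (n + 1) le_rfl] at h4
  have h5 : (n + 1 + 1).choose 2 = (n + 2).choose 2 := rfl
  omega

end Pool.Agent.Lib.MP_6b2d39_agHal
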