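import Pool.Agent.Lib.MP_6b2d39_agHal.TwoA

/-!
Systems with two points.

PROOF. Shear `S : F(x, y) ↦ F(x + l y, y)` (an automorphism of `ℂ[X][X]` which preserves the total degree; `mult_comp`) with
`l` such that both points get the same first coordinate; then a translation (`tr`): the points are `(0, y₁)`, `(0, y₂)`,
`y₁ ≠ y₂`. Now `F = ∑ f_a(y) x ^ a` and `Cond` says: `(y - y₁) ^ (α - a)` and `(y - y₂) ^ (β - a)` divide `f_a` (the Taylor
expansion at `x = 0` is `F`), so `f_a` is in a space of dimension `≤ (n - a + 1) - (α - a) - (β - a)` (`α + β ≤ n`).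
-/

open Polynomial

set_option autoImplicit false

namespace Pool.Agent.Lib.MP_6b2d39_agHal

open Pool.Agent.Lib.MP_6b2d39_ag

private noncomputable def twoT (l c : ℂ) : ℂ[X][X] →ₐ[ℂ] ℂ[X][X] :=
  aevalAeval (C X) (X + C (C l * X + C c))

private theorem twoT_X (l c : ℂ) : twoT l c (C X) = C X := by
  unfold twoT
  rw [aevalAeval_X]

private theorem twoT_Y (l c : ℂ) : twoT l c X = X + C (C l * X + C c) := by
  unfold twoT
  rw [aevalAeval_Y]

private theorem twoT_C (l c r : ℂ) : twoT l c (C (C r)) = C (C r) := (twoT l c).commutes r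

private theorem twoT_inj (l c : ℂ) : Function.Injective (twoT l c) := by
  have h1 : (twoT (-l) (-c)).comp (twoT l c) = AlgHom.id ℂ ℂ[X][X] := by
    refine Polynomial.algHom_ext' ?_ ?_
    · refine Polynomial.algHom_ext ?_
      change twoT (-l) (-c) (twoT l c (C X)) = C X
      rw [twoT_X, twoT_X]
    · change twoT (-l) (-c) (twoT l c X) = X
      rw [twoT_Y, C_add, C_mul, map_add, map_add, map_mul, twoT_C, twoT_C, twoT_X, twoT_Y, C_add,
        C_mul, C_neg, C_neg, C_neg, C_neg]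
      ring
  intro F G hFG
  have h2 : ∀ F, twoT (-l) (-c) (twoT l c F) = F := fun F => congrArg (fun f => f F) h1
  rw [← h2 F, hFG, h2]

/-- the polynomials of bounded total degree -/
private noncomputable def twoV (n : ℕ) : Submodule ℂ ℂ[X][X] :=
  Sp (ι := Empty) n (fun i => i.elim) (fun i => i.elim)

private theorem mem_twoV {n : ℕ} {F : ℂ[X][X]} : F ∈ twoV n ↔ InV n F :=
  ⟨fun h => h.1, fun h => ⟨h, fun i => i.elim⟩⟩

private theorem inV_Y : InV 2 (X : ℂ[X][X]) := by
  intro a b h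
  rw [coeff_X]
  split_ifs with h1
  · rw [coeff_one, if_neg (by omega)]
  · rw [coeff_zero]

private theorem inV_C {g : ℂ[X]} {n : ℕ} (hg : g.natDegree < n) : InV n (C g) := by
  intro a b h
  rw [coeff_C]
  split_ifs with h1
  · exact coeff_eq_zero_of_natDegree_lt (by omega)
  · rw [coeff_zero]

private theorem inV_twoT {n : ℕ} {F : ℂ[X][X]} (l c : ℂ) (hF : InV n F) : InV n (twoT l c F) := by
  rw [← mem_twoV, F.as_sum_support, map_sum]
  refine Submodule.sum_mem _ fun i _ => ?_
  rw [(F.coeff i).as_sum_support, map_sum, map_sum]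
  refine Submodule.sum_mem _ fun j hj => ?_
  have h1 : i + j < n := by
    by_contra h2
    exact (mem_support_iff.1 hj) (hF i j (not_lt.1 h2))
  have h2 : monomial i (monomial j ((F.coeff i).coeff j)) =
      (C (C ((F.coeff i).coeff j)) * C X ^ j) * X ^ i := by
    rw [← C_mul_X_pow_eq_monomial, ← C_mul_X_pow_eq_monomial, C_mul, C_pow]
  rw [h2, map_mul, map_mul, map_pow, map_pow, twoT_C, twoT_X, twoT_Y, mem_twoV]
  have h3 : InV 2 (X + C (C l * X + C c) : ℂ[X][X]) := by
    rw [← mem_twoV]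
    refine Submodule.add_mem _ (mem_twoV.2 inV_Y) (mem_twoV.2 (inV_C ?_))
    exact lt_of_le_of_lt natDegree_linear_le (by omega)
  have h4 : InV (j + 1) (C (C ((F.coeff i).coeff j)) * C X ^ j : ℂ[X][X]) := by
    rw [← C_pow, ← C_mul]
    exact inV_C (Nat.lt_succ_of_le (natDegree_C_mul_X_pow_le _ _))
  have h5 := inV_mul h4 (inV_pow h3 i)
  exact inV_mono (by omega) h5

theorem two_le {ι : Type} [Fintype ι] {n : ℕ} {p : ι → ℂ × ℂ} {m : ι → ℕ} {i j : ι} (hij : i ≠ j)
    (h0 : ∀ k, k ≠ i → k ≠ j → m k = 0) (hp : (p i).2 ≠ (p j).2) (h : m i + m j ≤ n) :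
    Module.finrank ℂ (Sp (n + 1) p m) + ∑ k, (m k + 1).choose 2 ≤ (n + 2).choose 2 := by
  classical
  have hs : ∑ k, (m k + 1).choose 2 = (m i + 1).choose 2 + (m j + 1).choose 2 := by
    rw [← Finset.sum_pair (f := fun k => (m k + 1).choose 2) hij]
    symm
    refine Finset.sum_subset (Finset.subset_univ _) fun k _ hk => ?_
    rw [Finset.mem_insert, Finset.mem_singleton, not_or] at hk
    rw [h0 k hk.1 hk.2]
    rfl
  have hd : (p i).2 - (p j).2 ≠ 0 := sub_ne_zero.2 hp
  obtain ⟨l, c, hi, hj⟩ : ∃ l c : ℂ, l * (p i).2 + c = (p i).1 ∧ l * (p j).2 + c = (p j).1 := by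
    refine ⟨((p i).1 - (p j).1) / ((p i).2 - (p j).2),
      (p i).1 - ((p i).1 - (p j).1) / ((p i).2 - (p j).2) * (p i).2, by ring, ?_⟩
    field_simp
    ring
  have hev : ∀ k : ι, l * (p k).2 + c = (p k).1 → ∀ F, Mult (m k) (p k) F →
      Mult (m k) ((0 : ℂ), (p k).2) (twoT l c F) := by
    intro k hk F hF
    refine mult_comp _ _ ?_ ?_ hF
    · change aevalAeval (p k).2 (0 : ℂ) (C X) = (p k).2
      rw [aevalAeval_X]
    · change aevalAeval (p k).2 (0 : ℂ) (X + C (C l * X + C c)) = (p k).1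
      rw [← hk, C_add, C_mul, map_add, map_add, map_mul, aevalAeval_Y, aevalAeval_X]
      have h1 : ∀ r : ℂ, aevalAeval (p k).2 (0 : ℂ) (C (C r)) = r := fun r =>
        (aevalAeval (p k).2 (0 : ℂ)).commutes r
      rw [h1, h1, zero_add]
  let T : Sp (n + 1) p m →ₗ[ℂ]
      Sp (n + 1) ![((0 : ℂ), (p i).2), ((0 : ℂ), (p j).2)] ![m i, m j] :=
    (twoT l c).toLinearMap.restrict (p := Sp (n + 1) p m)
      (q := Sp (n + 1) ![((0 : ℂ), (p i).2), ((0 : ℂ), (p j).2)] ![m i, m j]) fun F hF => by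
        refine ⟨inV_twoT l c hF.1, fun k => ?_⟩
        fin_cases k
        · exact hev i hi F (hF.2 i)
        · exact hev j hj F (hF.2 j)
  have hT : Function.Injective T := by
    intro F G hFG
    refine Subtype.ext (twoT_inj l c ?_)
    exact congrArg Subtype.val hFG
  have h1 := LinearMap.finrank_le_finrank_of_injective hT
  have h2 := two_vert hp h
  rw [hs]
  omega

end Pool.Agent.Lib.MP_6b2d39_agHal
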