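import Pool.Agent.Lib.MP_6b2d39_agHal.CoreN
import Pool.Agent.Lib.MP_6b2d39_agHal.CoreZ
import Pool.Agent.Lib.MP_6b2d39_agHal.Conf
import Pool.Agent.Lib.MP_6b2d39_agCr.Lower

/-!
The window for reduced systems with exactly nine multiplicities larger than `μ` and small anticanonical degree.

PROOF (as `window_S` in `Nw/Assemble.lean`). `exists_enum` for `S = {i | μ < m i}`, `s = 3 d - ∑_S m i < μ` (`≥ 0` since the system is
reduced: `∑_S m i ≤ 3 (m (τ 0) + m (τ 1) + m (τ 2)) ≤ 3 d`). Index type `Fin h ⊕ Fin u`, `J` = the light points `Sum.inl i`, `i ∉ S`,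
`U` = all `Sum.inr k`; `mass l J = M = ∑_{i ∉ S} (m i + 1).choose 2`, `vd d m = (d + 2).choose 2 - ∑_S … - M`.
`vd ≤ -15 μ²`: `u = 0`, `core_neg` (`s ≥ 1`) or `core_zero` (`s = 0`; some light multiplicity is `≥ 1` since `M > 0`).
`vd ≥ 7 μ²`: `s ≥ 1` (`s = 0`: `ar_zero`, `vd d m = 1 - M ≤ 1`), `u = vd d m`, `core_pos`. Then `exists_configT` and
`general_nonspecial_of_le`.
-/

open Polynomial

set_option autoImplicit false

namespace Pool.Agent.Lib.MP_6b2d39_agHal

open Pool.Agent.Lib.MP_6b2d39_ag Pool.Agent.Lib.MP_6b2d39_agWin Pool.Agent.Lib.MP_6b2d39_agNw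
  Pool.Agent.Lib.MP_6b2d39_agCr

private theorem wa_split {h : ℕ} (S : Finset (Fin h)) (f : Fin h → ℕ) :
    ∑ l, f l = ∑ l ∈ S, f l + ∑ l ∈ Finset.univ.filter (fun l => l ∉ S), f l := by
  rw [← Finset.sum_filter_add_sum_filter_not Finset.univ (fun l => l ∈ S) f]
  congr 1
  apply Finset.sum_congr _ (fun _ _ => rfl)
  ext l
  simp

private theorem wa_all {h u : ℕ} (τ : Fin 9 ↪ Fin h) {S : Finset (Fin h)}
    (hS : Finset.univ.map τ = S) :
    ((Finset.univ.filter (fun l : Fin h => l ∉ S)).map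
      Function.Embedding.inl) ∪ (Finset.univ : Finset (Fin u)).map Function.Embedding.inr =
      (Finset.univ.filter (fun i : Fin h ⊕ Fin u => ∀ l, i ≠ Sum.inl (τ l))) := by
  ext i
  rw [Finset.mem_union, Finset.mem_map, Finset.mem_map, Finset.mem_filter]
  constructor
  · rintro (⟨l, hl, rfl⟩ | ⟨l, -, rfl⟩)
    · refine ⟨Finset.mem_univ _, fun l' heq => ?_⟩
      rw [Finset.mem_filter] at hl
      apply hl.2
      have h1 : l = τ l' := Sum.inl_injective heq
      rw [h1, ← hS]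
      exact Finset.mem_map_of_mem τ (Finset.mem_univ l')
    · refine ⟨Finset.mem_univ _, fun l' heq => ?_⟩
      simp at heq
  · rintro ⟨-, hi⟩
    rcases i with l | l
    · left
      refine ⟨l, ?_, rfl⟩
      rw [Finset.mem_filter]
      refine ⟨Finset.mem_univ _, fun hl => ?_⟩
      rw [← hS, Finset.mem_map] at hl
      obtain ⟨l', -, h1⟩ := hl
      exact hi l' (by rw [h1])
    · right
      exact ⟨l, Finset.mem_univ _, rfl⟩

private theorem wa_choose (a : ℕ) : (3 * a + 2).choose 2 = 9 * (a + 1).choose 2 + 1 := by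
  have h1 : 2 * (3 * a + 2).choose 2 = (3 * a + 2) * (3 * a + 1) := by
    have h2 := Nat.choose_two_right (3 * a + 2)
    rw [h2]
    have h3 : 2 ∣ (3 * a + 2) * (3 * a + 2 - 1) := (Nat.even_mul_pred_self (3 * a + 2)).two_dvd
    rw [Nat.mul_div_cancel' h3]
    rfl
  have h2 : 2 * (a + 1).choose 2 = (a + 1) * a := by
    have h2 := Nat.choose_two_right (a + 1)
    rw [h2]
    have h3 : 2 ∣ (a + 1) * (a + 1 - 1) := (Nat.even_mul_pred_self (a + 1)).two_dvd
    rw [Nat.mul_div_cancel' h3]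
    rfl
  have h3 : (3 * a + 2) * (3 * a + 1) = 9 * ((a + 1) * a) + 2 := by ring
  omega

theorem window_neg {h d μ : ℕ} {m : Fin h → ℕ} (hred : Reduced d m)
    (hc : (Finset.univ.filter (fun i => μ < m i)).card = 9)
    (hs : 3 * d < ∑ i ∈ Finset.univ.filter (fun i => μ < m i), m i + μ)
    (hv : vd d m ≤ -(15 * (μ : ℤ) ^ 2)) :
    General (fun P => (Module.finrank ℂ (curves d m P) : ℤ) = max (vd d m) 0) := by
  obtain ⟨τ, hτ, hτS⟩ := exists_enum m hc
  set S : Finset (Fin h) := Finset.univ.filter (fun i => μ < m i) with hSdef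
  have hmemS : ∀ i, i ∈ S ↔ μ < m i := fun i => by
    rw [hSdef, Finset.mem_filter]
    exact ⟨fun h => h.2, fun h => ⟨Finset.mem_univ _, h⟩⟩
  have hsumS : ∀ f : Fin h → ℕ, ∑ i ∈ S, f i = ∑ i, f (τ i) := by
    intro f
    rw [← hτS, Finset.sum_map]
  -- reducedness
  have hr : m (τ 0) + m (τ 1) + m (τ 2) ≤ d := by
    have h1 := hred ((Fin.castLEEmb (by norm_num : 3 ≤ 9)).trans τ)
    rw [Fin.sum_univ_three] at h1
    exact h1
  have hsum9 : ∑ i, m (τ i) ≤ 3 * d := by
    have h1 : ∑ i, m (τ i) ≤ 3 * (m (τ 0) + m (τ 1) + m (τ 2)) := by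
      have a1 : m (τ 1) ≤ m (τ 0) := hτ (by decide)
      have a2 : m (τ 2) ≤ m (τ 1) := hτ (by decide)
      have a3 : m (τ 3) ≤ m (τ 2) := hτ (by decide)
      have a4 : m (τ 4) ≤ m (τ 2) := hτ (by decide)
      have a5 : m (τ 5) ≤ m (τ 2) := hτ (by decide)
      have a6 : m (τ 6) ≤ m (τ 2) := hτ (by decide)
      have a7 : m (τ 7) ≤ m (τ 2) := hτ (by decide)
      have a8 : m (τ 8) ≤ m (τ 2) := hτ (by decide)
      simp only [Fin.sum_univ_succ, Fin.sum_univ_zero]
      simp only [Fin.succ_zero_eq_one, Fin.succ_one_eq_two]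
      change m (τ 0) + (m (τ 1) + (m (τ 2) + (m (τ 3) + (m (τ 4) + (m (τ 5) + (m (τ 6) +
        (m (τ 7) + (m (τ 8) + 0)))))))) ≤ _
      omega
    omega
  rw [hsumS] at hs
  obtain ⟨s, hsd⟩ : ∃ s, 3 * d = ∑ i, m (τ i) + s := ⟨3 * d - ∑ i, m (τ i), by omega⟩
  have hsμ : s < μ := by omega
  have hμ : 1 ≤ μ := by omega
  have h8 : μ < m (τ 8) := by
    rw [← hmemS, ← hτS]
    exact Finset.mem_map_of_mem τ (Finset.mem_univ 8)
  -- virtual dimension
  set A := ∑ i, (m (τ i) + 1).choose 2 with hA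
  set M := ∑ l ∈ Finset.univ.filter (fun l => l ∉ S), (m l + 1).choose 2 with hM
  have hvd : vd d m = (((d + 2).choose 2 : ℕ) : ℤ) - (A : ℤ) - (M : ℤ) := by
    have h2 := wa_split S (fun l => (m l + 1).choose 2)
    unfold vd
    have h3 : (∑ i, ((m i + 1).choose 2 : ℤ)) = ((∑ l, (m l + 1).choose 2 : ℕ) : ℤ) := by
      push_cast
      rfl
    rw [h3, h2, hsumS (fun l => (m l + 1).choose 2), ← hA, ← hM]
    push_cast
    ring
  have hle : (d + 2).choose 2 + 15 * μ ^ 2 ≤ A + M := by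
    have : (((d + 2).choose 2 + 15 * μ ^ 2 : ℕ) : ℤ) ≤ ((A + M : ℕ) : ℤ) := by
      push_cast
      linarith
    exact_mod_cast this
  have hμ2 : 1 ≤ μ ^ 2 := Nat.one_le_pow _ _ hμ
  have hmassJ : mass (Sum.elim m (fun _ => 1) : Fin h ⊕ Fin 0 → ℕ)
      ((Finset.univ.filter (fun l : Fin h => l ∉ S)).map Function.Embedding.inl) = M := by
    unfold mass
    rw [Finset.sum_map]
    rfl
  have hE : ∃ (p : Fin 9 → ℂ × ℂ) (x y : Fin h ⊕ Fin 0 → ℂ),
      ∀ F ∈ Sp (d + 1) p (fun i => m (τ i)),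
        (∀ i ∈ (Finset.univ.filter (fun l : Fin h => l ∉ S)).map Function.Embedding.inl,
          Cond (Finset.Icc 1 ((Sum.elim m (fun _ => 1) : Fin h ⊕ Fin 0 → ℕ) i)) (x i) (y i) F) →
        F = 0 := by
    rcases Nat.eq_zero_or_pos s with h0 | hs1
    · rw [h0, add_zero] at hsd
      obtain ⟨h1, h2⟩ := ar_zero (m := fun i => m (τ i)) hτ hr hsd
      have h1 : d = 3 * m (τ 0) := h1
      have h3 : A = 9 * (m (τ 0) + 1).choose 2 := by
        rw [hA]
        have h4 : ∀ i ∈ (Finset.univ : Finset (Fin 9)),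
            (m (τ i) + 1).choose 2 = (m (τ 0) + 1).choose 2 := by
          intro i _
          have h5 : m (τ i) = m (τ 0) := h2 i
          rw [h5]
        rw [Finset.sum_congr rfl h4, Finset.sum_const, Finset.card_univ, Fintype.card_fin,
          smul_eq_mul]
      rw [h3, h1, wa_choose] at hle
      have hM0 : M ≠ 0 := by omega
      rw [hM] at hM0
      obtain ⟨l, hl, hl0⟩ := Finset.exists_ne_zero_of_sum_ne_zero hM0
      have hl1 : 1 ≤ m l := by
        by_contra hcon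
        apply hl0
        have h5 : m l = 0 := by omega
        rw [h5]
        rfl
      exact core_zero (m := fun i => m (τ i)) hτ hr hsd
        ⟨Sum.inl l, Finset.mem_map_of_mem _ hl, hl1⟩
    · refine core_neg (m := fun i => m (τ i)) hs1 hsμ hτ hr hsd h8 (fun j hj => ?_) ?_
      · rw [Finset.mem_map] at hj
        obtain ⟨l, hl, rfl⟩ := hj
        rw [Finset.mem_filter, hmemS] at hl
        simp only [Function.Embedding.inl_apply, Sum.elim_inl]
        exact not_lt.1 hl.2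
      · rw [hmassJ]
        exact hle
  obtain ⟨p, x, y, hE⟩ := hE
  have hall := wa_all (u := 0) τ hτS
  rw [Finset.univ_eq_empty (α := Fin 0), Finset.map_empty, Finset.union_empty] at hall
  rw [hall] at hE
  obtain ⟨P₀, hP₀⟩ := exists_configT τ p x y hE
  apply general_nonspecial_of_le P₀
  apply le_max_of_le_right
  exact_mod_cast hP₀

end Pool.Agent.Lib.MP_6b2d39_agHal
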