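import Mathlib

/-!
Wronskians in a domain with a derivation `D` over a field `K` of constants.
-/

set_option autoImplicit false

namespace Pool.Agent.Lib.MP_6b2d39_agHal

variable {K R : Type*} [Field K] [CommRing R] [IsDomain R] [Algebra K R]

/-- The only constants of the fraction field are the elements of `K`. -/
def Cst (D : Derivation K R R) : Prop :=
  ∀ a b : R, b ≠ 0 → b * D a = a * D b → ∃ c : K, a = algebraMap K R c * b

theorem wronskian_ker {D : Derivation K R R} (hD : Cst D) :
    ∀ (r : ℕ) (u : Fin r → R), LinearIndependent K u → ∀ c : Fin r → R,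
      (∀ i < r, ∑ j, c j * D^[i] (u j) = 0) → c = 0 := by
  intro r
  induction r with
  | zero =>
    intro u _ c _
    exact Subsingleton.elim _ _
  | succ r ih =>
    intro u hu c h
    by_contra hc
    obtain ⟨j0, hj0⟩ : ∃ j0, c j0 ≠ 0 := by
      by_contra hcon
      push Not at hcon
      exact hc (funext hcon)
    -- the derived relations
    have h1 : ∀ i < r, ∑ j, (c j0 * D (c j) - c j * D (c j0)) * D^[i] (u j) = 0 := by
      intro i hi
      have e1 := h i (by omega)
      have e2 := h (i + 1) (by omega)
      have e3 : ∑ j, D (c j) * D^[i] (u j) = 0 := by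
        have e4 : D (∑ j, c j * D^[i] (u j)) = 0 := by rw [e1, map_zero]
        rw [map_sum] at e4
        have e5 : ∀ j, D (c j * D^[i] (u j)) =
            c j * D^[i + 1] (u j) + D (c j) * D^[i] (u j) := by
          intro j
          rw [D.leibniz, Function.iterate_succ_apply', smul_eq_mul, smul_eq_mul]
          ring
        rw [Finset.sum_congr rfl fun j _ => e5 j, Finset.sum_add_distrib, e2, zero_add] at e4
        exact e4
      have e6 : ∑ j, (c j0 * D (c j) - c j * D (c j0)) * D^[i] (u j) =
          c j0 * ∑ j, D (c j) * D^[i] (u j) - D (c j0) * ∑ j, c j * D^[i] (u j) := by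
        rw [Finset.mul_sum, Finset.mul_sum, ← Finset.sum_sub_distrib]
        exact Finset.sum_congr rfl fun j _ => by ring
      rw [e6, e3, e1, mul_zero, mul_zero, sub_zero]
    have h2 := ih (fun j => u (j0.succAbove j))
      (hu.comp _ (Fin.succAbove_right_injective))
      (fun j => c j0 * D (c (j0.succAbove j)) - c (j0.succAbove j) * D (c j0)) (by
        intro i hi
        have e := h1 i hi
        rw [Fin.sum_univ_succAbove _ j0, sub_self, zero_mul, zero_add] at e
        exact e)
    have h3 : ∀ j, ∃ l : K, c j = algebraMap K R l * c j0 := by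
      intro j
      apply hD _ _ hj0
      rcases eq_or_ne j j0 with rfl | hj
      · rfl
      · obtain ⟨k, rfl⟩ := Fin.exists_succAbove_eq hj
        exact sub_eq_zero.1 (congrFun h2 k)
    choose l hl using h3
    have h4 : ∑ j, l j • u j = 0 := by
      have e := h 0 (Nat.succ_pos r)
      simp only [Function.iterate_zero, id_eq] at e
      have e2 : c j0 * ∑ j, l j • u j = 0 := by
        rw [← e, Finset.mul_sum]
        refine Finset.sum_congr rfl fun j _ => ?_
        rw [hl j, Algebra.smul_def]
        ring
      exact (mul_eq_zero.1 e2).resolve_left hj0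
    have h5 := Fintype.linearIndependent_iff.1 hu l h4 j0
    apply hj0
    rw [hl j0, h5, map_zero, zero_mul]

/-- The Wronskian of linearly independent elements is not zero. -/
theorem wronskian_ne_zero {D : Derivation K R R} (hD : Cst D) {r : ℕ} {u : Fin r → R}
    (hu : LinearIndependent K u) :
    (Matrix.of fun i j : Fin r => D^[(i : ℕ)] (u j)).det ≠ 0 := by
  intro h
  obtain ⟨c, hc, h1⟩ := Matrix.exists_mulVec_eq_zero_iff.2 h
  apply hc
  apply wronskian_ker hD r u hu c
  intro i hi
  have h2 := congrFun h1 ⟨i, hi⟩
  rw [Matrix.mulVec, Pi.zero_apply] at h2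
  unfold dotProduct at h2
  rw [← h2]
  exact Finset.sum_congr rfl fun j _ => mul_comm _ _

end Pool.Agent.Lib.MP_6b2d39_agHal
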